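import Pool.Agent.USP.P_PSD

/-!
# USP: existence of frames with given `k`
-/

set_option autoImplicit false

open Set Filter Topology MeasureTheory
open scoped ContDiff

namespace Pool.Agent.USP
open Pool.Agent.MSup

namespace FEX_

variable {β : Type} [Fintype β]

theorem add_r (x y z : β → ℝ) : ip x (y + z) = ip x y + ip x z := by
  simp only [ip, Pi.add_apply, mul_add, Finset.sum_add_distrib]

theorem add_l (x y z : β → ℝ) : ip (x + y) z = ip x z + ip y z := by
  rw [PSD_.comm, add_r, PSD_.comm z x, PSD_.comm z y]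

end FEX_

open PSD_ FEX_ in
/-- existence of frames with given `k` -/
theorem p_FEX : T_FEX := by
  intro β _ _ J hJ hJ2 hc k hk
  obtain ⟨i⟩ : Nonempty β := by
    rw [← Fintype.card_pos_iff]
    omega
  set w : β → ℝ := Pi.single i 1 with hw
  have hww : ip w w = 1 := by
    simp [ip, hw, Pi.single_apply]
  have hJw : ip (J w) w = 0 := by
    have h1 := hJ w w
    rw [comm w (J w)] at h1
    linarith
  have hwJ : ip w (J w) = 0 := by rw [PSD_.comm, hJw]
  have hJJ : ip (J w) (J w) = 1 := by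
    have h1 := hJ w (J w)
    rw [hJ2 w, show -w = (-1 : ℝ) • w by simp, smul_r, hww] at h1
    linarith
  obtain ⟨e, he, h1, h2⟩ := exists_orth w (J w) hc
  have hp := pos he
  set c : ℝ := (√(ip e e))⁻¹ with hc'
  have hs : √(ip e e) * √(ip e e) = ip e e := Real.mul_self_sqrt hp.le
  have hs0 : √(ip e e) ≠ 0 := (Real.sqrt_pos.2 hp).ne'
  have hce : c * (c * ip e e) = 1 := by
    rw [hc']
    field_simp
    rw [pow_two, hs]
  have hr : √(1 - k ^ 2) ^ 2 = 1 - k ^ 2 := by
    apply Real.sq_sqrt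
    nlinarith [hk.1, hk.2]
  have h1' : ip w (c • e) = 0 := by rw [smul_r, h1, mul_zero]
  have h2' : ip (J w) (c • e) = 0 := by rw [smul_r, h2, mul_zero]
  have h3' : ip (c • e) (c • e) = 1 := by rw [smul_r, smul_l, hce]
  have h4' : ip (c • e) (J w) = 0 := by rw [PSD_.comm, h2']
  refine ⟨⟨J, hJ, hJ2, w, k • J w + √(1 - k ^ 2) • (c • e), hww, ?_, ?_⟩, rfl, ?_⟩
  · rw [add_r, add_l, add_l]
    simp only [smul_l (β := β) k, smul_l (β := β) √(1 - k ^ 2), smul_r (β := β) k,
      smul_r (β := β) √(1 - k ^ 2), hJJ, h2', h3', h4']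
    linear_combination hr
  · rw [add_r, smul_r k, smul_r √(1 - k ^ 2), hwJ, h1']
    ring
  · unfold Fr.k
    show ip (J w) (k • J w + √(1 - k ^ 2) • (c • e)) = k
    rw [add_r, smul_r k, smul_r √(1 - k ^ 2), hJJ, h2']
    ring

end Pool.Agent.USP
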