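import Pool.Agent.USP.Targets

/-!
# USP-DER: the derivative of `Psi` along a curve (MP_337148_gt)
-/

set_option autoImplicit false

open Set Filter Topology MeasureTheory

namespace Pool.Agent.USP

namespace DER_

variable {β : Type} [Fintype β] (R : Fr β)

lemma om_app (a b : ℝ) (i : β) : R.om a b i =
    Real.cos b * (Real.cos a * R.w i + Real.sin a * R.v i) +
      Real.sin b * (Real.cos a * R.J R.w i + Real.sin a * R.J R.v i) := by
  simp [Fr.om, Fr.rot]
  ring

lemma om'_app (a b : ℝ) (i : β) : R.om' a b i =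
    Real.cos b * (-Real.sin a * R.w i + Real.cos a * R.v i) +
      Real.sin b * (-Real.sin a * R.J R.w i + Real.cos a * R.J R.v i) := by
  simp [Fr.om', Fr.rot]
  ring

lemma Jom_app (a b : ℝ) (i : β) : R.J (R.om a b) i =
    Real.cos b * (Real.cos a * R.J R.w i + Real.sin a * R.J R.v i) -
      Real.sin b * (Real.cos a * R.w i + Real.sin a * R.v i) := by
  simp [Fr.om, Fr.rot, R.sq]
  ring

lemma Jom'_app (a b : ℝ) (i : β) : R.J (R.om' a b) i =
    Real.cos b * (-Real.sin a * R.J R.w i + Real.cos a * R.J R.v i) -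
      Real.sin b * (-Real.sin a * R.w i + Real.cos a * R.v i) := by
  simp [Fr.om', Fr.rot, R.sq]
  ring

lemma d_om {a b : ℝ → ℝ} {a' b' x : ℝ} (ha : HasDerivAt a a' x) (hb : HasDerivAt b b' x) (i : β) :
    HasDerivAt (fun t => R.om (a t) (b t) i)
      (a' * R.om' (a x) (b x) i + b' * R.J (R.om (a x) (b x)) i) x := by
  have h := (hb.cos.fun_mul ((ha.cos.mul_const (R.w i)).fun_add (ha.sin.mul_const (R.v i)))).fun_add
    (hb.sin.fun_mul ((ha.cos.mul_const (R.J R.w i)).fun_add (ha.sin.mul_const (R.J R.v i))))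
  have he : (fun t => R.om (a t) (b t) i) = fun t =>
      Real.cos (b t) * (Real.cos (a t) * R.w i + Real.sin (a t) * R.v i) +
      Real.sin (b t) * (Real.cos (a t) * R.J R.w i + Real.sin (a t) * R.J R.v i) := by
    funext t
    exact om_app R _ _ i
  rw [he]
  refine h.congr_deriv ?_
  rw [om'_app, Jom_app]
  ring

lemma d_om' {a b : ℝ → ℝ} {a' b' x : ℝ} (ha : HasDerivAt a a' x) (hb : HasDerivAt b b' x) (i : β) :
    HasDerivAt (fun t => R.om' (a t) (b t) i)
      (-(a' * R.om (a x) (b x) i) + b' * R.J (R.om' (a x) (b x)) i) x := by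
  have h := (hb.cos.fun_mul ((ha.sin.fun_neg.mul_const (R.w i)).fun_add
      (ha.cos.mul_const (R.v i)))).fun_add
    (hb.sin.fun_mul ((ha.sin.fun_neg.mul_const (R.J R.w i)).fun_add
      (ha.cos.mul_const (R.J R.v i))))
  have he : (fun t => R.om' (a t) (b t) i) = fun t =>
      Real.cos (b t) * (-Real.sin (a t) * R.w i + Real.cos (a t) * R.v i) +
      Real.sin (b t) * (-Real.sin (a t) * R.J R.w i + Real.cos (a t) * R.J R.v i) := by
    funext t
    exact om'_app R _ _ i
  rw [he]
  refine h.congr_deriv ?_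
  rw [om_app, Jom'_app]
  ring

end DER_

open DER_

theorem p_DER : T_DER := by
  intro β _ R L s a b p s' a' b' p' x hs ha hb hp h0
  refine HasDerivAt.prodMk ?_ ?_
  · rw [hasDerivAt_pi]
    rintro (_ | i)
    · refine hs.cos.congr_deriv ?_
      simp only [Option.elim_none, neg_mul]
    · refine (hs.sin.fun_mul (d_om R ha hb i)).congr_deriv ?_
      simp only [Option.elim_some]
  · rw [hasDerivAt_pi]
    rintro (_ | i)
    · refine ((hp.fun_mul hs.sin).fun_neg).congr_deriv ?_
      simp only [Option.elim_none]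
      ring
    · refine (((hp.fun_mul hs.cos).fun_mul (d_om R ha hb i)).fun_add
        (((hasDerivAt_const x L).fun_div hs.sin h0).fun_mul (d_om' R ha hb i))).congr_deriv ?_
      simp only [Option.elim_some]
      field_simp
      ring

end Pool.Agent.USP
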