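import Pool.Agent.USP.P_FEX

/-!
# USP: the rotated orthonormal pair
-/

set_option autoImplicit false

open Set Filter Topology MeasureTheory
open scoped ContDiff

namespace Pool.Agent.USP
open Pool.Agent.MSup

namespace ORT_

variable {β : Type} [Fintype β]

theorem neg_r (x y : β → ℝ) : ip x (-y) = -ip x y := by
  simp only [ip, Pi.neg_apply, mul_neg, Finset.sum_neg_distrib]

theorem self_nonneg (x : β → ℝ) : 0 ≤ ip x x :=
  Finset.sum_nonneg fun _ _ => mul_self_nonneg _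

section
variable {J : (β → ℝ) →ₗ[ℝ] (β → ℝ)} (hJ : ∀ x y, ip (J x) y = -ip x (J y))
  (hJ2 : ∀ x, J (J x) = -x)
include hJ

theorem J_self (x : β → ℝ) : ip (J x) x = 0 := by
  have h := hJ x x
  rw [PSD_.comm x (J x)] at h
  linarith

theorem self_J (x : β → ℝ) : ip x (J x) = 0 := by
  rw [PSD_.comm, J_self hJ]

include hJ2

theorem J_J (x y : β → ℝ) : ip (J x) (J y) = ip x y := by
  rw [hJ, hJ2, neg_r, neg_neg]

end

theorem rot_rot (R : Fr β) (b : ℝ) (x y : β → ℝ) : ip (R.rot b x) (R.rot b y) = ip x y := by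
  unfold Fr.rot
  rw [FEX_.add_r, FEX_.add_l, FEX_.add_l, PSD_.smul_l, PSD_.smul_l, PSD_.smul_r, PSD_.smul_r,
    PSD_.smul_l, PSD_.smul_l, PSD_.smul_r, PSD_.smul_r, J_J R.skew R.sq, R.skew]
  have h := Real.sin_sq_add_cos_sq b
  linear_combination ip x y * h

theorem J_rot (R : Fr β) (b : ℝ) (x : β → ℝ) : R.J (R.rot b x) = R.rot b (R.J x) := by
  unfold Fr.rot
  rw [map_add, map_smul, map_smul]

end ORT_

open ORT_ in
/-- the rotated orthonormal pair -/
theorem p_ORT : T_ORT := by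
  intro β _ R a b
  have hab := Real.sin_sq_add_cos_sq a
  have hvw : ip R.v R.w = 0 := by rw [PSD_.comm, R.hwv]
  have hkv : ip R.v (R.J R.w) = R.k := PSD_.comm _ _
  have hwv : ip R.w (R.J R.v) = -R.k := by
    have := R.skew R.w R.v
    unfold Fr.k
    linarith
  have hvJ : ip (R.J R.v) R.w = -R.k := by rw [PSD_.comm, hwv]
  have hwJ : ip (R.J R.w) R.v = R.k := rfl
  set X : β → ℝ := Real.cos a • R.w + Real.sin a • R.v with hX
  set Y : β → ℝ := -Real.sin a • R.w + Real.cos a • R.v with hY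
  have hom : R.om a b = R.rot b X := rfl
  have hom' : R.om' a b = R.rot b Y := rfl
  have e1 : ip X X = 1 := by
    rw [hX]
    simp only [FEX_.add_r, FEX_.add_l, PSD_.smul_l, PSD_.smul_r, R.hw, R.hv, R.hwv, hvw]
    linear_combination hab
  have e2 : ip Y Y = 1 := by
    rw [hY]
    simp only [FEX_.add_r, FEX_.add_l, PSD_.smul_l, PSD_.smul_r, R.hw, R.hv, R.hwv, hvw]
    linear_combination hab
  have e3 : ip X Y = 0 := by
    rw [hX, hY]
    simp only [FEX_.add_r, FEX_.add_l, PSD_.smul_l, PSD_.smul_r, R.hw, R.hv, R.hwv, hvw]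
    ring
  have e4 : ip (R.J X) Y = R.k := by
    rw [hX, hY]
    simp only [map_add, map_smul, FEX_.add_r, FEX_.add_l, PSD_.smul_l, PSD_.smul_r,
      J_self R.skew, hvJ, hwJ]
    linear_combination R.k * hab
  have e5 : ip (R.J Y) X = -R.k := by
    rw [R.skew, PSD_.comm, e4]
  rw [hom, hom', J_rot, J_rot, rot_rot, rot_rot, rot_rot, rot_rot, rot_rot, rot_rot, rot_rot]
  refine ⟨e1, e2, e3, e4, J_self R.skew X, J_self R.skew Y, e5, ?_⟩
  have h1 := self_nonneg (R.J R.w + (-R.k) • R.v)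
  simp only [FEX_.add_r, FEX_.add_l, PSD_.smul_l, PSD_.smul_r, J_J R.skew R.sq, R.hw, R.hv,
    hkv, hwJ] at h1
  have h2 : R.k ^ 2 ≤ 1 := by nlinarith
  exact (sq_le_one_iff_abs_le_one R.k).1 h2

end Pool.Agent.USP
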