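import Pool.Agent.USP.Targets

/-!
# USP: high levels are regular (BIG)
-/

open Set Filter Topology

namespace Pool.Agent.USP

theorem p_BIG : T_BIG := by
  intro α β V V1 w u hP s0 hs0
  obtain ⟨l, hl, hl'⟩ := (mem_nhdsGT_iff_exists_Ioo_subset).1 hP.nl
  obtain ⟨r, hr, hr'⟩ := (mem_nhdsLT_iff_exists_Ioo_subset).1 hP.nr
  have hl1 : α < l := hl
  have hr1 : r < β := hr
  have hK : Icc (min l s0) (max r s0) ⊆ Ioo α β := by
    intro x hx
    exact ⟨lt_of_lt_of_le (lt_min hl1 hs0.1) hx.1, lt_of_le_of_lt hx.2 (max_lt hr1 hs0.2)⟩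
  have hc : ContinuousOn V (Icc (min l s0) (max r s0)) := fun x hx =>
    (hP.dV x (hK hx)).continuousAt.continuousWithinAt
  obtain ⟨M, hM⟩ := (isCompact_Icc.bddAbove_image hc)
  refine ⟨M, fun X a b hX hW => ⟨?_, ?_⟩⟩
  · have h1 : a < min l s0 := by
      by_contra h2
      have h3 : a ∈ Icc (min l s0) (max r s0) :=
        ⟨not_lt.1 h2, hW.as.le.trans (le_max_right r s0)⟩
      have h4 := hM (mem_image_of_mem V h3)
      rw [hW.Va] at h4
      exact absurd hX (not_lt.2 h4)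
    exact hl' ⟨hW.ha, h1.trans_le (min_le_left _ _)⟩
  · have h1 : max r s0 < b := by
      by_contra h2
      have h3 : b ∈ Icc (min l s0) (max r s0) :=
        ⟨(min_le_right l s0).trans hW.sb.le, not_lt.1 h2⟩
      have h4 := hM (mem_image_of_mem V h3)
      rw [hW.Vb] at h4
      exact absurd hX (not_lt.2 h4)
    exact hr' ⟨(le_max_left _ _).trans_lt h1, hW.hb⟩

end Pool.Agent.USP
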