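import Pool.Agent.USP.Targets

/-!
# USP: core of the one-dimensional part

The proof of `T_COR`: the Abel transform of `g` is constant on the levels above `V s0`.
-/

set_option autoImplicit false

open Set Filter Topology MeasureTheory
open scoped ContDiff

namespace Pool.Agent.USP
open Pool.Agent.MSup

namespace COR_

/-- the growth argument -/
theorem zero_of_bound {G : ℝ → ℝ} {c X0 K m : ℝ}
    (h1 : ∀ X, X0 ≤ X → 2 * (G X - G X0) = c * (X - X0))
    (h2 : ∀ X, |G X| ≤ K * √(max (X - m) 0)) : c = 0 := by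
  by_contra hc
  have hc' : 0 < |c| := abs_pos.2 hc
  set d : ℝ := max m X0 - m with hd
  have hd0 : 0 ≤ d := sub_nonneg.2 (le_max_left _ _)
  have key : ∀ t : ℝ, 0 ≤ t → |c| * t ^ 2 ≤ 2 * |K| * (√d + t) + 2 * |G X0| := by
    intro t ht
    have hX : X0 ≤ max m X0 + t ^ 2 := le_trans (le_max_right _ _) (by nlinarith [sq_nonneg t])
    have e1 := h1 _ hX
    have e2 := h2 (max m X0 + t ^ 2)
    have e3 : max m X0 + t ^ 2 - m = d + t ^ 2 := by rw [hd]; ring
    rw [e3, max_eq_left (show (0 : ℝ) ≤ d + t ^ 2 by positivity)] at e2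
    have e4 : √(d + t ^ 2) ≤ √d + t := by
      apply Real.sqrt_le_iff.2
      refine ⟨by positivity, ?_⟩
      nlinarith [Real.sq_sqrt hd0, Real.sqrt_nonneg d, mul_nonneg (Real.sqrt_nonneg d) ht]
    have e5 : K * √(d + t ^ 2) ≤ |K| * (√d + t) :=
      le_trans (mul_le_mul_of_nonneg_right (le_abs_self K) (Real.sqrt_nonneg _))
        (mul_le_mul_of_nonneg_left e4 (abs_nonneg K))
    have e6 : |c| * t ^ 2 ≤ |c| * (max m X0 + t ^ 2 - X0) := by
      apply mul_le_mul_of_nonneg_left _ (abs_nonneg c)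
      linarith [le_max_right m X0]
    have e7 : |c| * (max m X0 + t ^ 2 - X0) = |2 * (G (max m X0 + t ^ 2) - G X0)| := by
      rw [e1, abs_mul, abs_of_nonneg (sub_nonneg.2 hX)]
    have e8 : |2 * (G (max m X0 + t ^ 2) - G X0)| ≤
        2 * |G (max m X0 + t ^ 2)| + 2 * |G X0| := by
      rw [abs_mul, abs_two]
      have := abs_sub (G (max m X0 + t ^ 2)) (G X0)
      linarith
    linarith
  set B : ℝ := 2 * |K| * √d + 2 * |G X0| with hB
  have hB0 : 0 ≤ B := by positivity
  set t : ℝ := (2 * |K| + B + 1) / |c| + 1 with ht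
  have ht1 : 1 ≤ t := by
    rw [ht]
    have : 0 ≤ (2 * |K| + B + 1) / |c| := by positivity
    linarith
  have k1 := key t (by linarith)
  have k2 : 2 * |K| + B + 1 ≤ |c| * t := by
    rw [ht, mul_add, mul_div_cancel₀ _ hc'.ne']
    linarith
  have k3 : (2 * |K| + B + 1) * t ≤ |c| * t * t :=
    mul_le_mul_of_nonneg_right k2 (by linarith)
  have k4 : B ≤ B * t := by nlinarith
  nlinarith

end COR_

theorem p_COR : T_COR := by
  intro hWIN hLOW hJCT hIRR hCST hBIG hINT hREG hSUB hFUB hGBD α β V V1 w u g hP hg hb s0 hs0 E hE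
    hq
  obtain ⟨hreg, c, hc⟩ :=
    hREG hWIN hLOW hJCT hIRR hCST hBIG hINT α β V V1 w u g hP hg s0 hs0 E hE hq
  have hsub := hSUB hWIN α β V V1 w u hP s0 hs0 hreg
  obtain ⟨hex, -, -⟩ := hWIN α β V V1 w u hP s0 hs0
  have hfub := hFUB α β V V1 w u g hP hg hb
  obtain ⟨K, m, hK⟩ := hGBD α β V V1 w u g hP hg hb
  have hin : ∀ x, V s0 < x →
      (∫ s in {s | s ∈ Ioo α β ∧ V s < x}, g s / √(w s * (x - V s))) = c := by
    intro x hx
    obtain ⟨a, b, hab⟩ := hex x hx
    have hset : {s | s ∈ Ioo α β ∧ V s < x} = Ioo a b := by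
      ext s
      constructor
      · rintro ⟨h1, h2⟩
        exact hsub x a b hab s h1 h2
      · intro h
        exact ⟨⟨hab.ha.trans h.1, h.2.trans hab.hb⟩, hab.lt s h⟩
    rw [hset, ← integral_Ioc_eq_integral_Ioo,
      ← intervalIntegral.integral_of_le (hab.as.trans hab.sb).le]
    exact hc x a b hab
  have hlin : ∀ X, V s0 ≤ X →
      2 * (GG α β V w g X - GG α β V w g (V s0)) = c * (X - V s0) := by
    intro X hX
    rw [← hfub (V s0) X hX, intervalIntegral.integral_of_le hX,
      setIntegral_congr_fun measurableSet_Ioc (fun x hx => hin x hx.1),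
      ← intervalIntegral.integral_of_le hX, intervalIntegral.integral_const, smul_eq_mul, mul_comm]
  have hc0 : c = 0 := COR_.zero_of_bound hlin hK
  intro X hX
  have := hlin X hX
  rw [hc0, zero_mul] at this
  linarith

end Pool.Agent.USP
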