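import Pool.Agent.USP.Targets

set_option autoImplicit false

open Set Filter Topology MeasureTheory
open scoped ContDiff

namespace Pool.Agent.USP
open Pool.Agent.MSup

namespace CST_

/-- A preconnected countable set of reals has at most one element. -/
theorem sub {S : Set ℝ} (hc : S.Countable) (hp : IsPreconnected S) {x y : ℝ} (hx : x ∈ S)
    (hy : y ∈ S) : x = y := by
  by_contra hne
  wlog hlt : x < y generalizing x y
  · exact this hy hx (Ne.symm hne) (lt_of_le_of_ne (not_lt.1 hlt) (Ne.symm hne))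
  have h1 : Icc x y ⊆ S := hp.Icc_subset hx hy
  have h2 : (Icc x y).Countable := hc.mono h1
  have h3 := (Cardinal.mk_Icc_real hlt)
  have h4 := h2.le_aleph0
  rw [h3] at h4
  exact absurd h4 (not_le.2 Cardinal.aleph0_lt_continuum)

end CST_

open CST_ in
theorem p_CST : T_CST := by
  intro X1 f E hE hf hq
  refine ⟨f (X1 + 1), fun x hx => ?_⟩
  have hp : IsPreconnected (f '' Ioi X1) := isPreconnected_Ioi.image f hf
  have hc : (f '' Ioi X1).Countable := by
    refine Set.Countable.mono (s₂ := range (fun q : ℚ => (q : ℝ) * Real.pi) ∪ f '' E) ?_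
      ((countable_range _).union (hE.countable.image f))
    rintro _ ⟨y, hy, rfl⟩
    by_cases h : y ∈ E
    · exact Or.inr ⟨y, h, rfl⟩
    · obtain ⟨q, h1⟩ := hq y hy h
      exact Or.inl ⟨q, h1.symm⟩
  exact sub hc hp ⟨x, hx, rfl⟩ ⟨X1 + 1, by simp, rfl⟩

end Pool.Agent.USP
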