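import Pool.Agent.USP.Targets

/-!
# USP: FUB, Fubini for the Abel transform
-/

set_option autoImplicit false

namespace Pool.Agent.USP

open Set MeasureTheory Filter Topology

/-- the potential is bounded below -/
theorem FUB_.lower {α β : ℝ} {V V1 w u : ℝ → ℝ} (hP : Pot α β V V1 w u) :
    ∃ m : ℝ, ∀ s ∈ Ioo α β, m ≤ V s := by
  have h1 : ∀ᶠ s in 𝓝[>] α, (0 : ℝ) ≤ V s := hP.tl.eventually_ge_atTop 0
  have h2 : ∀ᶠ s in 𝓝[<] β, (0 : ℝ) ≤ V s := hP.tr.eventually_ge_atTop 0
  obtain ⟨a, ha, ha'⟩ := mem_nhdsGT_iff_exists_Ioo_subset.1 h1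
  obtain ⟨b, hb, hb'⟩ := mem_nhdsLT_iff_exists_Ioo_subset.1 h2
  have haα : α < a := ha
  have hbβ : b < β := hb
  set a' := min a ((α + β) / 2) with ha1
  set b' := max b ((α + β) / 2) with hb1
  have hlt := hP.lt
  have haa : α < a' := lt_min haα (by linarith)
  have hbb : b' < β := max_lt hbβ (by linarith)
  have hab : a' ≤ b' := (min_le_right _ _).trans (le_max_right _ _)
  have hsub : Icc a' b' ⊆ Ioo α β := fun s hs => ⟨haa.trans_le hs.1, hs.2.trans_lt hbb⟩
  have hc : ContinuousOn V (Icc a' b') := fun s hs =>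
    (hP.dV s (hsub hs)).continuousAt.continuousWithinAt
  obtain ⟨s0, -, hs0⟩ := isCompact_Icc.exists_isMinOn (nonempty_Icc.2 hab) hc
  refine ⟨min 0 (V s0), fun s hs => ?_⟩
  by_cases h3 : s < a'
  · exact (min_le_left _ _).trans (ha' ⟨hs.1, h3.trans_le (min_le_left _ _)⟩)
  · by_cases h4 : b' < s
    · exact (min_le_left _ _).trans (hb' ⟨(le_max_left _ _).trans_lt h4, hs.2⟩)
    · exact (min_le_right _ _).trans (hs0 ⟨not_lt.1 h3, not_lt.1 h4⟩)

theorem FUB_.inv_int (A B : ℝ) (hAB : A ≤ B) :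
    IntervalIntegrable (fun y : ℝ => (√y)⁻¹) volume A B := by
  have h1 : IntervalIntegrable (fun y : ℝ => y ^ (-(1 / 2) : ℝ)) volume A B :=
    intervalIntegral.intervalIntegrable_rpow' (by norm_num)
  rw [intervalIntegrable_iff_integrableOn_Ioc_of_le hAB] at h1 ⊢
  refine (h1.indicator (measurableSet_Ioi (a := (0 : ℝ)))).congr (Eventually.of_forall fun y => ?_)
  by_cases hy : 0 < y
  · rw [indicator_of_mem (show y ∈ Ioi (0 : ℝ) from hy)]
    simp only
    rw [Real.rpow_neg hy.le, Real.sqrt_eq_rpow]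
  · rw [indicator_of_notMem (show y ∉ Ioi (0 : ℝ) from hy)]
    simp only
    rw [Real.sqrt_eq_zero_of_nonpos (not_lt.1 hy), inv_zero]

theorem FUB_.inv_val (A B : ℝ) (hAB : A ≤ B) :
    ∫ y in A..B, (√y)⁻¹ = 2 * √B - 2 * √A := by
  refine MeasureTheory.integral_eq_of_hasDerivAt_off_countable_of_le
    (fun y => 2 * √y) (fun y => (√y)⁻¹) hAB (countable_singleton 0)
    (by fun_prop) (fun y hy => ?_) (FUB_.inv_int A B hAB)
  have hy0 : y ≠ 0 := hy.2
  have h1 := (Real.hasDerivAt_sqrt hy0).const_mul 2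
  refine h1.congr_deriv ?_
  rw [one_div, mul_inv]
  ring

/-- the integral over the level -/
theorem FUB_.level (c w v X0 X : ℝ) (hw : 0 < w) (hX : X0 ≤ X) :
    IntegrableOn (fun x => c / √(w * (x - v))) (Ioc X0 X) ∧
    ∫ x in Ioc X0 X, c / √(w * (x - v)) =
      2 * (c * √(max (X - v) 0) / √w - c * √(max (X0 - v) 0) / √w) := by
  have e0 : ∀ y : ℝ, √(max y 0) = √y := by
    intro y
    rcases le_total 0 y with h | h
    · rw [max_eq_left h]
    · rw [max_eq_right h, Real.sqrt_zero, Real.sqrt_eq_zero_of_nonpos h]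
  have e1 : ∀ x : ℝ, c / √(w * (x - v)) = (c / √w) * (√(x - v))⁻¹ := by
    intro x
    rw [Real.sqrt_mul hw.le, div_mul_eq_div_div, div_eq_mul_inv (c / √w)]
  have h1 : IntervalIntegrable (fun x : ℝ => (√(x - v))⁻¹) volume X0 X := by
    have h2 := (FUB_.inv_int (X0 - v) (X - v) (by linarith)).comp_sub_right v
    simpa using h2
  simp only [e1, e0]
  constructor
  · exact ((intervalIntegrable_iff_integrableOn_Ioc_of_le hX).1 h1).const_mul _
  · rw [← intervalIntegral.integral_of_le hX, intervalIntegral.integral_const_mul,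
      intervalIntegral.integral_comp_sub_right (fun y => (√y)⁻¹) v,
      FUB_.inv_val _ _ (by linarith)]
    ring

theorem p_FUB : T_FUB := by
  intro α β V V1 w u g hP hg hgb X0 X hX
  obtain ⟨C, hC⟩ := hgb
  obtain ⟨m, hm⟩ := FUB_.lower hP
  obtain ⟨s0, hs0, hs0'⟩ := isCompact_Icc.exists_isMinOn (nonempty_Icc.2 hP.lt.le) hP.cw
  have hw0 : 0 < w s0 := hP.pw s0 hs0
  have hwl : ∀ s ∈ Ioo α β, w s0 ≤ w s := fun s hs => hs0' (Ioo_subset_Icc_self hs)
  have hwp : ∀ s ∈ Ioo α β, 0 < w s := fun s hs => hP.pw s (Ioo_subset_Icc_self hs)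
  have hVc : ContinuousOn V (Ioo α β) := fun s hs =>
    (hP.dV s hs).continuousAt.continuousWithinAt
  have hwc : ContinuousOn w (Ioo α β) := hP.cw.mono Ioo_subset_Icc_self
  have hC0 : 0 ≤ C := by
    have hne : (α + β) / 2 ∈ Ioo α β := ⟨by linarith [hP.lt], by linarith [hP.lt]⟩
    exact (abs_nonneg _).trans (hC _ hne)
  -- the Abel transforms are integrable
  have hGI : ∀ (f : ℝ → ℝ), ContinuousOn f (Ioo α β) → (∀ s ∈ Ioo α β, |f s| ≤ C) → ∀ Y : ℝ,
      IntegrableOn (fun s => f s * √(max (Y - V s) 0) / √(w s)) (Ioo α β) := by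
    intro f hf hfC Y
    refine IntegrableOn.of_bound (measure_Ioo_lt_top (μ := (volume : Measure ℝ))) ?_
      (C * √(max (Y - m) 0) / √(w s0)) ?_
    · refine ContinuousOn.aestronglyMeasurable ?_ measurableSet_Ioo
      refine ContinuousOn.div (hf.mul ?_) hwc.sqrt (fun s hs => ?_)
      · have h1 : ContinuousOn (fun s => Y - V s) (Ioo α β) := continuousOn_const.sub hVc
        have h2 : ContinuousOn (fun _ : ℝ => (0 : ℝ)) (Ioo α β) := continuousOn_const
        exact (ContinuousOn.sup h1 h2).sqrt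
      · exact (Real.sqrt_pos.2 (hwp s hs)).ne'
    · refine (ae_restrict_iff' measurableSet_Ioo).2 (Eventually.of_forall fun s hs => ?_)
      rw [Real.norm_eq_abs, abs_div, abs_mul, abs_of_nonneg (Real.sqrt_nonneg _),
        abs_of_nonneg (Real.sqrt_nonneg _)]
      have h1 : √(max (Y - V s) 0) ≤ √(max (Y - m) 0) :=
        Real.sqrt_le_sqrt (max_le_max (by linarith [hm s hs]) le_rfl)
      have h2 : √(w s0) ≤ √(w s) := Real.sqrt_le_sqrt (hwl s hs)
      have h3 : 0 < √(w s0) := Real.sqrt_pos.2 hw0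
      exact div_le_div₀ (by positivity) (mul_le_mul (hfC s hs) h1 (Real.sqrt_nonneg _) hC0)
        h3 h2
  -- removal of the indicator
  have hin : ∀ x : ℝ, (∫ s in {s | s ∈ Ioo α β ∧ V s < x}, g s / √(w s * (x - V s))) =
      ∫ s in Ioo α β, g s / √(w s * (x - V s)) := by
    intro x
    refine (setIntegral_eq_of_subset_of_forall_sdiff_eq_zero measurableSet_Ioo
      (fun s hs => hs.1) (fun s hs => ?_)).symm
    have h1 : x - V s ≤ 0 := by
      by_contra hcon
      exact hs.2 ⟨hs.1, by linarith [not_le.1 hcon]⟩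
    rw [Real.sqrt_eq_zero_of_nonpos (mul_nonpos_of_nonneg_of_nonpos (hwp s hs.1).le h1),
      div_zero]
  simp only [hin]
  rw [intervalIntegral.integral_of_le hX]
  -- measurability on the product
  set μ := (volume : Measure ℝ).restrict (Ioc X0 X) with hμ
  set ν := (volume : Measure ℝ).restrict (Ioo α β) with hν
  have mg : AEMeasurable g ν := hg.aemeasurable measurableSet_Ioo
  have mw : AEMeasurable w ν := hwc.aemeasurable measurableSet_Ioo
  have mV : AEMeasurable V ν := hVc.aemeasurable measurableSet_Ioo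
  have hF : AEStronglyMeasurable (Function.uncurry fun x s => g s / √(w s * (x - V s)))
      (μ.prod ν) := by
    refine AEMeasurable.aestronglyMeasurable ?_
    have m1 : AEMeasurable (fun p : ℝ × ℝ => g p.2) (μ.prod ν) :=
      mg.comp_quasiMeasurePreserving Measure.quasiMeasurePreserving_snd
    have m2 : AEMeasurable (fun p : ℝ × ℝ => w p.2) (μ.prod ν) :=
      mw.comp_quasiMeasurePreserving Measure.quasiMeasurePreserving_snd
    have m3 : AEMeasurable (fun p : ℝ × ℝ => V p.2) (μ.prod ν) :=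
      mV.comp_quasiMeasurePreserving Measure.quasiMeasurePreserving_snd
    have m4 : AEMeasurable (fun p : ℝ × ℝ => p.1) (μ.prod ν) := measurable_fst.aemeasurable
    exact m1.div (m2.mul (m4.sub m3)).sqrt
  have hFI : Integrable (Function.uncurry fun x s => g s / √(w s * (x - V s))) (μ.prod ν) := by
    rw [integrable_prod_iff' hF]
    constructor
    · refine (ae_restrict_iff' measurableSet_Ioo).2 (Eventually.of_forall fun s hs => ?_)
      exact (FUB_.level (g s) (w s) (V s) X0 X (hwp s hs) hX).1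
    · have h1 : IntegrableOn (fun s => 2 * (|g s| * √(max (X - V s) 0) / √(w s) -
          |g s| * √(max (X0 - V s) 0) / √(w s))) (Ioo α β) :=
        ((hGI (fun s => |g s|) hg.abs (fun s hs => by rw [abs_abs]; exact hC s hs) X).sub
          (hGI (fun s => |g s|) hg.abs (fun s hs => by rw [abs_abs]; exact hC s hs)
            X0)).const_mul 2
      refine h1.congr ((ae_restrict_iff' measurableSet_Ioo).2
        (Eventually.of_forall fun s hs => ?_))
      have h2 := (FUB_.level |g s| (w s) (V s) X0 X (hwp s hs) hX).2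
      simp only []
      rw [← h2]
      refine integral_congr_ae (Eventually.of_forall fun x => ?_)
      simp only [Function.uncurry_apply_pair]
      rw [Real.norm_eq_abs, abs_div, abs_of_nonneg (Real.sqrt_nonneg _)]
  rw [integral_integral_swap hFI]
  have hval : ∫ s, (∫ x, g s / √(w s * (x - V s)) ∂μ) ∂ν =
      ∫ s in Ioo α β, 2 * (g s * √(max (X - V s) 0) / √(w s) -
        g s * √(max (X0 - V s) 0) / √(w s)) := by
    refine setIntegral_congr_fun measurableSet_Ioo fun s hs => ?_
    exact (FUB_.level (g s) (w s) (V s) X0 X (hwp s hs) hX).2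
  rw [hval, integral_const_mul, integral_sub (hGI g hg hC X) (hGI g hg hC X0)]
  unfold GG
  rw [intervalIntegral.integral_of_le hP.lt.le, intervalIntegral.integral_of_le hP.lt.le,
    integral_Ioc_eq_integral_Ioo, integral_Ioc_eq_integral_Ioo]

end Pool.Agent.USP
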