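import Pool.Agent.USP.Targets

/-!
# USP-GBD: a bound of the Abel transform
-/

set_option autoImplicit false

open Set Filter Topology MeasureTheory
open scoped ContDiff

namespace Pool.Agent.USP
open Pool.Agent.MSup

namespace GBD_

/-- a function with walls at both ends is bounded below -/
theorem bddBelow {α β : ℝ} {V : ℝ → ℝ} (hab : α < β) (hc : ContinuousOn V (Ioo α β))
    (tl : Tendsto V (𝓝[>] α) atTop) (tr : Tendsto V (𝓝[<] β) atTop) :
    ∃ m : ℝ, ∀ s ∈ Ioo α β, m ≤ V s := by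
  obtain ⟨u, hu, hu'⟩ := mem_nhdsGT_iff_exists_Ioo_subset.1 (tl.eventually_ge_atTop 0)
  obtain ⟨l, hl, hl'⟩ := mem_nhdsLT_iff_exists_Ioo_subset.1 (tr.eventually_ge_atTop 0)
  have hu0 : α < u := hu
  have hl0 : l < β := hl
  set u' : ℝ := min u ((α + β) / 2) with hu1
  set l' : ℝ := max l ((α + β) / 2) with hl1
  have h1 : α < u' := lt_min hu0 (by linarith)
  have h2 : l' < β := max_lt hl0 (by linarith)
  have h3 : u' < β := (min_le_right _ _).trans_lt (by linarith)
  have h4 : α < l' := lt_of_lt_of_le (by linarith) (le_max_right _ _)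
  have hsub : Icc u' l' ⊆ Ioo α β := fun s hs =>
    ⟨lt_of_lt_of_le h1 hs.1, lt_of_le_of_lt hs.2 h2⟩
  obtain ⟨m, hm⟩ := (isCompact_Icc.bddBelow_image (hc.mono hsub))
  refine ⟨min m 0, fun s hs => ?_⟩
  rcases lt_or_ge s u' with h | h
  · exact (min_le_right _ _).trans (hu' ⟨hs.1, h.trans_le (min_le_left _ _)⟩)
  rcases lt_or_ge l' s with h' | h'
  · exact (min_le_right _ _).trans (hl' ⟨lt_of_le_of_lt (le_max_left _ _) h', hs.2⟩)
  · exact (min_le_left _ _).trans (hm ⟨s, ⟨h, h'⟩, rfl⟩)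

end GBD_

theorem p_GBD : T_GBD := by
  intro α β V V1 w u g hP hg hgb
  obtain ⟨C, hC⟩ := hgb
  have hVc : ContinuousOn V (Ioo α β) := fun s hs =>
    (hP.dV s hs).continuousAt.continuousWithinAt
  obtain ⟨m, hm⟩ := GBD_.bddBelow hP.lt hVc hP.tl hP.tr
  obtain ⟨s1, hs1, hmin⟩ := isCompact_Icc.exists_isMinOn (nonempty_Icc.2 hP.lt.le) hP.cw
  have hw1 : 0 < w s1 := hP.pw s1 hs1
  have hC0 : 0 ≤ C := by
    have h1 : (α + β) / 2 ∈ Ioo α β := by
      have := hP.lt
      constructor <;> linarith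
    exact (abs_nonneg _).trans (hC _ h1)
  refine ⟨C / √(w s1) * (β - α), m, fun X => ?_⟩
  have hae : ∀ᵐ s ∂(volume : Measure ℝ), s ∈ Set.uIoc α β →
      ‖g s * √(max (X - V s) 0) / √(w s)‖ ≤ C / √(w s1) * √(max (X - m) 0) := by
    have hne : ∀ᵐ s ∂(volume : Measure ℝ), s ≠ β := by
      simp [ae_iff, measure_singleton]
    filter_upwards [hne] with s hsβ hs
    rw [uIoc_of_le hP.lt.le] at hs
    have hs' : s ∈ Ioo α β := ⟨hs.1, lt_of_le_of_ne hs.2 hsβ⟩
    have h1 : w s1 ≤ w s := hmin (Ioo_subset_Icc_self hs')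
    have h2 : √(w s1) ≤ √(w s) := Real.sqrt_le_sqrt h1
    have h3 : √(max (X - V s) 0) ≤ √(max (X - m) 0) :=
      Real.sqrt_le_sqrt (max_le_max (by linarith [hm s hs']) le_rfl)
    have h4 : 0 < √(w s1) := Real.sqrt_pos.2 hw1
    rw [Real.norm_eq_abs, abs_div, abs_mul, abs_of_nonneg (Real.sqrt_nonneg (max (X - V s) 0)),
      abs_of_nonneg (Real.sqrt_nonneg (w s))]
    calc |g s| * √(max (X - V s) 0) / √(w s) ≤ C * √(max (X - m) 0) / √(w s1) := by
          refine div_le_div₀ (by positivity) ?_ h4 h2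
          exact mul_le_mul (hC s hs') h3 (Real.sqrt_nonneg _) hC0
      _ = _ := by ring
  have h := intervalIntegral.norm_integral_le_of_norm_le_const_ae hae
  rw [Real.norm_eq_abs, abs_of_pos (by linarith [hP.lt] : (0 : ℝ) < β - α)] at h
  calc |GG α β V w g X| ≤ C / √(w s1) * √(max (X - m) 0) * (β - α) := h
    _ = _ := by ring

end Pool.Agent.USP
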