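import Pool.Agent.USP.Targets

set_option autoImplicit false

open Set Filter Topology MeasureTheory
open scoped ContDiff

namespace Pool.Agent.USP
open Pool.Agent.MSup

namespace INT_

theorem left {a b X V1 : ℝ} {V : ℝ → ℝ} (hab : a < b) (hVa : V a = X)
    (hlt : ∀ s ∈ Ioo a b, V s < X) (hd : HasDerivAt V V1 a) (h0 : V1 ≠ 0) :
    ∃ c u : ℝ, 0 < c ∧ a < u ∧ ∀ s ∈ Ioo a u, c * (s - a) ≤ X - V s := by
  have ht : Tendsto (slope V a) (𝓝[>] a) (𝓝 V1) :=
    (hasDerivAt_iff_tendsto_slope.1 hd).mono_left (nhdsGT_le_nhdsNE a)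
  have hle : V1 ≤ 0 := by
    refine le_of_tendsto ht ?_
    filter_upwards [Ioo_mem_nhdsGT hab] with s hs
    rw [slope_def_field, hVa]
    exact div_nonpos_of_nonpos_of_nonneg (by linarith [hlt s hs]) (by linarith [hs.1])
  have hneg : V1 < 0 := lt_of_le_of_ne hle h0
  have hev : ∀ᶠ s in 𝓝[>] a, slope V a s < V1 / 2 :=
    ht.eventually_lt_const (by linarith)
  obtain ⟨u, hu, hsub⟩ := (mem_nhdsGT_iff_exists_Ioo_subset).1 hev
  refine ⟨-V1 / 2, u, by linarith, hu, fun s hs => ?_⟩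
  have h1 : slope V a s < V1 / 2 := hsub hs
  have h2 : 0 < s - a := by linarith [hs.1]
  rw [slope_def_field, div_lt_iff₀ h2, hVa] at h1
  linarith

theorem right {a b X V1 : ℝ} {V : ℝ → ℝ} (hab : a < b) (hVb : V b = X)
    (hlt : ∀ s ∈ Ioo a b, V s < X) (hd : HasDerivAt V V1 b) (h0 : V1 ≠ 0) :
    ∃ c u : ℝ, 0 < c ∧ u < b ∧ ∀ s ∈ Ioo u b, c * (b - s) ≤ X - V s := by
  have ht : Tendsto (slope V b) (𝓝[<] b) (𝓝 V1) :=
    (hasDerivAt_iff_tendsto_slope.1 hd).mono_left (nhdsLT_le_nhdsNE b)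
  have hle : 0 ≤ V1 := by
    refine ge_of_tendsto ht ?_
    filter_upwards [Ioo_mem_nhdsLT hab] with s hs
    rw [slope_def_field, hVb]
    exact div_nonneg_of_nonpos (by linarith [hlt s hs]) (by linarith [hs.2])
  have hpos : 0 < V1 := lt_of_le_of_ne hle (Ne.symm h0)
  have hev : ∀ᶠ s in 𝓝[<] b, V1 / 2 < slope V b s :=
    ht.eventually_const_lt (by linarith)
  obtain ⟨u, hu, hsub⟩ := (mem_nhdsLT_iff_exists_Ioo_subset).1 hev
  refine ⟨V1 / 2, u, by linarith, hu, fun s hs => ?_⟩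
  have h1 : V1 / 2 < slope V b s := hsub hs
  have h2 : s - b < 0 := by linarith [hs.2]
  rw [slope_def_field, lt_div_iff_of_neg h2, hVb] at h1
  linarith

theorem inv_int (a b : ℝ) (hab : a < b) :
    IntegrableOn (fun x => (x - a) ^ (-(1 / 2) : ℝ) + (b - x) ^ (-(1 / 2) : ℝ)) (Ioo a b) := by
  have h1 : IntervalIntegrable (fun x => (x - a) ^ (-(1 / 2) : ℝ)) volume a b := by
    have h := (intervalIntegral.intervalIntegrable_rpow' (a := 0) (b := b - a)
      (r := -(1 / 2)) (by norm_num)).comp_sub_right a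
    simpa using h
  have h2 : IntervalIntegrable (fun x => (b - x) ^ (-(1 / 2) : ℝ)) volume a b := by
    have h := (intervalIntegral.intervalIntegrable_rpow' (a := 0) (b := b - a)
      (r := -(1 / 2)) (by norm_num)).comp_sub_left b
    have h3 := h.symm
    simpa using h3
  exact (intervalIntegrable_iff_integrableOn_Ioo_of_le hab.le).1 (h1.add h2)

theorem key {u v : ℝ} (hu : 0 < u) (hv : 0 < v) :
    1 / √(u * v) ≤ (u ^ (-(1 / 2) : ℝ) + v ^ (-(1 / 2) : ℝ)) / √(u + v) := by
  have su := Real.sqrt_pos.2 hu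
  have sv := Real.sqrt_pos.2 hv
  have suv : 0 < √(u + v) := Real.sqrt_pos.2 (by linarith)
  have e1 : u ^ (-(1 / 2) : ℝ) = 1 / √u := by
    rw [Real.rpow_neg hu.le, ← Real.sqrt_eq_rpow, one_div]
  have e2 : v ^ (-(1 / 2) : ℝ) = 1 / √v := by
    rw [Real.rpow_neg hv.le, ← Real.sqrt_eq_rpow, one_div]
  rw [e1, e2, Real.sqrt_mul hu.le]
  have h1 : √(u + v) ≤ √u + √v := by
    rw [Real.sqrt_le_iff]
    refine ⟨by positivity, ?_⟩
    nlinarith [Real.sq_sqrt hu.le, Real.sq_sqrt hv.le]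
  rw [div_le_div_iff₀ (by positivity) suv]
  have e3 : (1 / √u + 1 / √v) * (√u * √v) = √u + √v := by
    field_simp
    ring
  rw [e3, one_mul]
  exact h1

end INT_

open INT_ in
theorem p_INT : T_INT := by
  intro a b X V w g hab hV hw hg hw0 hVa hVb hlt hd1 hd2
  obtain ⟨V1, hV1, hV10⟩ := hd1
  obtain ⟨V2, hV2, hV20⟩ := hd2
  obtain ⟨c1, u1, hc1, hu1, hL⟩ := left hab hVa hlt hV1 hV10
  obtain ⟨c2, u2, hc2, hu2, hR⟩ := right hab hVb hlt hV2 hV20
  have hba : 0 < b - a := by linarith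
  have hsubK : Icc ((a + u1) / 2) ((b + u2) / 2) ⊆ Ioo a b := fun s hs =>
    ⟨by linarith [hs.1], by linarith [hs.2]⟩
  obtain ⟨m, hm0, hm⟩ := (isCompact_Icc (a := (a + u1) / 2) (b := (b + u2) / 2)).exists_forall_le'
    (f := fun s => X - V s) (a := 0)
    (continuousOn_const.sub (hV.mono (hsubK.trans Ioo_subset_Icc_self)))
    (fun s hs => by linarith [hlt s (hsubK hs)])
  have hpart1 : ∃ c : ℝ, 0 < c ∧ ∀ s ∈ Icc a b, c * ((s - a) * (b - s)) ≤ X - V s := by
    set c := min (min (c1 / (b - a)) (c2 / (b - a))) (m / (b - a) ^ 2) with hc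
    have hcpos : 0 < c := by
      rw [hc]
      exact lt_min (lt_min (by positivity) (by positivity)) (by positivity)
    have k1 : c * (b - a) ≤ c1 := by
      rw [← le_div_iff₀ hba]
      exact (min_le_left _ _).trans (min_le_left _ _)
    have k2 : c * (b - a) ≤ c2 := by
      rw [← le_div_iff₀ hba]
      exact (min_le_left _ _).trans (min_le_right _ _)
    have k3 : c * (b - a) ^ 2 ≤ m := by
      rw [← le_div_iff₀ (by positivity)]
      exact min_le_right _ _
    refine ⟨c, hcpos, fun s hs => ?_⟩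
    rcases eq_or_lt_of_le hs.1 with e | h1
    · rw [← e, hVa]
      simp
    rcases eq_or_lt_of_le hs.2 with e | h2
    · rw [e, hVb]
      simp
    have p1 : 0 < s - a := by linarith
    have p2 : 0 < b - s := by linarith
    by_cases hA : s < u1
    · have h3 := hL s ⟨h1, hA⟩
      have h4 : c * ((s - a) * (b - s)) ≤ (c * (b - a)) * (s - a) := by
        have : (s - a) * (b - s) ≤ (s - a) * (b - a) :=
          mul_le_mul_of_nonneg_left (by linarith) p1.le
        nlinarith
      nlinarith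
    by_cases hB : u2 < s
    · have h3 := hR s ⟨hB, h2⟩
      have h4 : c * ((s - a) * (b - s)) ≤ (c * (b - a)) * (b - s) := by
        have : (s - a) * (b - s) ≤ (b - a) * (b - s) :=
          mul_le_mul_of_nonneg_right (by linarith) p2.le
        nlinarith
      nlinarith
    · push Not at hA hB
      have h3 := hm s ⟨by linarith, by linarith⟩
      have h4 : (s - a) * (b - s) ≤ (b - a) ^ 2 := by
        rw [pow_two]
        exact mul_le_mul (by linarith) (by linarith) p2.le hba.le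
      have h5 : c * ((s - a) * (b - s)) ≤ c * (b - a) ^ 2 :=
        mul_le_mul_of_nonneg_left h4 hcpos.le
      linarith
  refine ⟨hpart1, ?_⟩
  obtain ⟨c, hc0, hc⟩ := hpart1
  obtain ⟨w0, hw00, hw0'⟩ := (isCompact_Icc (a := a) (b := b)).exists_forall_le' (a := 0) hw hw0
  obtain ⟨G, hG⟩ := (isCompact_Icc (a := a) (b := b)).exists_bound_of_continuousOn hg
  have hG0 : 0 ≤ G := (norm_nonneg _).trans (hG a ⟨le_refl _, hab.le⟩)
  rw [intervalIntegrable_iff_integrableOn_Ioo_of_le hab.le]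
  have hbd := (inv_int a b hab).const_mul (G / (√(w0 * c) * √(b - a)))
  refine Integrable.mono' hbd ?_ ?_
  · refine ContinuousOn.aestronglyMeasurable ?_ measurableSet_Ioo
    have hwI := hw.mono Ioo_subset_Icc_self
    have hVI := hV.mono Ioo_subset_Icc_self
    refine (hg.mono Ioo_subset_Icc_self).div
      (hwI.mul (continuousOn_const.sub hVI)).sqrt fun x hx => ?_
    have h1 := hw0 x (Ioo_subset_Icc_self hx)
    have h2 := hlt x hx
    exact (Real.sqrt_pos.2 (mul_pos h1 (by linarith))).ne'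
  · refine ae_restrict_of_forall_mem measurableSet_Ioo fun x hx => ?_
    have hxI := Ioo_subset_Icc_self hx
    have p1 : 0 < x - a := by linarith [hx.1]
    have p2 : 0 < b - x := by linarith [hx.2]
    have h1 := hw0' x hxI
    have h2 := hc x hxI
    have h3 : (w0 * c) * ((x - a) * (b - x)) ≤ w x * (X - V x) := by
      have e : (w0 * c) * ((x - a) * (b - x)) = w0 * (c * ((x - a) * (b - x))) := by ring
      rw [e]
      exact mul_le_mul h1 h2 (by positivity) (hw00.le.trans h1)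
    have h4 : √(w0 * c) * √((x - a) * (b - x)) ≤ √(w x * (X - V x)) := by
      rw [← Real.sqrt_mul (by positivity)]
      exact Real.sqrt_le_sqrt h3
    have s1 : 0 < √(w0 * c) := Real.sqrt_pos.2 (by positivity)
    have s2 : 0 < √((x - a) * (b - x)) := Real.sqrt_pos.2 (by positivity)
    have hk := key p1 p2
    have e5 : x - a + (b - x) = b - a := by ring
    rw [e5] at hk
    rw [norm_div, Real.norm_eq_abs (√_), abs_of_nonneg (Real.sqrt_nonneg _)]
    calc ‖g x‖ / √(w x * (X - V x)) ≤ G / (√(w0 * c) * √((x - a) * (b - x))) :=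
          div_le_div₀ hG0 (hG x hxI) (by positivity) h4
      _ = G / √(w0 * c) * (1 / √((x - a) * (b - x))) := by
          field_simp
      _ ≤ G / √(w0 * c) * (((x - a) ^ (-(1 / 2) : ℝ) + (b - x) ^ (-(1 / 2) : ℝ)) / √(b - a)) :=
          mul_le_mul_of_nonneg_left hk (by positivity)
      _ = G / (√(w0 * c) * √(b - a)) *
            ((x - a) ^ (-(1 / 2) : ℝ) + (b - x) ^ (-(1 / 2) : ℝ)) := by
          field_simp

end Pool.Agent.USP
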