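import Pool.Agent.USP.Targets

/-!
# At an irregular level the drift is infinite
-/

set_option autoImplicit false

open Set Filter Topology MeasureTheory
open scoped ContDiff

namespace Pool.Agent.USP

namespace IRR_

theorem eta (K r A0 : ℝ) (hK : 0 < K) (hr : 0 < r) :
    ∃ η : ℝ, 0 < η ∧ ∀ y : ℝ, 0 < y → y < η → √y < r ∧ A0 < K * Real.log (r / √y) := by
  set δ : ℝ := r * Real.exp (-((|A0| + 1) / K)) with hδ
  have hδ0 : 0 < δ := by positivity
  have hx : 0 < (|A0| + 1) / K := by positivity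
  have hδr : δ < r := by
    have h1 : Real.exp (-((|A0| + 1) / K)) < 1 := by
      rw [Real.exp_lt_one_iff]
      linarith
    calc δ < r * 1 := mul_lt_mul_of_pos_left h1 hr
      _ = r := mul_one r
  refine ⟨δ ^ 2, by positivity, fun y hy hyδ => ?_⟩
  have h1 : √y < δ := by
    have h2 := Real.sqrt_lt_sqrt hy.le hyδ
    rwa [Real.sqrt_sq hδ0.le] at h2
  have hsy : 0 < √y := Real.sqrt_pos.mpr hy
  refine ⟨h1.trans hδr, ?_⟩
  have h2 : Real.exp ((|A0| + 1) / K) < r / √y := by
    have h3 : r / δ < r / √y := div_lt_div_of_pos_left hr hsy h1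
    have h4 : r / δ = Real.exp ((|A0| + 1) / K) := by
      rw [hδ, Real.exp_neg]
      field_simp
    rwa [h4] at h3
  have h3 : (|A0| + 1) / K < Real.log (r / √y) := by
    rw [Real.lt_log_iff_exp_lt (by positivity)]
    exact h2
  have h4 : |A0| + 1 < K * Real.log (r / √y) := by
    rw [div_lt_iff₀ hK] at h3
    linarith
  have := le_abs_self A0
  linarith

theorem quad (V V1 : ℝ → ℝ) (e : ℝ) (hd : ∀ᶠ s in 𝓝 e, HasDerivAt V (V1 s) s)
    (hd1 : DifferentiableAt ℝ V1 e) (h0 : V1 e = 0) :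
    ∃ C r : ℝ, 0 < C ∧ 0 < r ∧ ∀ s : ℝ, |s - e| ≤ r → V e - V s ≤ C * (s - e) ^ 2 := by
  have hO := hd1.isBigO_sub
  obtain ⟨C, hC, hCb⟩ := hO.exists_pos
  rw [Asymptotics.isBigOWith_iff] at hCb
  obtain ⟨r, hr, hrb⟩ := Metric.eventually_nhds_iff.mp (hd.and hCb)
  refine ⟨C, r / 2, hC, by positivity, fun s hs => ?_⟩
  have hconv : Convex ℝ (Metric.closedBall e |s - e|) := convex_closedBall _ _
  have key := hconv.norm_image_sub_le_of_norm_hasDerivWithin_le (f := V) (f' := V1)
    (C := C * |s - e|) (x := e) (y := s) ?_ ?_ ?_ ?_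
  · have h1 : V e - V s ≤ |V s - V e| := by
      rw [abs_sub_comm]
      exact le_abs_self _
    have h2 : |V s - V e| ≤ C * |s - e| * |s - e| := key
    calc V e - V s ≤ C * |s - e| * |s - e| := h1.trans h2
      _ = C * (s - e) ^ 2 := by rw [← sq_abs (s - e)]; ring
  · intro x hx
    have hx' : dist x e < r := by
      have := Metric.mem_closedBall.mp hx
      linarith
    exact (hrb hx').1.hasDerivWithinAt
  · intro x hx
    have hx1 := Metric.mem_closedBall.mp hx
    have hx' : dist x e < r := by linarith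
    have h1 := (hrb hx').2
    rw [h0, sub_zero, Real.norm_eq_abs (x - e), ← Real.dist_eq] at h1
    exact h1.trans (mul_le_mul_of_nonneg_left hx1 hC.le)
  · rw [Metric.mem_closedBall, dist_self]
    exact abs_nonneg _
  · rw [Metric.mem_closedBall, Real.dist_eq]

theorem low (w u V : ℝ → ℝ) (M C u0 X y e s : ℝ) (hM : 0 < M) (hC : 0 < C) (hu0 : 0 < u0)
    (hw : 0 < w s) (hwM : w s ≤ M) (hu : u0 ≤ u s) (hX : 0 < X - V s)
    (hy : 0 < y) (hXy : X - V s ≤ y + C * (s - e) ^ 2) (hys : √y ≤ |s - e|) :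
    u0 / √(M * (1 + C)) * |s - e|⁻¹ ≤ u s / √(w s * (X - V s)) := by
  have hsy : 0 < √y := Real.sqrt_pos.mpr hy
  have hx : 0 < |s - e| := hsy.trans_le hys
  have hy2 : y ≤ (s - e) ^ 2 := by
    have h1 : y = √y ^ 2 := (Real.sq_sqrt hy.le).symm
    rw [h1, ← sq_abs (s - e)]
    exact pow_le_pow_left₀ hsy.le hys 2
  have h1 : w s * (X - V s) ≤ (M * (1 + C)) * (s - e) ^ 2 := by
    calc w s * (X - V s) ≤ M * ((s - e) ^ 2 + C * (s - e) ^ 2) := by
          apply mul_le_mul hwM (by linarith) hX.le hM.le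
      _ = (M * (1 + C)) * (s - e) ^ 2 := by ring
  have h2 : √(w s * (X - V s)) ≤ √(M * (1 + C)) * |s - e| := by
    have h3 := Real.sqrt_le_sqrt h1
    have h4 : √((M * (1 + C)) * (s - e) ^ 2) = √(M * (1 + C)) * |s - e| := by
      rw [Real.sqrt_mul (by positivity), Real.sqrt_sq_eq_abs]
    rwa [h4] at h3
  have h3 : 0 < √(w s * (X - V s)) := Real.sqrt_pos.mpr (mul_pos hw hX)
  have h4 : u0 / √(M * (1 + C)) * |s - e|⁻¹ = u0 / (√(M * (1 + C)) * |s - e|) := by
    rw [div_mul_eq_div_div, div_eq_mul_inv (u0 / √(M * (1 + C)))]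
  rw [h4]
  exact div_le_div₀ (hu0.le.trans hu) hu h3 h2

end IRR_

open IRR_ in
theorem p_IRR : T_IRR := by
  intro hwin α β V V1 w u hP s0 X1 a1 b1 hW1 hor A0
  obtain ⟨u0, hu0, hu⟩ := hP.pu
  have hs0 : s0 ∈ Ioo α β := ⟨hW1.ha.trans hW1.as, hW1.sb.trans hW1.hb⟩
  obtain ⟨-, hmono, -⟩ := hwin α β V V1 w u hP s0 hs0
  obtain ⟨M', hM'⟩ := isCompact_Icc.exists_bound_of_continuousOn hP.cw
  set M : ℝ := max M' 1 with hMdef
  have hM : 0 < M := lt_of_lt_of_le one_pos (le_max_right _ _)
  have hwM : ∀ s ∈ Ioo α β, w s ≤ M := fun s hs =>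
    ((le_abs_self _).trans (hM' s (Ioo_subset_Icc_self hs))).trans (le_max_left _ _)
  have hwp : ∀ s ∈ Ioo α β, 0 < w s := fun s hs => hP.pw s (Ioo_subset_Icc_self hs)
  -- the part of the integral over a subinterval
  have hsub : ∀ X a b p q : ℝ, Win α β V s0 X a b → a ≤ p → p ≤ q → q ≤ b →
      IntervalIntegrable (fun x => u x / √(w x * (X - V x))) volume a b →
      ∫ x in p..q, u x / √(w x * (X - V x)) ≤ JJ V w u X a b := by
    intro X a b p q hW hap hpq hqb hint
    unfold JJ
    refine intervalIntegral.integral_mono_interval hap hpq hqb ?_ hint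
    refine (ae_restrict_iff' measurableSet_Ioc).mpr (Eventually.of_forall fun x hx => ?_)
    have hxI : x ∈ Ioo α β := ⟨hW.ha.trans hx.1, lt_of_le_of_lt hx.2 hW.hb⟩
    exact div_nonneg (hu0.le.trans (hu x hxI)) (Real.sqrt_nonneg _)
  rcases hor with h0 | h0
  · -- the left end
    have hmem : a1 ∈ Ioo α β := ⟨hW1.ha, hW1.as.trans hs0.2⟩
    have hd : ∀ᶠ s in 𝓝 a1, HasDerivAt V (V1 s) s := by
      filter_upwards [Ioo_mem_nhds hmem.1 hmem.2] with s hs
      exact hP.dV s hs
    obtain ⟨C, r0, hC, hr0, hq⟩ := quad V V1 a1 hd (hP.dV1 a1 hmem) h0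
    set r : ℝ := min r0 (s0 - a1) with hr
    have hrpos : 0 < r := lt_min hr0 (sub_pos.mpr hW1.as)
    have hK : 0 < u0 / √(M * (1 + C)) := by positivity
    obtain ⟨η, hη, hηb⟩ := eta (u0 / √(M * (1 + C))) r A0 hK hrpos
    refine ⟨η, hη, fun X a b hX1 hX2 hW hint => ?_⟩
    have hy : 0 < X - X1 := by linarith
    obtain ⟨hyr, hA⟩ := hηb (X - X1) hy (by linarith)
    obtain ⟨ha, hb⟩ := hmono X1 X a1 b1 a b hX1 hW1 hW
    have hsy : 0 < √(X - X1) := Real.sqrt_pos.mpr hy
    have hrs : r ≤ s0 - a1 := min_le_right _ _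
    have h1 := hsub X a b (a1 + √(X - X1)) (a1 + r) hW (by linarith) (by linarith)
      (by linarith [hW.sb]) hint
    refine lt_of_lt_of_le ?_ h1
    have h2 : ∫ x in (a1 + √(X - X1))..(a1 + r), u0 / √(M * (1 + C)) * (x - a1)⁻¹ =
        u0 / √(M * (1 + C)) * Real.log (r / √(X - X1)) := by
      rw [intervalIntegral.integral_const_mul]
      congr 1
      rw [intervalIntegral.integral_comp_sub_right (fun x => x⁻¹) a1]
      rw [add_sub_cancel_left, add_sub_cancel_left]
      exact integral_inv_of_pos hsy hrpos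
    rw [← h2] at hA
    refine lt_of_lt_of_le hA ?_
    refine intervalIntegral.integral_mono_on (by linarith) ?_ ?_ ?_
    · refine ContinuousOn.intervalIntegrable ?_
      refine continuousOn_const.mul (ContinuousOn.inv₀ (by fun_prop) ?_)
      intro x hx
      rw [uIcc_of_le (by linarith)] at hx
      have := hx.1
      exact ne_of_gt (by linarith)
    · refine hint.mono_set ?_
      rw [uIcc_of_le (by linarith), uIcc_of_le (by linarith [hW.as, hW.sb])]
      exact Icc_subset_Icc (by linarith) (by linarith [hW.sb])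
    · intro x hx
      have hx1 := hx.1
      have hx2 := hx.2
      have hxa : 0 < x - a1 := by linarith
      have hxs : x ≤ s0 := by linarith
      have hxI : x ∈ Ioo α β := ⟨by linarith [hW1.ha], by linarith [hs0.2]⟩
      have habs : |x - a1| = x - a1 := abs_of_pos hxa
      have hxX : 0 < X - V x := sub_pos.mpr (hW.lt x ⟨by linarith, by linarith [hW.sb]⟩)
      have hqx := hq x (by rw [habs]; linarith [min_le_left r0 (s0 - a1)])
      rw [hW1.Va] at hqx
      have := low w u V M C u0 X (X - X1) a1 x hM hC hu0 (hwp x hxI) (hwM x hxI) (hu x hxI) hxX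
        hy (by linarith) (by rw [habs]; linarith)
      rwa [habs] at this
  · -- the right end
    have hmem : b1 ∈ Ioo α β := ⟨hs0.1.trans hW1.sb, hW1.hb⟩
    have hd : ∀ᶠ s in 𝓝 b1, HasDerivAt V (V1 s) s := by
      filter_upwards [Ioo_mem_nhds hmem.1 hmem.2] with s hs
      exact hP.dV s hs
    obtain ⟨C, r0, hC, hr0, hq⟩ := quad V V1 b1 hd (hP.dV1 b1 hmem) h0
    set r : ℝ := min r0 (b1 - s0) with hr
    have hrpos : 0 < r := lt_min hr0 (sub_pos.mpr hW1.sb)
    have hK : 0 < u0 / √(M * (1 + C)) := by positivity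
    obtain ⟨η, hη, hηb⟩ := eta (u0 / √(M * (1 + C))) r A0 hK hrpos
    refine ⟨η, hη, fun X a b hX1 hX2 hW hint => ?_⟩
    have hy : 0 < X - X1 := by linarith
    obtain ⟨hyr, hA⟩ := hηb (X - X1) hy (by linarith)
    obtain ⟨ha, hb⟩ := hmono X1 X a1 b1 a b hX1 hW1 hW
    have hsy : 0 < √(X - X1) := Real.sqrt_pos.mpr hy
    have hrs : r ≤ b1 - s0 := min_le_right _ _
    have h1 := hsub X a b (b1 - r) (b1 - √(X - X1)) hW (by linarith [hW.as]) (by linarith)
      (by linarith) hint
    refine lt_of_lt_of_le ?_ h1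
    have h2 : ∫ x in (b1 - r)..(b1 - √(X - X1)), u0 / √(M * (1 + C)) * (b1 - x)⁻¹ =
        u0 / √(M * (1 + C)) * Real.log (r / √(X - X1)) := by
      rw [intervalIntegral.integral_const_mul]
      congr 1
      rw [intervalIntegral.integral_comp_sub_left (fun x => x⁻¹) b1]
      rw [sub_sub_cancel, sub_sub_cancel]
      exact integral_inv_of_pos hsy hrpos
    rw [← h2] at hA
    refine lt_of_lt_of_le hA ?_
    refine intervalIntegral.integral_mono_on (by linarith) ?_ ?_ ?_
    · refine ContinuousOn.intervalIntegrable ?_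
      refine continuousOn_const.mul (ContinuousOn.inv₀ (by fun_prop) ?_)
      intro x hx
      rw [uIcc_of_le (by linarith)] at hx
      have := hx.2
      exact ne_of_gt (by linarith)
    · refine hint.mono_set ?_
      rw [uIcc_of_le (by linarith), uIcc_of_le (by linarith [hW.as, hW.sb])]
      exact Icc_subset_Icc (by linarith [hW.as]) (by linarith)
    · intro x hx
      have hx1 := hx.1
      have hx2 := hx.2
      have hxa : 0 < b1 - x := by linarith
      have hxs : s0 ≤ x := by linarith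
      have hxI : x ∈ Ioo α β := ⟨by linarith [hs0.1], by linarith [hW1.hb]⟩
      have habs : |x - b1| = b1 - x := by rw [abs_sub_comm]; exact abs_of_pos hxa
      have hxX : 0 < X - V x := sub_pos.mpr (hW.lt x ⟨by linarith [hW.as], by linarith⟩)
      have hqx := hq x (by rw [habs]; linarith [min_le_left r0 (b1 - s0)])
      rw [hW1.Vb] at hqx
      have := low w u V M C u0 X (X - X1) b1 x hM hC hu0 (hwp x hxI) (hwM x hxI) (hu x hxI) hxX
        hy (by linarith) (by rw [habs]; linarith)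
      rwa [habs] at this

end Pool.Agent.USP
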