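import Pool.Agent.USP.P_INT

/-!
# USP: continuity of the drift integral at a regular level (target T_JCT)
-/

set_option autoImplicit false

open Set Filter Topology MeasureTheory
open scoped ContDiff

namespace Pool.Agent.USP
open Pool.Agent.MSup

namespace JCT_

/-- the integrand after the substitution -/
noncomputable def FF (V w g : ℝ → ℝ) (X a b t : ℝ) : ℝ :=
  (b - a) * (g (a + (b - a) * t) / √(w (a + (b - a) * t) * (X - V (a + (b - a) * t))))

theorem subst (V w g : ℝ → ℝ) (X a b : ℝ) :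
    JJ V w g X a b = ∫ t in (0 : ℝ)..1, FF V w g X a b t := by
  unfold JJ FF
  have h := intervalIntegral.smul_integral_comp_add_mul (a := 0) (b := 1)
    (fun x => g x / √(w x * (X - V x))) (b - a) a
  rw [intervalIntegral.integral_const_mul]
  simp only [smul_eq_mul, mul_zero, add_zero, mul_one, add_sub_cancel] at h
  exact h.symm

theorem mem_of {a b t : ℝ} (hab : a < b) (ht : t ∈ Ioo (0 : ℝ) 1) :
    a + (b - a) * t ∈ Ioo a b := by
  have h : 0 < b - a := by linarith
  constructor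
  · nlinarith [ht.1, mul_pos h ht.1]
  · nlinarith [ht.2, mul_pos h (sub_pos.2 ht.2)]

theorem bound {g w V : ℝ → ℝ} {X a b t Cg w0 c : ℝ} (hab : a < b) (ht : t ∈ Ioo (0 : ℝ) 1)
    (hc : 0 < c) (hw0 : 0 < w0) (hg : |g (a + (b - a) * t)| ≤ Cg)
    (hw : w0 ≤ w (a + (b - a) * t))
    (hlow : c * ((a + (b - a) * t - a) * (b - (a + (b - a) * t))) ≤ X - V (a + (b - a) * t)) :
    ‖FF V w g X a b t‖ ≤
      Cg / √(w0 * c) * (t ^ (-(1 / 2) : ℝ) + (1 - t) ^ (-(1 / 2) : ℝ)) := by
  have hba : 0 < b - a := by linarith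
  have ht0 : 0 < t := ht.1
  have ht1 : 0 < 1 - t := by linarith [ht.2]
  have hCg : 0 ≤ Cg := (abs_nonneg _).trans hg
  have hk := INT_.key ht0 ht1
  rw [add_sub_cancel, Real.sqrt_one, div_one] at hk
  have hq : w0 * c * (b - a) ^ 2 * (t * (1 - t)) ≤
      w (a + (b - a) * t) * (X - V (a + (b - a) * t)) := by
    have e : c * ((a + (b - a) * t - a) * (b - (a + (b - a) * t))) =
        c * (b - a) ^ 2 * (t * (1 - t)) := by ring
    rw [e] at hlow
    have h0 : 0 ≤ c * (b - a) ^ 2 * (t * (1 - t)) := by positivity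
    calc w0 * c * (b - a) ^ 2 * (t * (1 - t)) = w0 * (c * (b - a) ^ 2 * (t * (1 - t))) := by ring
      _ ≤ w (a + (b - a) * t) * (X - V (a + (b - a) * t)) := by
        apply mul_le_mul hw hlow h0 (hw0.le.trans hw)
  have hs : √(w0 * c) * (b - a) * √(t * (1 - t)) ≤
      √(w (a + (b - a) * t) * (X - V (a + (b - a) * t))) := by
    have e : √(w0 * c * (b - a) ^ 2 * (t * (1 - t))) =
        √(w0 * c) * (b - a) * √(t * (1 - t)) := by
      rw [Real.sqrt_mul (by positivity), Real.sqrt_mul (by positivity),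
        Real.sqrt_sq hba.le]
    rw [← e]
    exact Real.sqrt_le_sqrt hq
  have hp1 : 0 < √(w0 * c) := Real.sqrt_pos.2 (by positivity)
  have hp2 : 0 < √(t * (1 - t)) := Real.sqrt_pos.2 (by positivity)
  have hp : 0 < √(w0 * c) * (b - a) * √(t * (1 - t)) := by positivity
  unfold FF
  rw [norm_mul, norm_div, Real.norm_eq_abs, Real.norm_eq_abs, Real.norm_eq_abs,
    abs_of_pos hba, abs_of_nonneg (Real.sqrt_nonneg _)]
  calc (b - a) * (|g (a + (b - a) * t)| / √(w (a + (b - a) * t) * (X - V (a + (b - a) * t))))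
      ≤ (b - a) * (Cg / (√(w0 * c) * (b - a) * √(t * (1 - t)))) := by
        apply mul_le_mul_of_nonneg_left _ hba.le
        exact div_le_div₀ hCg hg hp hs
    _ = Cg / √(w0 * c) * (1 / √(t * (1 - t))) := by
        field_simp
    _ ≤ _ := by
        apply mul_le_mul_of_nonneg_left hk
        positivity

theorem cont {α β X a b : ℝ} {V V1 w u g : ℝ → ℝ} (hP : Pot α β V V1 w u)
    (hg : ContinuousOn g (Ioo α β)) (hab : a < b) (ha : α < a) (hb : b < β)
    (hlt : ∀ s ∈ Ioo a b, V s < X) : ContinuousOn (FF V w g X a b) (Ioo 0 1) := by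
  have hm : MapsTo (fun t : ℝ => a + (b - a) * t) (Ioo 0 1) (Ioo α β) := fun t ht => by
    have := mem_of hab ht
    exact ⟨ha.trans this.1, this.2.trans hb⟩
  have hs : ContinuousOn (fun t : ℝ => a + (b - a) * t) (Ioo 0 1) := by fun_prop
  have hV : ContinuousOn V (Ioo α β) := fun s hs => (hP.dV s hs).continuousAt.continuousWithinAt
  have hw : ContinuousOn w (Ioo α β) := hP.cw.mono Ioo_subset_Icc_self
  have c1 : ContinuousOn (fun t : ℝ => g (a + (b - a) * t)) (Ioo 0 1) := hg.comp hs hm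
  have c2 : ContinuousOn (fun t : ℝ => w (a + (b - a) * t)) (Ioo 0 1) := hw.comp hs hm
  have c3 : ContinuousOn (fun t : ℝ => V (a + (b - a) * t)) (Ioo 0 1) := hV.comp hs hm
  unfold FF
  refine continuousOn_const.mul (c1.div (Real.continuous_sqrt.comp_continuousOn
    (c2.mul (continuousOn_const.sub c3))) fun t ht => ?_)
  have h1 := hP.pw _ (Ioo_subset_Icc_self (hm ht))
  have h2 := hlt _ (mem_of hab ht)
  exact (Real.sqrt_pos.2 (mul_pos h1 (by linarith))).ne'

end JCT_

open JCT_ in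
theorem p_JCT : T_JCT := by
  intro hWIN hLOW α β V V1 w u g hP hg s0 X0 a0 b0 hW ha0 hb0 ε hε
  obtain ⟨-, ⟨c, δ0, hc, hδ0, hlow⟩, hend⟩ := hLOW hWIN α β V V1 w u hP s0 X0 a0 b0 hW ha0 hb0
  by_contra hcon
  push Not at hcon
  have hseq : ∀ n : ℕ, ∃ X a b : ℝ, |X - X0| < 1 / ((n : ℝ) + 1) ∧ Win α β V s0 X a b ∧
      ε ≤ |JJ V w g X a b - JJ V w g X0 a0 b0| := fun n => hcon _ (by positivity)
  choose X a b h1 h2 h3 using hseq
  have hX0 : ∀ δ : ℝ, 0 < δ → ∀ᶠ n in atTop, |X n - X0| < δ := by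
    intro δ hδ
    have := (tendsto_one_div_add_atTop_nhds_zero_nat (𝕜 := ℝ)).eventually_lt_const hδ
    filter_upwards [this] with n hn
    exact (h1 n).trans hn
  have hX : Tendsto X atTop (𝓝 X0) := by
    rw [Metric.tendsto_nhds]
    intro δ hδ
    filter_upwards [hX0 δ hδ] with n hn
    rwa [Real.dist_eq]
  have hab0 : ∀ η : ℝ, 0 < η → ∀ᶠ n in atTop, |a n - a0| < η ∧ |b n - b0| < η := by
    intro η hη
    obtain ⟨δ, hδ, h⟩ := hend η hη
    filter_upwards [hX0 δ hδ] with n hn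
    exact h _ _ _ hn (h2 n)
  have ha : Tendsto a atTop (𝓝 a0) := by
    rw [Metric.tendsto_nhds]
    intro δ hδ
    filter_upwards [hab0 δ hδ] with n hn
    rw [Real.dist_eq]
    exact hn.1
  have hb : Tendsto b atTop (𝓝 b0) := by
    rw [Metric.tendsto_nhds]
    intro δ hδ
    filter_upwards [hab0 δ hδ] with n hn
    rw [Real.dist_eq]
    exact hn.2
  have hαa : α < a0 := hW.ha
  have hbβ : b0 < β := hW.hb
  set K : Set ℝ := Icc ((α + a0) / 2) ((b0 + β) / 2) with hKdef
  have hK : K ⊆ Ioo α β := fun s hs => ⟨by linarith [hs.1], by linarith [hs.2]⟩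
  obtain ⟨Cg, hCg⟩ := (isCompact_Icc : IsCompact K).exists_bound_of_continuousOn (hg.mono hK)
  obtain ⟨w0, hw00, hw0⟩ := (isCompact_Icc : IsCompact K).exists_forall_le' (f := w) (a := 0)
    (hP.cw.mono (hK.trans Ioo_subset_Icc_self))
    (fun s hs => hP.pw s (Ioo_subset_Icc_self (hK hs)))
  have hIn : ∀ᶠ n in atTop, Icc (a n) (b n) ⊆ K := by
    filter_upwards [ha.eventually_const_lt (u := (α + a0) / 2) (by linarith),
      hb.eventually_lt_const (u := (b0 + β) / 2) (by linarith)] with n e1 e2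
    exact Icc_subset_Icc e1.le e2.le
  have hlim : Tendsto (fun n => ∫ t in (0 : ℝ)..1, FF V w g (X n) (a n) (b n) t) atTop
      (𝓝 (∫ t in (0 : ℝ)..1, FF V w g X0 a0 b0 t)) := by
    refine intervalIntegral.tendsto_integral_filter_of_dominated_convergence
      (fun t => Cg / √(w0 * c) * (t ^ (-(1 / 2) : ℝ) + (1 - t) ^ (-(1 / 2) : ℝ))) ?_ ?_ ?_ ?_
    · refine Eventually.of_forall fun n => ?_
      have hab : a n < b n := (h2 n).as.trans (h2 n).sb
      have hcont := cont hP hg hab (h2 n).ha (h2 n).hb (h2 n).lt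
      rw [uIoc_of_le zero_le_one, ← Measure.restrict_congr_set Ioo_ae_eq_Ioc]
      exact hcont.aestronglyMeasurable measurableSet_Ioo
    · filter_upwards [hIn, hX0 δ0 hδ0] with n e1 e2
      have hne : ∀ᵐ x : ℝ ∂volume, x ≠ 1 := by simp [ae_iff, measure_singleton]
      filter_upwards [hne] with t ht1 ht
      rw [uIoc_of_le zero_le_one] at ht
      have htm : t ∈ Ioo (0 : ℝ) 1 := ⟨ht.1, lt_of_le_of_ne ht.2 ht1⟩
      have hab : a n < b n := (h2 n).as.trans (h2 n).sb
      have hs := mem_of hab htm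
      have hsK := e1 (Ioo_subset_Icc_self hs)
      refine bound hab htm hc hw00 ?_ (hw0 _ hsK) ?_
      · have := hCg _ hsK
        rwa [Real.norm_eq_abs] at this
      · exact (hlow _ _ _ e2 (h2 n)).1 _ (Ioo_subset_Icc_self hs)
    · have := INT_.inv_int 0 1 zero_lt_one
      rw [← intervalIntegrable_iff_integrableOn_Ioo_of_le zero_le_one] at this
      simp only [sub_zero] at this
      exact this.const_mul _
    · have hne : ∀ᵐ x : ℝ ∂volume, x ≠ 1 := by simp [ae_iff, measure_singleton]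
      filter_upwards [hne] with t ht1 ht
      rw [uIoc_of_le zero_le_one] at ht
      have htm : t ∈ Ioo (0 : ℝ) 1 := ⟨ht.1, lt_of_le_of_ne ht.2 ht1⟩
      have hab : a0 < b0 := hW.as.trans hW.sb
      have hs := mem_of hab htm
      have hs' : a0 + (b0 - a0) * t ∈ Ioo α β := ⟨hαa.trans hs.1, hs.2.trans hbβ⟩
      have hst : Tendsto (fun n => a n + (b n - a n) * t) atTop (𝓝 (a0 + (b0 - a0) * t)) :=
        ha.add ((hb.sub ha).mul_const t)
      have hnhds : Ioo α β ∈ 𝓝 (a0 + (b0 - a0) * t) := Ioo_mem_nhds hs'.1 hs'.2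
      have g1 := (hg.continuousAt hnhds).tendsto.comp hst
      have g2 := ((hP.cw.mono Ioo_subset_Icc_self).continuousAt hnhds).tendsto.comp hst
      have g3 := (hP.dV _ hs').continuousAt.tendsto.comp hst
      have hpos : 0 < √(w (a0 + (b0 - a0) * t) * (X0 - V (a0 + (b0 - a0) * t))) :=
        Real.sqrt_pos.2 (mul_pos (hP.pw _ (Ioo_subset_Icc_self hs')) (by
          linarith [hW.lt _ hs]))
      unfold FF
      exact (hb.sub ha).mul (g1.div ((Real.continuous_sqrt.tendsto _).comp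
        (g2.mul (hX.sub g3))) hpos.ne')
  simp_rw [← subst] at hlim
  have := (Metric.tendsto_nhds.1 hlim ε hε).exists
  obtain ⟨n, hn⟩ := this
  rw [Real.dist_eq] at hn
  exact absurd hn (not_lt.2 (h3 n))

end Pool.Agent.USP
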