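import Pool.Agent.USP.Targets

/-!
# USP, block LOW: uniform lower bound and continuity of the endpoints at a regular level
-/

set_option autoImplicit false

open Set Filter Topology MeasureTheory
open scoped ContDiff

namespace Pool.Agent.USP
open Pool.Agent.MSup

/-- mean value inequality -/
theorem LOW_.mvt {α β c x0 y0 : ℝ} {V V1 : ℝ → ℝ} (hV : ∀ s ∈ Ioo α β, HasDerivAt V (V1 s) s)
    (hx : α < x0) (hy : y0 < β) (hc : ∀ s ∈ Icc x0 y0, c ≤ V1 s) :
    ∀ x ∈ Icc x0 y0, ∀ y ∈ Icc x0 y0, x ≤ y → c * (y - x) ≤ V y - V x := by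
  have hin : ∀ s ∈ Icc x0 y0, s ∈ Ioo α β := fun s hs =>
    ⟨lt_of_lt_of_le hx hs.1, lt_of_le_of_lt hs.2 hy⟩
  refine Convex.mul_sub_le_image_sub_of_le_deriv (convex_Icc x0 y0)
    (fun s hs => (hV s (hin s hs)).continuousAt.continuousWithinAt)
    (fun s hs => (hV s (hin s (interior_subset hs))).differentiableAt.differentiableWithinAt)
    (fun s hs => ?_)
  rw [(hV s (hin s (interior_subset hs))).deriv]
  exact hc s (interior_subset hs)

/-- a compact interval on which `V < X0` -/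
theorem LOW_.mid {x y X0 : ℝ} {V : ℝ → ℝ} (hc : ContinuousOn V (Icc x y))
    (h : ∀ s ∈ Icc x y, V s < X0) : ∃ η : ℝ, 0 < η ∧ ∀ s ∈ Icc x y, V s ≤ X0 - η := by
  rcases (Icc x y).eq_empty_or_nonempty with he | hne
  · exact ⟨1, one_pos, fun s hs => by rw [he] at hs; exact absurd hs (notMem_empty s)⟩
  · obtain ⟨z, hz, hmax⟩ := isCompact_Icc.exists_isMaxOn hne hc
    refine ⟨X0 - V z, sub_pos.mpr (h z hz), fun s hs => ?_⟩
    have := hmax hs
    simp only [mem_ofPred_eq] at this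
    linarith

theorem LOW_.right {α β s0 X0 b0 : ℝ} {V V1 : ℝ → ℝ}
    (hV : ∀ s ∈ Ioo α β, HasDerivAt V (V1 s) s) (hV1 : ∀ s ∈ Ioo α β, ContinuousAt V1 s)
    (h1 : α < s0) (h2 : s0 < b0) (h3 : b0 < β) (hVb : V b0 = X0)
    (hlt : ∀ s ∈ Ico s0 b0, V s < X0) (hpos : 0 < V1 b0) {ε : ℝ} (hε : 0 < ε) :
    ∃ e c δ : ℝ, 0 < e ∧ 0 < c ∧ 0 < δ ∧ e ≤ ε ∧ s0 < b0 - e ∧ b0 + e < β ∧
      (∀ s ∈ Icc (b0 - e) (b0 + e), c ≤ V1 s) ∧
      ∀ X b : ℝ, |X - X0| < δ → s0 < b → b < β → V b = X → (∀ s ∈ Ico s0 b, V s < X) →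
        |b - b0| < e := by
  have hb0 : b0 ∈ Ioo α β := ⟨by linarith, h3⟩
  obtain ⟨r, hr, hball⟩ := Metric.eventually_nhds_iff.mp
    ((hV1 b0 hb0).eventually (lt_mem_nhds (show V1 b0 / 2 < V1 b0 by linarith)))
  set e : ℝ := min (min (r / 2) ε) (min ((b0 - s0) / 2) ((β - b0) / 2)) with he
  have he0 : 0 < e := by
    refine lt_min (lt_min (by linarith) hε) (lt_min (by linarith) (by linarith))
  have he1 : e ≤ r / 2 := (min_le_left _ _).trans (min_le_left _ _)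
  have he2 : e ≤ ε := (min_le_left _ _).trans (min_le_right _ _)
  have he3 : e ≤ (b0 - s0) / 2 := (min_le_right _ _).trans (min_le_left _ _)
  have he4 : e ≤ (β - b0) / 2 := (min_le_right _ _).trans (min_le_right _ _)
  have hc : ∀ s ∈ Icc (b0 - e) (b0 + e), V1 b0 / 2 ≤ V1 s := by
    intro s hs
    refine (hball ?_).le
    rw [Real.dist_eq, abs_lt]
    constructor <;> linarith [hs.1, hs.2]
  have hmv := LOW_.mvt hV (by linarith : α < b0 - e) (by linarith : b0 + e < β) hc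
  have hup : X0 < V (b0 + e) := by
    have h := hmv b0 ⟨by linarith, by linarith⟩ (b0 + e) ⟨by linarith, le_rfl⟩ (by linarith)
    have : 0 < V1 b0 / 2 * (b0 + e - b0) := mul_pos (by linarith) (by linarith)
    linarith
  obtain ⟨η, hη, hmid⟩ := LOW_.mid (x := s0) (y := b0 - e) (X0 := X0) (V := V)
    (fun s hs => (hV s ⟨lt_of_lt_of_le h1 hs.1,
      by linarith [hs.2]⟩).continuousAt.continuousWithinAt)
    (fun s hs => hlt s ⟨hs.1, by linarith [hs.2]⟩)
  refine ⟨e, V1 b0 / 2, min η (V (b0 + e) - X0), he0, by linarith, lt_min hη (by linarith), he2,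
    by linarith, by linarith, hc, ?_⟩
  intro X b hX hsb hbβ hVbX hVlt
  have hX1 : |X - X0| < η := lt_of_lt_of_le hX (min_le_left _ _)
  have hX2 : |X - X0| < V (b0 + e) - X0 := lt_of_lt_of_le hX (min_le_right _ _)
  rw [abs_lt] at hX1 hX2 ⊢
  constructor
  · by_contra hcon
    have : b ≤ b0 - e := by linarith
    have := hmid b ⟨hsb.le, this⟩
    linarith [hX1.1]
  · by_contra hcon
    have hge : b0 + e ≤ b := by linarith
    rcases eq_or_lt_of_le hge with h | h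
    · rw [← h] at hVbX
      linarith [hX2.2]
    · have := hVlt (b0 + e) ⟨by linarith, h⟩
      linarith [hX2.2]

theorem LOW_.left {α β s0 X0 a0 : ℝ} {V V1 : ℝ → ℝ}
    (hV : ∀ s ∈ Ioo α β, HasDerivAt V (V1 s) s) (hV1 : ∀ s ∈ Ioo α β, ContinuousAt V1 s)
    (h1 : s0 < β) (h2 : a0 < s0) (h3 : α < a0) (hVa : V a0 = X0)
    (hlt : ∀ s ∈ Ioc a0 s0, V s < X0) (hneg : V1 a0 < 0) {ε : ℝ} (hε : 0 < ε) :
    ∃ e c δ : ℝ, 0 < e ∧ 0 < c ∧ 0 < δ ∧ e ≤ ε ∧ a0 + e < s0 ∧ α < a0 - e ∧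
      (∀ s ∈ Icc (a0 - e) (a0 + e), V1 s ≤ -c) ∧
      ∀ X a : ℝ, |X - X0| < δ → α < a → a < s0 → V a = X → (∀ s ∈ Ioc a s0, V s < X) →
        |a - a0| < e := by
  have hV' : ∀ s ∈ Ioo (-β) (-α), HasDerivAt (fun s => V (-s)) (-(V1 (-s))) s := by
    intro s hs
    have h := (hV (-s) ⟨by linarith [hs.2], by linarith [hs.1]⟩).comp s (hasDerivAt_neg s)
    have e1 : V1 (-s) * -1 = -(V1 (-s)) := by ring
    rw [e1] at h
    exact h
  have hV1' : ∀ s ∈ Ioo (-β) (-α), ContinuousAt (fun s => -(V1 (-s))) s := by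
    intro s hs
    have h := hV1 (-s) ⟨by linarith [hs.2], by linarith [hs.1]⟩
    exact (ContinuousAt.comp (f := fun s : ℝ => -s) h continuous_neg.continuousAt).neg
  obtain ⟨e, c, δ, he, hc, hδ, heε, h4, h5, h6, h7⟩ := LOW_.right (s0 := -s0) (X0 := X0)
    (b0 := -a0) hV' hV1' (by linarith) (by linarith) (by linarith) (by simpa using hVa)
    (fun s hs => hlt (-s) ⟨by linarith [hs.2], by linarith [hs.1]⟩) (by simpa using hneg) hε
  refine ⟨e, c, δ, he, hc, hδ, heε, by linarith, by linarith, ?_, ?_⟩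
  · intro s hs
    have h := h6 (-s) ⟨by linarith [hs.2], by linarith [hs.1]⟩
    simp only [neg_neg] at h
    linarith
  · intro X a hX ha1 ha2 hVX hlt2
    have h := h7 X (-a) hX (by linarith) (by linarith) (by simpa using hVX)
      (fun s hs => hlt2 (-s) ⟨by linarith [hs.2], by linarith [hs.1]⟩)
    rw [abs_lt] at h ⊢
    constructor <;> linarith [h.1, h.2]

/-- the sign of the derivative at the right end -/
theorem LOW_.sign {α β a0 b0 X0 : ℝ} {V V1 : ℝ → ℝ} (hab : a0 < b0) (hb : b0 ∈ Ioo α β)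
    (hV : ∀ s ∈ Ioo α β, HasDerivAt V (V1 s) s) (hVb : V b0 = X0)
    (hlt : ∀ s ∈ Ioo a0 b0, V s < X0) (hne : V1 b0 ≠ 0) : 0 < V1 b0 := by
  refine lt_of_le_of_ne ?_ (Ne.symm hne)
  have h1 : HasDerivWithinAt V (V1 b0) (Iio b0) b0 := (hV b0 hb).hasDerivWithinAt
  have h2 := hasDerivWithinAt_iff_tendsto_slope.mp h1
  have h3 : Iio b0 \ {b0} = Iio b0 := by
    ext x
    exact ⟨fun h => h.1, fun h => ⟨h, fun h' => (ne_of_lt (show x < b0 from h)) h'⟩⟩
  rw [h3] at h2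
  refine ge_of_tendsto h2 ?_
  have h4 : ∀ᶠ s in 𝓝[<] b0, s ∈ Ioo a0 b0 := Ioo_mem_nhdsLT hab
  filter_upwards [h4] with s hs
  rw [slope_def_field]
  have h5 : V s - V b0 < 0 := by rw [hVb]; linarith [hlt s hs]
  have h6 : s - b0 < 0 := by linarith [hs.2]
  exact (div_pos_of_neg_of_neg h5 h6).le

theorem LOW_.signl {α β a0 b0 X0 : ℝ} {V V1 : ℝ → ℝ} (hab : a0 < b0) (ha : a0 ∈ Ioo α β)
    (hV : ∀ s ∈ Ioo α β, HasDerivAt V (V1 s) s) (hVa : V a0 = X0)
    (hlt : ∀ s ∈ Ioo a0 b0, V s < X0) (hne : V1 a0 ≠ 0) : V1 a0 < 0 := by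
  refine lt_of_le_of_ne ?_ hne
  have h1 : HasDerivWithinAt V (V1 a0) (Ioi a0) a0 := (hV a0 ha).hasDerivWithinAt
  have h2 := hasDerivWithinAt_iff_tendsto_slope.mp h1
  have h3 : Ioi a0 \ {a0} = Ioi a0 := by
    ext x
    exact ⟨fun h => h.1, fun h => ⟨h, fun h' => (ne_of_gt (show a0 < x from h)) h'⟩⟩
  rw [h3] at h2
  refine le_of_tendsto h2 ?_
  have h4 : ∀ᶠ s in 𝓝[>] a0, s ∈ Ioo a0 b0 := Ioo_mem_nhdsGT hab
  filter_upwards [h4] with s hs
  rw [slope_def_field]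
  have h5 : V s - V a0 < 0 := by rw [hVa]; linarith [hlt s hs]
  have h6 : 0 < s - a0 := by linarith [hs.1]
  exact (div_neg_of_neg_of_pos h5 h6).le

theorem p_LOW : T_LOW := by
  intro _ α β V V1 w u hP s0 X0 a0 b0 hW ha hb
  have hV := hP.dV
  have hV1 : ∀ s ∈ Ioo α β, ContinuousAt V1 s := fun s hs => (hP.dV1 s hs).continuousAt
  have hab : a0 < b0 := hW.as.trans hW.sb
  have ha0 : a0 ∈ Ioo α β := ⟨hW.ha, hab.trans hW.hb⟩
  have hb0 : b0 ∈ Ioo α β := ⟨hW.ha.trans hab, hW.hb⟩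
  have hsα : α < s0 := hW.ha.trans hW.as
  have hsβ : s0 < β := hW.sb.trans hW.hb
  have hsa : V1 a0 < 0 := LOW_.signl hab ha0 hV hW.Va hW.lt ha
  have hsb : 0 < V1 b0 := LOW_.sign hab hb0 hV hW.Vb hW.lt hb
  have hR : ∀ ε : ℝ, 0 < ε → _ := fun ε hε => LOW_.right (ε := ε) hV hV1 hsα hW.sb hW.hb hW.Vb
    (fun s hs => hW.lt s ⟨lt_of_lt_of_le hW.as hs.1, hs.2⟩) hsb hε
  have hL : ∀ ε : ℝ, 0 < ε → _ := fun ε hε => LOW_.left (ε := ε) hV hV1 hsβ hW.as hW.ha hW.Va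
    (fun s hs => hW.lt s ⟨hs.1, lt_of_le_of_lt hs.2 hW.sb⟩) hsa hε
  refine ⟨⟨hsa, hsb⟩, ?_, ?_⟩
  · obtain ⟨e, c, δ, he, hc, hδ, -, h4, h5, h6, h7⟩ := hR 1 one_pos
    obtain ⟨e', c', δ', he', hc', hδ', -, h4', h5', h6', h7'⟩ := hL 1 one_pos
    obtain ⟨η, hη, hmid⟩ := LOW_.mid (x := a0 + e') (y := b0 - e) (X0 := X0) (V := V)
      (fun s hs => (hV s ⟨by linarith [hs.1, hW.ha],
        by linarith [hs.2, hW.hb]⟩).continuousAt.continuousWithinAt)
      (fun s hs => hW.lt s ⟨by linarith [hs.1], by linarith [hs.2]⟩)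
    have hmvR := LOW_.mvt hV (by linarith : α < b0 - e) h5 h6
    have hmvL := LOW_.mvt (V := fun s => -V s) (V1 := fun s => -V1 s) (c := c')
      (fun s hs => (hV s hs).neg) h5' (by linarith : a0 + e' < β)
      (fun s hs => by linarith [h6' s hs])
    have hd : 0 < β - α := by linarith
    set κ : ℝ := min (min (c / (β - α)) (c' / (β - α))) (η / 2 / (β - α) ^ 2) with hκ
    have hκ0 : 0 < κ := lt_min (lt_min (by positivity) (by positivity)) (by positivity)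
    have hκ1 : κ ≤ c / (β - α) := (min_le_left _ _).trans (min_le_left _ _)
    have hκ2 : κ ≤ c' / (β - α) := (min_le_left _ _).trans (min_le_right _ _)
    have hκ3 : κ ≤ η / 2 / (β - α) ^ 2 := min_le_right _ _
    refine ⟨κ, min (min δ δ') (η / 2), hκ0, lt_min (lt_min hδ hδ') (by linarith), ?_⟩
    intro X a b hX hWX
    have hX1 : |X - X0| < δ := lt_of_lt_of_le hX ((min_le_left _ _).trans (min_le_left _ _))
    have hX2 : |X - X0| < δ' := lt_of_lt_of_le hX ((min_le_left _ _).trans (min_le_right _ _))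
    have hX3 : |X - X0| < η / 2 := lt_of_lt_of_le hX (min_le_right _ _)
    have hbb := h7 X b hX1 hWX.sb hWX.hb hWX.Vb
      (fun s hs => hWX.lt s ⟨lt_of_lt_of_le hWX.as hs.1, hs.2⟩)
    have haa := h7' X a hX2 hWX.ha hWX.as hWX.Va
      (fun s hs => hWX.lt s ⟨hs.1, lt_of_le_of_lt hs.2 hWX.sb⟩)
    rw [abs_lt] at hbb haa hX3
    have hV1b : 0 < V1 b := lt_of_lt_of_le hc (h6 b ⟨by linarith [hbb.1], by linarith [hbb.2]⟩)
    have hV1a : V1 a < 0 := by
      have := h6' a ⟨by linarith [haa.1], by linarith [haa.2]⟩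
      linarith
    refine ⟨?_, hV1a, hV1b⟩
    intro s hs
    have hs1 : 0 ≤ s - a := by linarith [hs.1]
    have hs2 : 0 ≤ b - s := by linarith [hs.2]
    have hs3 : s - a ≤ β - α := by linarith [hs.2, hWX.ha, hWX.hb]
    have hs4 : b - s ≤ β - α := by linarith [hs.1, hWX.ha, hWX.hb]
    rcases le_total s (a0 + e') with hcase | hcase
    · have h := hmvL a ⟨by linarith [haa.1], by linarith [haa.2]⟩ s
        ⟨by linarith [haa.1, hs.1], hcase⟩ hs.1
      rw [hWX.Va] at h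
      have h8 : κ * ((s - a) * (b - s)) ≤ c' / (β - α) * ((s - a) * (β - α)) := by
        gcongr
      have h9 : c' / (β - α) * ((s - a) * (β - α)) = c' * (s - a) := by
        field_simp
      linarith
    · rcases le_total (b0 - e) s with hcase2 | hcase2
      · have h := hmvR s ⟨hcase2, by linarith [hbb.2, hs.2]⟩ b
          ⟨by linarith [hbb.1], by linarith [hbb.2]⟩ hs.2
        rw [hWX.Vb] at h
        have h8 : κ * ((s - a) * (b - s)) ≤ c / (β - α) * ((β - α) * (b - s)) := by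
          gcongr
        have h9 : c / (β - α) * ((β - α) * (b - s)) = c * (b - s) := by
          field_simp
        linarith
      · have h := hmid s ⟨hcase, hcase2⟩
        have h8 : κ * ((s - a) * (b - s)) ≤ η / 2 / (β - α) ^ 2 * ((β - α) * (β - α)) := by
          gcongr
        have h9 : η / 2 / (β - α) ^ 2 * ((β - α) * (β - α)) = η / 2 := by
          field_simp
        linarith [hX3.1]
  · intro ε hε
    obtain ⟨e, c, δ, he, hc, hδ, heε, h4, h5, h6, h7⟩ := hR ε hε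
    obtain ⟨e', c', δ', he', hc', hδ', heε', h4', h5', h6', h7'⟩ := hL ε hε
    refine ⟨min δ δ', lt_min hδ hδ', ?_⟩
    intro X a b hX hWX
    have hX1 : |X - X0| < δ := lt_of_lt_of_le hX (min_le_left _ _)
    have hX2 : |X - X0| < δ' := lt_of_lt_of_le hX (min_le_right _ _)
    have hbb := h7 X b hX1 hWX.sb hWX.hb hWX.Vb
      (fun s hs => hWX.lt s ⟨lt_of_lt_of_le hWX.as hs.1, hs.2⟩)
    have haa := h7' X a hX2 hWX.ha hWX.as hWX.Va
      (fun s hs => hWX.lt s ⟨hs.1, lt_of_le_of_lt hs.2 hWX.sb⟩)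
    exact ⟨lt_of_lt_of_le haa heε', lt_of_lt_of_le hbb heε⟩

end Pool.Agent.USP
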