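import Pool.Agent.USP.Targets

set_option autoImplicit false

open Set Filter Topology MeasureTheory
open scoped ContDiff

namespace Pool.Agent.USP

theorem REG_.cont (hWIN : T_WIN) (hLOW : T_LOW) (hJCT : T_JCT) (α β : ℝ)
    (V V1 w u g : ℝ → ℝ) (hP : Pot α β V V1 w u) (hg : ContinuousOn g (Ioo α β)) (s0 : ℝ)
    (lo hi : ℝ → ℝ) (X1 : ℝ) (hW : ∀ X, X1 < X → Win α β V s0 X (lo X) (hi X))
    (hreg : ∀ X, X1 < X → V1 (lo X) ≠ 0 ∧ V1 (hi X) ≠ 0) :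
    ContinuousOn (fun X => JJ V w g X (lo X) (hi X)) (Ioi X1) := by
  rw [Metric.continuousOn_iff]
  intro X hX ε hε
  obtain ⟨δ, hδ, h⟩ := hJCT hWIN hLOW α β V V1 w u g hP hg s0 X (lo X) (hi X) (hW X hX)
    (hreg X hX).1 (hreg X hX).2 ε hε
  refine ⟨δ, hδ, ?_⟩
  intro Y hY hXY
  rw [Real.dist_eq] at hXY ⊢
  exact h Y (lo Y) (hi Y) hXY (hW Y hY)

theorem p_REG : T_REG := by
  intro hWIN hLOW hJCT hIRR hCST hBIG hINT α β V V1 w u g hP hg s0 hs0 E hE hrat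
  obtain ⟨hex, hmono, huniq⟩ := hWIN α β V V1 w u hP s0 hs0
  have hlo : ∀ X, ∃ a b, V s0 < X → Win α β V s0 X a b := by
    intro X
    by_cases h : V s0 < X
    · obtain ⟨a, b, hab⟩ := hex X h
      exact ⟨a, b, fun _ => hab⟩
    · exact ⟨0, 0, fun h' => absurd h' h⟩
  choose lo hi hW using hlo
  have hWX : ∀ X a b, Win α β V s0 X a b → V s0 < X := fun X a b h => h.lt s0 ⟨h.as, h.sb⟩
  obtain ⟨M, hM⟩ := hBIG α β V V1 w u hP s0 hs0
  have hreg : ∀ X, V s0 < X → V1 (lo X) ≠ 0 ∧ V1 (hi X) ≠ 0 := by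
    by_contra hcon
    push Not at hcon
    obtain ⟨X2, hX2, hX2b⟩ := hcon
    set S : Set ℝ := {X | V s0 < X ∧ ¬ (V1 (lo X) ≠ 0 ∧ V1 (hi X) ≠ 0)} with hS
    have hne : S.Nonempty := ⟨X2, hX2, fun h => h.2 (hX2b h.1)⟩
    have hbd : ∀ X ∈ S, X ≤ M := by
      intro X hX
      by_contra hc
      push Not at hc
      have h := hM X (lo X) (hi X) hc (hW X hX.1)
      exact hX.2 ⟨h.1.ne, h.2.ne'⟩
    have hbdd : BddAbove S := ⟨M, hbd⟩
    set X1 := sSup S with hX1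
    have hX21 : X2 ≤ X1 := le_csSup hbdd ⟨hX2, fun h => h.2 (hX2b h.1)⟩
    have hX1m : V s0 < X1 := lt_of_lt_of_le hX2 hX21
    have habove : ∀ X, X1 < X → V1 (lo X) ≠ 0 ∧ V1 (hi X) ≠ 0 := by
      intro X hX
      by_contra hc
      have : X ≤ X1 := le_csSup hbdd ⟨hX1m.trans hX, hc⟩
      linarith
    have hWX1 := hW X1 hX1m
    have hirr : V1 (lo X1) = 0 ∨ V1 (hi X1) = 0 := by
      by_contra hc
      push Not at hc
      obtain ⟨-, ⟨c, δ, hc0, hδ, h⟩, -⟩ := hLOW hWIN α β V V1 w u hP s0 X1 (lo X1) (hi X1) hWX1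
        hc.1 hc.2
      obtain ⟨X, hXS, hXl⟩ := exists_lt_of_lt_csSup hne (show X1 - δ < X1 by linarith)
      have hXle : X ≤ X1 := le_csSup hbdd hXS
      have h2 := h X (lo X) (hi X) (by rw [abs_lt]; constructor <;> linarith) (hW X hXS.1)
      exact hXS.2 ⟨h2.2.1.ne, h2.2.2.ne'⟩
    have hW' : ∀ X, X1 < X → Win α β V s0 X (lo X) (hi X) := fun X hX => hW X (hX1m.trans hX)
    have hcont := REG_.cont hWIN hLOW hJCT α β V V1 w u u hP hP.cu s0 lo hi X1 hW' habove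
    obtain ⟨c, hc⟩ := hCST X1 _ E hE hcont (by
      intro X hX hXE
      exact (hrat X hXE (lo X) (hi X) (hW' X hX) (habove X hX).1 (habove X hX).2).1)
    obtain ⟨η, hη, h⟩ := hIRR hWIN α β V V1 w u hP s0 X1 (lo X1) (hi X1) hWX1 hirr c
    have hX : X1 < X1 + η / 2 := by linarith
    have hWη := hW' _ hX
    have hsub : Icc (lo (X1 + η / 2)) (hi (X1 + η / 2)) ⊆ Ioo α β := by
      intro s hs
      exact ⟨lt_of_lt_of_le hWη.ha hs.1, lt_of_le_of_lt hs.2 hWη.hb⟩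
    have hlt : lo (X1 + η / 2) < hi (X1 + η / 2) := hWη.as.trans hWη.sb
    have hint := (hINT (lo (X1 + η / 2)) (hi (X1 + η / 2)) (X1 + η / 2) V w u hlt
      (fun s hs => ((hP.dV s (hsub hs)).continuousAt).continuousWithinAt)
      (hP.cw.mono (hsub.trans Ioo_subset_Icc_self)) (hP.cu.mono hsub)
      (fun s hs => hP.pw s (Ioo_subset_Icc_self (hsub hs))) hWη.Va hWη.Vb hWη.lt
      ⟨_, hP.dV _ (hsub ⟨le_rfl, hlt.le⟩), (habove _ hX).1⟩
      ⟨_, hP.dV _ (hsub ⟨hlt.le, le_rfl⟩), (habove _ hX).2⟩).2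
    have h3 := h (X1 + η / 2) _ _ hX (by linarith) hWη hint
    have h4 := hc (X1 + η / 2) hX
    linarith
  refine ⟨?_, ?_⟩
  · intro X a b hab
    have hX := hWX X a b hab
    obtain ⟨h1, h2⟩ := huniq X a b (lo X) (hi X) hab (hW X hX)
    have h3 := hreg X hX
    rw [← h1, ← h2] at h3
    exact (hLOW hWIN α β V V1 w u hP s0 X a b hab h3.1 h3.2).1
  · have hcont := REG_.cont hWIN hLOW hJCT α β V V1 w u g hP hg s0 lo hi (V s0) hW hreg
    obtain ⟨c, hc⟩ := hCST (V s0) _ E hE hcont (by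
      intro X hX hXE
      exact (hrat X hXE (lo X) (hi X) (hW X hX) (hreg X hX).1 (hreg X hX).2).2)
    refine ⟨c, ?_⟩
    intro X a b hab
    have hX := hWX X a b hab
    obtain ⟨h1, h2⟩ := huniq X a b (lo X) (hi X) hab (hW X hX)
    have h4 := hc X hX
    rw [h1, h2]
    exact h4

end Pool.Agent.USP
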