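import Pool.Agent.USP.Targets

/-!
# USP: sublevel sets are intervals if all levels are regular
-/

set_option autoImplicit false

open Set Filter Topology MeasureTheory
open scoped ContDiff

namespace Pool.Agent.USP
open Pool.Agent.MSup

theorem p_SUB : T_SUB := by
  intro hW α β V V1 w u hV s0 hs0 hreg X a b hab s hs hsX
  obtain ⟨hW1, -, -⟩ := hW α β V V1 w u hV s0 hs0
  have hs0X : V s0 < X := hab.lt s0 ⟨hab.as, hab.sb⟩
  have hcont : ∀ x ∈ Ioo α β, ContinuousAt V x := fun x hx => (hV.dV x hx).continuousAt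
  constructor
  · by_contra hcon
    have hsa : s ≤ a := not_lt.1 hcon
    have hss : s ≤ s0 := hsa.trans hab.as.le
    have hsub : Icc s s0 ⊆ Ioo α β := fun x hx =>
      ⟨hs.1.trans_le hx.1, hx.2.trans_lt hs0.2⟩
    obtain ⟨c, hc, hcm⟩ := isCompact_Icc.exists_isMaxOn (nonempty_Icc.2 hss)
      (fun x hx => (hcont x (hsub hx)).continuousWithinAt)
    have hXm : X ≤ V c := by
      have h := hcm (show a ∈ Icc s s0 from ⟨hsa, hab.as.le⟩)
      rw [← hab.Va]
      exact h
    obtain ⟨a', b', hw⟩ := hW1 (V c) (hs0X.trans_le hXm)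
    have h1 : s ≤ a' := by
      by_contra h
      have h2 := hw.lt c ⟨(not_le.1 h).trans_le hc.1, hc.2.trans_lt hw.sb⟩
      exact lt_irrefl _ h2
    have h2 : s < a' := by
      refine lt_of_le_of_ne h1 fun h => ?_
      have := hw.Va
      rw [← h] at this
      linarith
    have h3 : IsLocalMax V a' := by
      filter_upwards [Ioo_mem_nhds h2 hw.as] with x hx
      rw [hw.Va]
      exact hcm ⟨hx.1.le, hx.2.le⟩
    have h4 := h3.hasDerivAt_eq_zero (hV.dV a' (hsub ⟨h1, hw.as.le⟩))
    have h5 := (hreg _ a' b' hw).1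
    linarith
  · by_contra hcon
    have hsb : b ≤ s := not_lt.1 hcon
    have hss : s0 ≤ s := hab.sb.le.trans hsb
    have hsub : Icc s0 s ⊆ Ioo α β := fun x hx =>
      ⟨hs0.1.trans_le hx.1, hx.2.trans_lt hs.2⟩
    obtain ⟨c, hc, hcm⟩ := isCompact_Icc.exists_isMaxOn (nonempty_Icc.2 hss)
      (fun x hx => (hcont x (hsub hx)).continuousWithinAt)
    have hXm : X ≤ V c := by
      have h := hcm (show b ∈ Icc s0 s from ⟨hab.sb.le, hsb⟩)
      rw [← hab.Vb]
      exact h
    obtain ⟨a', b', hw⟩ := hW1 (V c) (hs0X.trans_le hXm)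
    have h1 : b' ≤ s := by
      by_contra h
      have h2 := hw.lt c ⟨hw.as.trans_le hc.1, hc.2.trans_lt (not_le.1 h)⟩
      exact lt_irrefl _ h2
    have h2 : b' < s := by
      refine lt_of_le_of_ne h1 fun h => ?_
      have := hw.Vb
      rw [h] at this
      linarith
    have h3 : IsLocalMax V b' := by
      filter_upwards [Ioo_mem_nhds hw.sb h2] with x hx
      rw [hw.Vb]
      exact hcm ⟨hx.1.le, hx.2.le⟩
    have h4 := h3.hasDerivAt_eq_zero (hV.dV b' (hsub ⟨hw.sb.le, h1⟩))
    have h5 := (hreg _ a' b' hw).2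
    linarith

end Pool.Agent.USP
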