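import Pool.Agent.USP.Targets

/-!
# USP, target WIN: windows of the potential
-/

set_option autoImplicit false

open Set Filter Topology

namespace Pool.Agent.USP

theorem WIN_.right {V : ℝ → ℝ} {s0 β X : ℝ} (h : s0 < β) (hc : ContinuousOn V (Ico s0 β))
    (h0 : V s0 < X) (ht : Tendsto V (𝓝[<] β) atTop) :
    ∃ b, s0 < b ∧ b < β ∧ V b = X ∧ ∀ s ∈ Ico s0 b, V s < X := by
  obtain ⟨t, htX, hts, htβ⟩ : ∃ t, X < V t ∧ s0 < t ∧ t < β := by
    have h1 : ∀ᶠ s in 𝓝[<] β, X < V s := ht.eventually (eventually_gt_atTop X)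
    have h2 : ∀ᶠ s in 𝓝[<] β, s ∈ Ioo s0 β := Ioo_mem_nhdsLT h
    obtain ⟨t, h3, h4⟩ := (h1.and h2).exists
    exact ⟨t, h3, h4.1, h4.2⟩
  have hct : ContinuousOn V (Icc s0 t) :=
    hc.mono fun s hs => ⟨hs.1, lt_of_le_of_lt hs.2 htβ⟩
  set S : Set ℝ := Icc s0 t ∩ V ⁻¹' Ici X with hS
  have hScl : IsClosed S := hct.preimage_isClosed_of_isClosed isClosed_Icc isClosed_Ici
  have hSc : IsCompact S := isCompact_Icc.of_isClosed_subset hScl inter_subset_left
  have hSne : S.Nonempty := ⟨t, ⟨hts.le, le_rfl⟩, htX.le⟩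
  obtain ⟨⟨hb1, hb2⟩, hb3⟩ := hSc.sInf_mem hSne
  set b := sInf S with hb
  have hb3' : X ≤ V b := hb3
  have hlt : ∀ s ∈ Ico s0 b, V s < X := by
    intro s hs
    by_contra hcon
    push Not at hcon
    have : s ∈ S := ⟨⟨hs.1, hs.2.le.trans hb2⟩, hcon⟩
    exact absurd (csInf_le hSc.bddBelow this) (not_le.mpr hs.2)
  have hs0b : s0 < b := by
    rcases lt_or_eq_of_le hb1 with h1 | h1
    · exact h1
    · rw [← h1] at hb3'
      exact absurd h0 (not_lt.mpr hb3')
  refine ⟨b, hs0b, lt_of_le_of_lt hb2 htβ, ?_, hlt⟩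
  by_contra hne
  have hgt : X < V b := lt_of_le_of_ne hb3' (Ne.symm hne)
  have hcb : ContinuousOn V (Icc s0 b) := hct.mono fun s hs => ⟨hs.1, hs.2.trans hb2⟩
  obtain ⟨s, hs, hsX⟩ := intermediate_value_Ioo hs0b.le hcb ⟨h0, hgt⟩
  have := hlt s ⟨hs.1.le, hs.2⟩
  rw [hsX] at this
  exact lt_irrefl _ this

theorem p_WIN : T_WIN := by
  intro α β V V1 w u hP s0 hs0
  have hcV : ContinuousOn V (Ioo α β) := fun s hs => (hP.dV s hs).continuousAt.continuousWithinAt
  refine ⟨?_, ?_, ?_⟩
  · intro X hX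
    obtain ⟨b, hb1, hb2, hb3, hb4⟩ := WIN_.right hs0.2
      (hcV.mono fun s hs => ⟨lt_of_lt_of_le hs0.1 hs.1, hs.2⟩) hX hP.tr
    have hneg : Tendsto (fun s : ℝ => V (-s)) (𝓝[<] (-α)) atTop := by
      apply hP.tl.comp
      have h1 : Tendsto (fun s : ℝ => -s) (𝓝 (-α)) (𝓝 α) := by
        have := (continuous_neg (G := ℝ)).tendsto (-α)
        simpa using this
      refine tendsto_nhdsWithin_of_tendsto_nhds_of_eventually_within _
        (h1.mono_left nhdsWithin_le_nhds) ?_
      filter_upwards [self_mem_nhdsWithin] with s hs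
      have : s < -α := hs
      show α < -s
      linarith
    obtain ⟨a, ha1, ha2, ha3, ha4⟩ := WIN_.right (V := fun s => V (-s)) (s0 := -s0) (β := -α)
      (X := X) (by linarith [hs0.1])
      (hcV.comp continuous_neg.continuousOn fun s hs => by
        have h1 := hs.1
        have h2 := hs.2
        have h3 := hs0.2
        exact ⟨by linarith, by linarith⟩)
      (by simpa using hX) hneg
    refine ⟨-a, b, ⟨by linarith, by linarith, hb1, hb2, ha3, hb3, ?_⟩⟩
    intro s hs
    rcases le_or_gt s0 s with h | h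
    · exact hb4 s ⟨h, hs.2⟩
    · have := ha4 (-s) ⟨by linarith, by linarith [hs.1]⟩
      simpa using this
  · intro X X' a b a' b' hXX h h'
    constructor
    · by_contra hcon
      push Not at hcon
      rcases lt_or_eq_of_le hcon with h1 | h1
      · have h2 := h.lt a' ⟨h1, h'.as.trans h.sb⟩
        rw [h'.Va] at h2
        linarith
      · have h2 := h.Va
        rw [h1, h'.Va] at h2
        linarith
    · by_contra hcon
      push Not at hcon
      rcases lt_or_eq_of_le hcon with h1 | h1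
      · have h2 := h.lt b' ⟨h.as.trans h'.sb, h1⟩
        rw [h'.Vb] at h2
        linarith
      · have h2 := h.Vb
        rw [← h1, h'.Vb] at h2
        linarith
  · intro X a b a' b' h h'
    have key : ∀ a b a' b' : ℝ, Win α β V s0 X a b → Win α β V s0 X a' b' →
        a' ≤ a ∧ b ≤ b' := by
      intro a b a' b' h h'
      constructor
      · by_contra hcon
        push Not at hcon
        have h2 := h.lt a' ⟨hcon, h'.as.trans h.sb⟩
        rw [h'.Va] at h2
        exact lt_irrefl _ h2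
      · by_contra hcon
        push Not at hcon
        have h2 := h.lt b' ⟨h.as.trans h'.sb, hcon⟩
        rw [h'.Vb] at h2
        exact lt_irrefl _ h2
    have h1 := key a b a' b' h h'
    have h2 := key a' b' a b h' h
    exact ⟨le_antisymm h2.1 h1.1, le_antisymm h1.2 h2.2⟩

end Pool.Agent.USP
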