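import Pool.Agent.USP.Targets

/-!
# USP, PER: the orbit after one period
-/

set_option autoImplicit false

open Set Filter Topology MeasureTheory
open scoped ContDiff

namespace Pool.Agent.USP
open Pool.Agent.MSup

namespace PER_

/-- a continuous function which is constant inside of an interval -/
theorem const_of_Ioo {f : ℝ → ℝ} {a b : ℝ} (hab : a < b) (hf : ContinuousOn f (Icc a b))
    (h : ∀ s ∈ Ioo a b, ∀ t ∈ Ioo a b, f s = f t) :
    ∀ s ∈ Icc a b, ∀ t ∈ Icc a b, f s = f t := by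
  have hcl : closure (Ioo a b) = Icc a b := closure_Ioo hab.ne
  have hm : (a + b) / 2 ∈ Ioo a b := ⟨by linarith, by linarith⟩
  have key : ∀ s ∈ Icc a b, f s = f ((a + b) / 2) := by
    intro s hs
    have hne : (𝓝[Ioo a b] s).NeBot := by
      rw [← mem_closure_iff_nhdsWithin_neBot, hcl]
      exact hs
    have h1 : Tendsto f (𝓝[Ioo a b] s) (𝓝 (f s)) :=
      (hf s hs).mono_left (nhdsWithin_mono s Ioo_subset_Icc_self)
    have h2 : Tendsto f (𝓝[Ioo a b] s) (𝓝 (f ((a + b) / 2))) := by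
      refine tendsto_const_nhds.congr' ?_
      filter_upwards [self_mem_nhdsWithin] with t ht
      exact h _ hm t ht
    exact tendsto_nhds_unique h1 h2
  intro s hs t ht
  rw [key s hs, key t ht]

section
variable {β : Type} [Fintype β]

theorem cont_om (R : Fr β) {S : Set ℝ} {a b : ℝ → ℝ} (ha : ContinuousOn a S)
    (hb : ContinuousOn b S) : ContinuousOn (fun s => R.om (a s) (b s)) S := by
  have hJ : Continuous R.J := R.J.continuous_of_finiteDimensional
  have hca : ContinuousOn (fun s => Real.cos (a s)) S := Real.continuous_cos.comp_continuousOn ha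
  have hsa : ContinuousOn (fun s => Real.sin (a s)) S := Real.continuous_sin.comp_continuousOn ha
  have hcb : ContinuousOn (fun s => Real.cos (b s)) S := Real.continuous_cos.comp_continuousOn hb
  have hsb : ContinuousOn (fun s => Real.sin (b s)) S := Real.continuous_sin.comp_continuousOn hb
  have hy : ContinuousOn (fun s => Real.cos (a s) • R.w + Real.sin (a s) • R.v) S :=
    (hca.smul continuousOn_const).add (hsa.smul continuousOn_const)
  have hJy := hJ.comp_continuousOn hy
  exact (hcb.smul hy).add (hsb.smul hJy)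

theorem cont_om' (R : Fr β) {S : Set ℝ} {a b : ℝ → ℝ} (ha : ContinuousOn a S)
    (hb : ContinuousOn b S) : ContinuousOn (fun s => R.om' (a s) (b s)) S := by
  have hJ : Continuous R.J := R.J.continuous_of_finiteDimensional
  have hca : ContinuousOn (fun s => Real.cos (a s)) S := Real.continuous_cos.comp_continuousOn ha
  have hsa : ContinuousOn (fun s => Real.sin (a s)) S := Real.continuous_sin.comp_continuousOn ha
  have hcb : ContinuousOn (fun s => Real.cos (b s)) S := Real.continuous_cos.comp_continuousOn hb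
  have hsb : ContinuousOn (fun s => Real.sin (b s)) S := Real.continuous_sin.comp_continuousOn hb
  have hy : ContinuousOn (fun s => -Real.sin (a s) • R.w + Real.cos (a s) • R.v) S :=
    (hsa.neg.smul continuousOn_const).add (hca.smul continuousOn_const)
  have hJy := hJ.comp_continuousOn hy
  exact (hcb.smul hy).add (hsb.smul hJy)

theorem cont_Psi (R : Fr β) {S : Set ℝ} {a b p : ℝ → ℝ} (L : ℝ) (hS : ∀ s ∈ S, Real.sin s ≠ 0)
    (ha : ContinuousOn a S) (hb : ContinuousOn b S) (hp : ContinuousOn p S) :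
    ContinuousOn (fun s => R.Psi s (a s) (b s) (p s) L) S := by
  have h1 := cont_om R ha hb
  have h2 := cont_om' R ha hb
  have h1' : ∀ i, ContinuousOn (fun s => R.om (a s) (b s) i) S := continuousOn_pi.1 h1
  have h2' : ∀ i, ContinuousOn (fun s => R.om' (a s) (b s) i) S := continuousOn_pi.1 h2
  have hs : ContinuousOn Real.sin S := Real.continuous_sin.continuousOn
  have hc : ContinuousOn Real.cos S := Real.continuous_cos.continuousOn
  have hd : ContinuousOn (fun s => L / Real.sin s) S := continuousOn_const.div hs hS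
  refine ContinuousOn.prodMk ?_ ?_
  · refine continuousOn_pi.2 fun o => ?_
    cases o with
    | none => exact hc
    | some i => exact hs.mul (h1' i)
  · refine continuousOn_pi.2 fun o => ?_
    cases o with
    | none => exact (hp.mul hs).neg
    | some i => exact ((hp.mul hc).mul (h1' i)).add (hd.mul (h2' i))

theorem cont_F (R : Fr β) {F : Ph β → ℝ} (hF : PolyInMomenta F) {S : Set ℝ} {a b p : ℝ → ℝ}
    {L : ℝ} (hmem : ∀ s a b p : ℝ, R.Psi s a b p L ∈ TS (Option β))
    (hS : ∀ s ∈ S, Real.sin s ≠ 0)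
    (ha : ContinuousOn a S) (hb : ContinuousOn b S) (hp : ContinuousOn p S) :
    ContinuousOn (fun s => F (R.Psi s (a s) (b s) (p s) L)) S := by
  have h1 : (fun s => F (R.Psi s (a s) (b s) (p s) L)) =
      fun s => lift F (R.Psi s (a s) (b s) (p s) L) := by
    funext s
    rw [lift_eq (hmem _ _ _ _)]
  rw [h1]
  intro s hs
  have h2 : ContinuousAt (lift F) (R.Psi s (a s) (b s) (p s) L) :=
    (contDiffAt_lift hF (TS_pos (hmem _ _ _ _))).continuousAt
  exact ContinuousAt.comp_continuousWithinAt (g := lift F) h2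
    (cont_Psi R L hS ha hb hp s hs)

end

end PER_

open PER_ in
theorem p_PER : T_PER := by
  intro hBRA hINT hORT hMEM hDER β _ _ R H D hR F hF hI L X s0 s1 s2 hW hd1 hd2 x y
  have hpi := Real.pi_pos
  have h12 : s1 < s2 := hW.as.trans hW.sb
  have hsub : Icc s1 s2 ⊆ Ioo 0 Real.pi := fun s hs =>
    ⟨hW.ha.trans_le hs.1, hs.2.trans_lt hW.hb⟩
  have hs0 : s0 ∈ Ioo 0 Real.pi := hsub ⟨hW.as.le, hW.sb.le⟩
  -- continuity
  have cw : ContinuousOn D.w (Ioo 0 Real.pi) := fun s hs =>
    (hR.sw s hs).continuousAt.continuousWithinAt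
  have cu : ContinuousOn D.u (Ioo 0 Real.pi) := fun s hs =>
    (hR.su s hs).continuousAt.continuousWithinAt
  have cc : ContinuousOn D.c (Ioo 0 Real.pi) := fun s hs =>
    (hR.sc s hs).continuousAt.continuousWithinAt
  have ch : ContinuousOn D.h (Ioo 0 Real.pi) := fun s hs =>
    (hR.sh s hs).continuousAt.continuousWithinAt
  have hw0 : ∀ s ∈ Ioo 0 Real.pi, D.w s ≠ 0 := fun s hs => (hR.pw s hs).ne'
  have cct : ContinuousOn D.ct (Ioo 0 Real.pi) := cc.sub ((ch.pow 2).div cw hw0)
  have cV : ContinuousOn (D.V R.k L) (Ioo 0 Real.pi) :=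
    continuousOn_const.mul (cu.add (continuousOn_const.mul cct))
  have csg : ContinuousOn (D.sg R.k L X) (Ioo 0 Real.pi) :=
    (cw.mul (continuousOn_const.sub cV)).sqrt
  have cpp : ∀ ε : ℝ, ContinuousOn (D.pp R.k L X ε) (Ioo 0 Real.pi) := fun ε =>
    ((ch.mul continuousOn_const).neg.add (continuousOn_const.mul csg)).div cw hw0
  have hlt : ∀ s ∈ Ioo s1 s2, D.V R.k L s < X := hW.lt
  have hsg : ∀ s ∈ Ioo s1 s2, D.sg R.k L X s ≠ 0 := by
    intro s hs
    refine (Real.sqrt_pos.2 ?_).ne'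
    exact mul_pos (hR.pw s (hsub (Ioo_subset_Icc_self hs))) (sub_pos.2 (hlt s hs))
  have hV1 : ∃ V1 : ℝ, HasDerivAt (D.V R.k L) V1 s1 ∧ V1 ≠ 0 :=
    ⟨_, (differentiableAt_of_deriv_ne_zero hd1).hasDerivAt, hd1⟩
  have hV2 : ∃ V2 : ℝ, HasDerivAt (D.V R.k L) V2 s2 ∧ V2 ≠ 0 :=
    ⟨_, (differentiableAt_of_deriv_ne_zero hd2).hasDerivAt, hd2⟩
  -- primitives of `g / σ`
  have hprim : ∀ g : ℝ → ℝ, ContinuousOn g (Ioo 0 Real.pi) →
      ContinuousOn (fun s => ∫ t in s1..s, g t / √(D.w t * (X - D.V R.k L t))) (Icc s1 s2) ∧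
      ∀ s ∈ Ioo s1 s2, HasDerivAt (fun s => ∫ t in s1..s, g t / √(D.w t * (X - D.V R.k L t)))
        (g s / D.sg R.k L X s) s := by
    intro g hg
    have hint := (hINT s1 s2 X (D.V R.k L) D.w g h12 (cV.mono hsub) (cw.mono hsub) (hg.mono hsub)
      (fun s hs => hR.pw s (hsub hs)) hW.Va hW.Vb hlt hV1 hV2).2
    constructor
    · have h1 := intervalIntegral.continuousOn_primitive_interval' hint
        (left_mem_uIcc (a := s1) (b := s2))
      rw [uIcc_of_le h12.le] at h1
      exact h1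
    · intro s hs
      have hc : ContinuousOn (fun t => g t / √(D.w t * (X - D.V R.k L t))) (Ioo s1 s2) := by
        have hss : Ioo s1 s2 ⊆ Ioo 0 Real.pi := Ioo_subset_Icc_self.trans hsub
        exact (hg.mono hss).div (csg.mono hss) hsg
      have hii : IntervalIntegrable (fun t => g t / √(D.w t * (X - D.V R.k L t))) volume s1 s := by
        refine hint.mono_set ?_
        rw [uIcc_of_le h12.le, uIcc_of_le hs.1.le]
        exact Icc_subset_Icc_right hs.2.le
      exact intervalIntegral.integral_hasDerivAt_right hii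
        (hc.stronglyMeasurableAtFilter isOpen_Ioo s hs) (hc.continuousAt (isOpen_Ioo.mem_nhds hs))
  obtain ⟨cA, dA⟩ := hprim (fun s => D.u s * L) (cu.mul continuousOn_const)
  obtain ⟨cB, dB⟩ := hprim (fun s => D.ct s * (R.k * L)) (cct.mul continuousOn_const)
  set A : ℝ → ℝ := fun s => ∫ t in s1..s, D.u t * L / √(D.w t * (X - D.V R.k L t)) with hA
  set B : ℝ → ℝ := fun s => ∫ t in s1..s, D.ct t * (R.k * L) / √(D.w t * (X - D.V R.k L t))
    with hB
  have hA1 : A s1 = 0 := by simp only [hA, intervalIntegral.integral_same]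
  have hB1 : B s1 = 0 := by simp only [hB, intervalIntegral.integral_same]
  -- the primitive of `h / w`
  have chw : ContinuousOn (fun t => D.h t / D.w t) (Ioo 0 Real.pi) := ch.div cw hw0
  obtain ⟨G, hG⟩ : ∃ G : ℝ → ℝ, G = fun s => ∫ t in s0..s, D.h t / D.w t := ⟨_, rfl⟩
  have hG0 : G s0 = 0 := by rw [hG]; exact intervalIntegral.integral_same
  have dG : ∀ s ∈ Ioo 0 Real.pi, HasDerivAt G (D.h s / D.w s) s := by
    intro s hs
    rw [hG]
    have hii : IntervalIntegrable (fun t => D.h t / D.w t) volume s0 s := by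
      refine (chw.mono ?_).intervalIntegrable
      exact (ordConnected_Ioo.uIcc_subset hs0 hs)
    exact intervalIntegral.integral_hasDerivAt_right hii
      (chw.stronglyMeasurableAtFilter isOpen_Ioo s hs) (chw.continuousAt (isOpen_Ioo.mem_nhds hs))
  have cG : ContinuousOn G (Icc s1 s2) := fun s hs =>
    (dG s (hsub hs)).continuousAt.continuousWithinAt
  have hmem : ∀ s a b p : ℝ, R.Psi s a b p L ∈ TS (Option β) := fun s a b p =>
    (hMEM hORT β R s a b p L).1
  have hsin : ∀ s ∈ Icc s1 s2, Real.sin s ≠ 0 := fun s hs =>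
    (Real.sin_pos_of_mem_Ioo (hsub hs)).ne'
  -- branches
  have hbr : ∀ ε : ℝ, (ε = 1 ∨ ε = -1) → ∀ x' y' : ℝ, ∀ s ∈ Icc s1 s2, ∀ t ∈ Icc s1 s2,
      F (R.Psi s (x' + ε * A s) (y' + ε * B s + G s) (D.pp R.k L X ε s) L) =
      F (R.Psi t (x' + ε * A t) (y' + ε * B t + G t) (D.pp R.k L X ε t) L) := by
    intro ε hε x' y'
    refine const_of_Ioo (f := fun s => F (R.Psi s (x' + ε * A s) (y' + ε * B s + G s)
      (D.pp R.k L X ε s) L)) h12 ?_ ?_
    · exact cont_F R hF hmem hsin (continuousOn_const.add (continuousOn_const.mul cA))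
        ((continuousOn_const.add (continuousOn_const.mul cB)).add cG) ((cpp ε).mono hsub)
    · refine hBRA hORT hMEM hDER β R H D hR F hF hI L X ε hε s1 s2 hW.ha.le hW.hb.le hlt
        (fun s => x' + ε * A s) (fun s => y' + ε * B s + G s) ?_ ?_
      · intro s hs
        exact ((dA s hs).const_mul ε).const_add x'
      · intro s hs
        exact (((dB s hs).const_mul ε).const_add y').add (dG s (hsub (Ioo_subset_Icc_self hs)))
  -- the ends
  have hpe : ∀ s, D.V R.k L s = X → D.pp R.k L X 1 s = D.pp R.k L X (-1) s := by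
    intro s hs
    have : D.sg R.k L X s = 0 := by
      rw [Rd.sg, hs, sub_self, mul_zero, Real.sqrt_zero]
    simp only [Rd.pp, this, mul_zero]
  have m0 : s0 ∈ Icc s1 s2 := ⟨hW.as.le, hW.sb.le⟩
  have m1 : s1 ∈ Icc s1 s2 := left_mem_Icc.2 h12.le
  have m2 : s2 ∈ Icc s1 s2 := right_mem_Icc.2 h12.le
  have hJA : JJ (D.V R.k L) D.w (fun s => D.u s * L) X s1 s2 = A s2 := rfl
  have hJB : JJ (D.V R.k L) D.w (fun s => D.ct s * (R.k * L)) X s1 s2 = B s2 := rfl
  rw [hJA, hJB]
  have e1 := hbr 1 (Or.inl rfl) (x - A s0) (y - B s0) s0 m0 s2 m2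
  have e2 := hbr (-1) (Or.inr rfl) (x - A s0 + 2 * A s2) (y - B s0 + 2 * B s2) s2 m2 s1 m1
  have e3 := hbr 1 (Or.inl rfl) (x - A s0 + 2 * A s2) (y - B s0 + 2 * B s2) s1 m1 s0 m0
  rw [hG0] at e1 e3
  rw [hA1, hB1, ← hpe s1 hW.Va, ← hpe s2 hW.Vb] at e2
  rw [hA1, hB1] at e3
  have a1 : x - A s0 + 1 * A s0 = x := by ring
  have a2 : y - B s0 + 1 * B s0 + 0 = y := by ring
  have a3 : x - A s0 + 2 * A s2 + 1 * A s0 = x + 2 * A s2 := by ring
  have a4 : y - B s0 + 2 * B s2 + 1 * B s0 + 0 = y + 2 * B s2 := by ring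
  have a5 : x - A s0 + 2 * A s2 + -1 * A s2 = x - A s0 + 1 * A s2 := by ring
  have a6 : y - B s0 + 2 * B s2 + -1 * B s2 + G s2 = y - B s0 + 1 * B s2 + G s2 := by ring
  have a7 : x - A s0 + 2 * A s2 + -1 * 0 = x - A s0 + 2 * A s2 + 1 * 0 := by ring
  have a8 : y - B s0 + 2 * B s2 + -1 * 0 + G s1 = y - B s0 + 2 * B s2 + 1 * 0 + G s1 := by ring
  rw [a1, a2] at e1
  rw [a3, a4] at e3
  rw [a5, a6, a7, a8] at e2
  rw [e1, e2, e3]

end Pool.Agent.USP
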