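import Pool.Agent.USP.Targets

/-!
# Block POL: polynomial dependence on `p` of the derivative along the torus
-/

set_option autoImplicit false

open Set Filter Topology MeasureTheory
open scoped ContDiff

namespace Pool.Agent.USP
open Pool.Agent.MSup

namespace POL_

/-- `f` is a polynomial function -/
def IsP (f : ℝ → ℝ) : Prop := ∃ q : Polynomial ℝ, ∀ p : ℝ, f p = q.eval p

theorem isP_const (c : ℝ) : IsP fun _ => c := ⟨Polynomial.C c, fun p => by simp⟩

theorem isP_id : IsP fun p => p := ⟨Polynomial.X, fun p => by simp⟩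

theorem isP_add {f g : ℝ → ℝ} (hf : IsP f) (hg : IsP g) : IsP fun p => f p + g p := by
  obtain ⟨q, hq⟩ := hf
  obtain ⟨r, hr⟩ := hg
  exact ⟨q + r, fun p => by simp only [hq, hr, Polynomial.eval_add]⟩

theorem isP_mul {f g : ℝ → ℝ} (hf : IsP f) (hg : IsP g) : IsP fun p => f p * g p := by
  obtain ⟨q, hq⟩ := hf
  obtain ⟨r, hr⟩ := hg
  exact ⟨q * r, fun p => by simp only [hq, hr, Polynomial.eval_mul]⟩

theorem isP_affine (a b : ℝ) : IsP fun p => a * p + b :=
  isP_add (isP_mul (isP_const a) isP_id) (isP_const b)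

theorem isP_sum {ι : Type*} (s : Finset ι) {f : ι → ℝ → ℝ} (hf : ∀ i ∈ s, IsP (f i)) :
    IsP fun p => ∑ i ∈ s, f i p := by
  classical
  induction s using Finset.induction_on with
  | empty => simpa using isP_const 0
  | insert a s ha ih =>
    simp_rw [Finset.sum_insert ha]
    exact isP_add (hf a (Finset.mem_insert_self a s))
      (ih fun i hi => hf i (Finset.mem_insert_of_mem hi))

theorem isP_prod {ι : Type*} (s : Finset ι) {f : ι → ℝ → ℝ} (hf : ∀ i ∈ s, IsP (f i)) :
    IsP fun p => ∏ i ∈ s, f i p := by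
  classical
  induction s using Finset.induction_on with
  | empty => simpa using isP_const 1
  | insert a s ha ih =>
    simp_rw [Finset.prod_insert ha]
    exact isP_mul (hf a (Finset.mem_insert_self a s))
      (ih fun i hi => hf i (Finset.mem_insert_of_mem hi))

variable {β : Type} [Fintype β] (R : Fr β)

theorem isP_snd (s L : ℝ) (o : Option β) : IsP fun p => (R.Psi s 0 0 p L).2 o := by
  cases o with
  | none =>
    have h := isP_affine (-Real.sin s) 0
    refine ⟨h.choose, fun p => ?_⟩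
    rw [← h.choose_spec p]
    simp only [Fr.Psi, Fr.Pm, Option.elim]
    ring
  | some i =>
    have h := isP_affine (Real.cos s * R.om 0 0 i) (L / Real.sin s * R.om' 0 0 i)
    refine ⟨h.choose, fun p => ?_⟩
    rw [← h.choose_spec p]
    simp only [Fr.Psi, Fr.Pm, Option.elim]
    ring

theorem isP_dsnd (s L da db : ℝ) (o : Option β) :
    IsP fun p => (R.dPsi s 0 0 p L 0 da db 0).2 o := by
  cases o with
  | none =>
    have h := isP_const 0
    refine ⟨h.choose, fun p => ?_⟩
    rw [← h.choose_spec p]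
    simp only [Fr.dPsi, Option.elim]
    ring
  | some i =>
    have h := isP_affine (Real.cos s * da * R.om' 0 0 i + Real.cos s * db * R.J (R.om 0 0) i)
      (-(L / Real.sin s * da) * R.om 0 0 i + L / Real.sin s * db * R.J (R.om' 0 0) i)
    refine ⟨h.choose, fun p => ?_⟩
    rw [← h.choose_spec p]
    simp only [Fr.dPsi, Option.elim]
    ring

end POL_

open POL_ in
theorem p_POL : T_POL := by
  intro hDER hORT hMEM β _ _ R s L hs F hF da db
  have hF' := hF
  obtain ⟨d, K, hK, hFK⟩ := hF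
  have hmem : ∀ a b p, R.Psi s a b p L ∈ TS (Option β) := fun a b p => (hMEM hORT β R s a b p L).1
  have hcurve : ∀ p, HasDerivAt (fun t : ℝ => R.Psi s (t * da) (t * db) p L)
      (R.dPsi s 0 0 p L 0 da db 0) 0 := by
    intro p
    have h := hDER β R L (fun _ => s) (fun t => t * da) (fun t => t * db) (fun _ => p) 0 da db 0 0
      (hasDerivAt_const _ _) (by simpa using (hasDerivAt_id (0 : ℝ)).mul_const da)
      (by simpa using (hasDerivAt_id (0 : ℝ)).mul_const db) (hasDerivAt_const _ _) hs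
    simpa using h
  have h1 : ∀ p, HasDerivAt (fun t : ℝ => lift F (R.Psi s (t * da) (t * db) p L))
      (fderiv ℝ (lift F) (R.Psi s 0 0 p L) (R.dPsi s 0 0 p L 0 da db 0)) 0 := by
    intro p
    have h4 : HasFDerivAt (lift F) (fderiv ℝ (lift F) (R.Psi s 0 0 p L))
        (R.Psi s (0 * da) (0 * db) p L) := by
      rw [zero_mul, zero_mul]
      exact ((contDiffAt_lift hF' (TS_pos (hmem 0 0 p))).differentiableAt (by simp)).hasFDerivAt
    exact HasFDerivAt.comp_hasDerivAt (l := lift F) (0 : ℝ) h4 (hcurve p)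
  have h2 : ∀ p, (fun t : ℝ => lift F (R.Psi s (t * da) (t * db) p L)) = fun t : ℝ =>
      ∑ k ∈ Finset.range (d + 1), ∑ i : Fin k → Option β,
        K k i (R.Psi s (t * da) (t * db) p L).1 *
          ∏ j, (R.Psi s (t * da) (t * db) p L).2 (i j) := fun p => funext fun t => by
    rw [lift_eq (hmem _ _ _), hFK _ (hmem _ _ _)]
  have h3 : ∀ p, HasDerivAt (fun t : ℝ =>
      ∑ k ∈ Finset.range (d + 1), ∑ i : Fin k → Option β,
        K k i (R.Psi s (t * da) (t * db) p L).1 * ∏ j, (R.Psi s (t * da) (t * db) p L).2 (i j))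
      (∑ k ∈ Finset.range (d + 1), ∑ i : Fin k → Option β,
        (fderiv ℝ (K k i) (R.X s 0 0) (R.dPsi s 0 0 0 L 0 da db 0).1 *
            ∏ j, (R.Psi s 0 0 p L).2 (i j) +
          K k i (R.X s 0 0) * ∑ j, (∏ l ∈ Finset.univ.erase j, (R.Psi s 0 0 p L).2 (i l)) *
            (R.dPsi s 0 0 p L 0 da db 0).2 (i j))) 0 := by
    intro p
    refine HasDerivAt.fun_sum fun k _ => HasDerivAt.fun_sum fun i _ => ?_
    have hc1 : HasDerivAt (fun t : ℝ => (R.Psi s (t * da) (t * db) p L).1)
        (R.dPsi s 0 0 p L 0 da db 0).1 0 := (hcurve p).fst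
    have hc2 : HasDerivAt (fun t : ℝ => (R.Psi s (t * da) (t * db) p L).2)
        (R.dPsi s 0 0 p L 0 da db 0).2 0 := (hcurve p).snd
    have hk : HasDerivAt (fun t : ℝ => K k i (R.Psi s (t * da) (t * db) p L).1)
        (fderiv ℝ (K k i) (R.X s 0 0) (R.dPsi s 0 0 0 L 0 da db 0).1) 0 := by
      have h4 : HasFDerivAt (K k i) (fderiv ℝ (K k i) (R.X s 0 0))
          (R.Psi s (0 * da) (0 * db) p L).1 := by
        rw [zero_mul, zero_mul]
        exact ((hK k i).differentiable (by simp) (R.X s 0 0)).hasFDerivAt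
      exact HasFDerivAt.comp_hasDerivAt (l := K k i) (0 : ℝ) h4 hc1
    have hprod : HasDerivAt (fun t : ℝ => ∏ j, (R.Psi s (t * da) (t * db) p L).2 (i j))
        (∑ j, (∏ l ∈ Finset.univ.erase j, (R.Psi s 0 0 p L).2 (i l)) *
            (R.dPsi s 0 0 p L 0 da db 0).2 (i j)) 0 := by
      have h5 := HasDerivAt.fun_finsetProd (u := (Finset.univ : Finset (Fin k)))
        (f := fun j t => (R.Psi s (t * da) (t * db) p L).2 (i j))
        (f' := fun j => (R.dPsi s 0 0 p L 0 da db 0).2 (i j)) (x := (0 : ℝ))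
        (fun j _ => (hasDerivAt_pi.1 hc2) (i j))
      simpa using h5
    have h6 := hk.fun_mul hprod
    have e : R.Psi s (0 * da) (0 * db) p L = R.Psi s 0 0 p L := by rw [zero_mul, zero_mul]
    rw [e] at h6
    exact h6
  have h5 : ∀ p, fderiv ℝ (lift F) (R.Psi s 0 0 p L) (R.dPsi s 0 0 p L 0 da db 0) =
      ∑ k ∈ Finset.range (d + 1), ∑ i : Fin k → Option β,
        (fderiv ℝ (K k i) (R.X s 0 0) (R.dPsi s 0 0 0 L 0 da db 0).1 *
            ∏ j, (R.Psi s 0 0 p L).2 (i j) +
          K k i (R.X s 0 0) * ∑ j, (∏ l ∈ Finset.univ.erase j, (R.Psi s 0 0 p L).2 (i l)) *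
            (R.dPsi s 0 0 p L 0 da db 0).2 (i j)) := by
    intro p
    have h6 := h1 p
    rw [h2 p] at h6
    exact h6.unique (h3 p)
  have h7 : IsP fun p => ∑ k ∈ Finset.range (d + 1), ∑ i : Fin k → Option β,
        (fderiv ℝ (K k i) (R.X s 0 0) (R.dPsi s 0 0 0 L 0 da db 0).1 *
            ∏ j, (R.Psi s 0 0 p L).2 (i j) +
          K k i (R.X s 0 0) * ∑ j, (∏ l ∈ Finset.univ.erase j, (R.Psi s 0 0 p L).2 (i l)) *
            (R.dPsi s 0 0 p L 0 da db 0).2 (i j)) := by
    refine isP_sum _ fun k _ => isP_sum _ fun i _ => ?_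
    refine isP_add (isP_mul (isP_const _) (isP_prod _ fun j _ => isP_snd R s L _)) ?_
    refine isP_mul (isP_const _) (isP_sum _ fun j _ => ?_)
    exact isP_mul (isP_prod _ fun l _ => isP_snd R s L _) (isP_dsnd R s L da db _)
  obtain ⟨q, hq⟩ := h7
  exact ⟨q, fun p => by rw [h5 p]; exact hq p⟩

end Pool.Agent.USP
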