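import Pool.Agent.USP.Targets

/-!
# USP: positivity of the coefficients
-/

set_option autoImplicit false

open Set Filter Topology MeasureTheory
open scoped ContDiff

namespace Pool.Agent.USP
open Pool.Agent.MSup

namespace PSD_

variable {β : Type} [Fintype β]

theorem comm (x y : β → ℝ) : ip x y = ip y x := by
  unfold ip
  exact Finset.sum_congr rfl fun i _ => mul_comm _ _

theorem smul_l (c : ℝ) (x y : β → ℝ) : ip (c • x) y = c * ip x y := by
  simp only [ip, Pi.smul_apply, smul_eq_mul, Finset.mul_sum, mul_assoc]

theorem smul_r (c : ℝ) (x y : β → ℝ) : ip x (c • y) = c * ip x y := by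
  rw [comm, smul_l, comm]

theorem opt (x y : Option β → ℝ) : ip x y = x none * y none + ip (zc x) (zc y) := by
  simp only [ip, zc, Fintype.sum_option]

/-- the point with the given components -/
def mk (t : ℝ) (v : β → ℝ) : Option β → ℝ := fun o => o.elim t v

omit [Fintype β] in
theorem mk_none (t : ℝ) (v : β → ℝ) : mk t v none = t := rfl

omit [Fintype β] in
theorem zc_mk (t : ℝ) (v : β → ℝ) : zc (mk t v) = v := rfl

theorem pos {e : β → ℝ} (he : e ≠ 0) : 0 < ip e e := by
  obtain ⟨i, hi⟩ := Function.ne_iff.1 he
  unfold ip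
  exact Finset.sum_pos' (fun j _ => mul_self_nonneg _)
    ⟨i, Finset.mem_univ _, mul_self_pos.2 hi⟩

theorem exists_orth (a b : β → ℝ) (h : 3 ≤ Fintype.card β) :
    ∃ e : β → ℝ, e ≠ 0 ∧ ip a e = 0 ∧ ip b e = 0 := by
  let f : (β → ℝ) →ₗ[ℝ] (Fin 2 → ℝ) :=
    { toFun := fun e => ![ip a e, ip b e]
      map_add' := by
        intro x y
        ext i
        fin_cases i <;> simp [ip, mul_add, Finset.sum_add_distrib]
      map_smul' := by
        intro c x
        ext i
        fin_cases i <;> simp [smul_r] }
  have hk : LinearMap.ker f ≠ ⊥ := by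
    apply LinearMap.ker_ne_bot_of_finrank_lt
    simp only [Module.finrank_fintype_fun_eq_card, Fintype.card_fin]
    omega
  obtain ⟨e, he, he0⟩ := Submodule.exists_mem_ne_zero_of_ne_bot hk
  have h1 : f e = 0 := he
  refine ⟨e, he0, ?_, ?_⟩
  · exact congrFun h1 0
  · exact congrFun h1 1

end PSD_

open PSD_ in
/-- positivity of the coefficients -/
theorem p_PSD : T_PSD := by
  intro β _ _ J P Q S W hJ _ hc hpos
  obtain ⟨i⟩ : Nonempty β := by
    rw [← Fintype.card_pos_iff]
    omega
  set w : β → ℝ := Pi.single i 1 with hw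
  have hww : ip w w = 1 := by
    simp [ip, hw, Pi.single_apply]
  have hJw : ip (J w) w = 0 := by
    have h1 := hJ w w
    rw [comm w (J w)] at h1
    linarith
  constructor
  · intro t ht
    obtain ⟨e, he, h1, h2⟩ := exists_orth w (J w) hc
    have hr : √(1 - t ^ 2) ^ 2 = 1 - t ^ 2 := by
      apply Real.sq_sqrt
      nlinarith [ht.1, ht.2]
    have hz : ((mk t (√(1 - t ^ 2) • w), mk 0 e) : Ph β) ∈ TS (Option β) := by
      refine ⟨?_, ?_⟩
      · rw [opt]
        simp only [mk_none, zc_mk, smul_l, smul_r, hww]
        linear_combination hr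
      · rw [opt]
        simp only [mk_none, zc_mk, smul_l, h1]
        ring
    have hne : ((mk t (√(1 - t ^ 2) • w), mk 0 e) : Ph β).2 ≠ 0 := by
      intro h
      apply he
      funext i
      exact congrFun h (some i)
    have h3 := hpos _ hz hne
    have hk : kap J ((mk t (√(1 - t ^ 2) • w), mk 0 e) : Ph β) = 0 := by
      unfold kap
      simp only [zc_mk, map_smul, smul_l, h2, mul_zero]
    unfold usHam at h3
    rw [hk] at h3
    simp only [mk_none, zc_mk] at h3
    have h4 := pos he
    have h5 : 0 < P t * ip e e := by nlinarith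
    exact (pos_iff_pos_of_mul_pos h5).2 h4
  · intro s
    have hcs := Real.sin_sq_add_cos_sq s
    have hz : ((mk (Real.cos s) (Real.sin s • w), mk (-Real.sin s) (Real.cos s • w)) : Ph β) ∈
        TS (Option β) := by
      refine ⟨?_, ?_⟩
      · rw [opt]
        simp only [mk_none, zc_mk, smul_l, smul_r, hww]
        linear_combination hcs
      · rw [opt]
        simp only [mk_none, zc_mk, smul_l, smul_r, hww]
        ring
    have hne : ((mk (Real.cos s) (Real.sin s • w),
        mk (-Real.sin s) (Real.cos s • w)) : Ph β).2 ≠ 0 := by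
      intro h
      have h1 : mk (-Real.sin s) (Real.cos s • w) = 0 := h
      have h2 : ip (mk (-Real.sin s) (Real.cos s • w)) (mk (-Real.sin s) (Real.cos s • w)) = 1 := by
        rw [opt]
        simp only [mk_none, zc_mk, smul_l, smul_r, hww]
        linear_combination hcs
      rw [h1] at h2
      simp [ip] at h2
    have h3 := hpos _ hz hne
    have hk : kap J ((mk (Real.cos s) (Real.sin s • w),
        mk (-Real.sin s) (Real.cos s • w)) : Ph β) = 0 := by
      unfold kap
      simp only [zc_mk, map_smul, smul_l, smul_r, hJw, mul_zero]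
    unfold usHam at h3
    rw [hk] at h3
    simp only [mk_none, zc_mk, smul_l, smul_r, hww] at h3
    linarith

end Pool.Agent.USP
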