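import Pool.Agent.USP.Targets

/-!
# COF: Gram determinant, independence for all but finitely many `p`
-/

set_option autoImplicit false

open Set Filter Topology MeasureTheory
open scoped ContDiff

namespace Pool.Agent.USP

/-- the matrix at the point `p` -/
noncomputable def COF_.M {r N : ℕ} (D : Fin r → Fin N → Polynomial ℝ) (p : ℝ) :
    Matrix (Fin r) (Fin N) ℝ := fun j i => (D j i).eval p

/-- the Gram matrix -/
noncomputable def COF_.G {r N : ℕ} (D : Fin r → Fin N → Polynomial ℝ) :
    Matrix (Fin r) (Fin r) (Polynomial ℝ) := fun j l => ∑ i, D j i * D l i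

theorem COF_.eval_det {r N : ℕ} (D : Fin r → Fin N → Polynomial ℝ) (p : ℝ) :
    (COF_.G D).det.eval p = (COF_.M D p * (COF_.M D p).transpose).det := by
  have h := RingHom.map_det (Polynomial.evalRingHom p) (COF_.G D)
  rw [Polynomial.coe_evalRingHom] at h
  rw [h]
  congr 1
  ext j l
  rw [Matrix.mul_apply]
  show (Polynomial.evalRingHom p) (∑ i, D j i * D l i) = ∑ i, (D j i).eval p * (D l i).eval p
  rw [map_sum]
  refine Finset.sum_congr rfl fun i _ => ?_
  rw [map_mul]
  rfl

theorem COF_.det_ne_iff {r N : ℕ} (D : Fin r → Fin N → Polynomial ℝ) (p : ℝ) :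
    (COF_.G D).det.eval p ≠ 0 ↔
      ∀ v : Fin r → ℝ, v ≠ 0 → ∃ i, ∑ j, v j * (D j i).eval p ≠ 0 := by
  rw [COF_.eval_det]
  set M := COF_.M D p with hM
  have hv : ∀ (v : Fin r → ℝ) (i : Fin N), (Matrix.vecMul v M) i = ∑ j, v j * (D j i).eval p := by
    intro v i
    rfl
  constructor
  · intro h v hv0
    by_contra hcon
    push Not at hcon
    apply hv0
    apply Matrix.eq_zero_of_vecMul_eq_zero h
    rw [← Matrix.vecMul_vecMul]
    have h1 : Matrix.vecMul v M = 0 := by
      funext i
      rw [hv]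
      exact hcon i
    rw [h1, Matrix.zero_vecMul]
  · intro h hdet
    obtain ⟨v, hv0, hv1⟩ := Matrix.exists_vecMul_eq_zero_iff.mpr hdet
    obtain ⟨i, hi⟩ := h v hv0
    have h2 : ∑ i, (Matrix.vecMul v M i) * (Matrix.vecMul v M i) = 0 := by
      have h3 : Matrix.vecMul (Matrix.vecMul v M) M.transpose = 0 := by
        rw [Matrix.vecMul_vecMul]
        exact hv1
      have h4 : (Matrix.vecMul v M) ⬝ᵥ (Matrix.vecMul v M) =
          (Matrix.vecMul (Matrix.vecMul v M) M.transpose) ⬝ᵥ v := by
        rw [Matrix.vecMul_transpose, dotProduct_comm (Matrix.mulVec M _) v, Matrix.dotProduct_mulVec]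
      rw [h3, zero_dotProduct] at h4
      exact h4
    have h5 := (Finset.sum_eq_zero_iff_of_nonneg
      (fun i _ => mul_self_nonneg (Matrix.vecMul v M i))).mp h2 i (Finset.mem_univ i)
    rw [mul_self_eq_zero, hv] at h5
    exact hi h5

theorem p_COF : T_COF := by
  intro r N D p0 h0
  have h1 := (COF_.det_ne_iff D p0).mpr h0
  have h2 : (COF_.G D).det ≠ 0 := by
    intro h
    rw [h, Polynomial.eval_zero] at h1
    exact h1 rfl
  refine ⟨((COF_.G D).det.roots.toFinset : Set ℝ), Finset.finite_toSet _, fun p hp => ?_⟩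
  refine (COF_.det_ne_iff D p).mp fun h => hp ?_
  rw [Finset.mem_coe, Multiset.mem_toFinset, Polynomial.mem_roots h2]
  exact h

end Pool.Agent.USP
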