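import Pool.Agent.USP.Targets

/-!
# The torus lemma: invariance under a translation gives rational angles
-/

set_option autoImplicit false

open Set Filter Topology MeasureTheory
open scoped ContDiff

namespace Pool.Agent.USP

namespace RAT_

/-- the group of the periods -/
def per {r N : ℕ} (f : Fin N → (Fin r → ℝ) → ℝ) : AddSubgroup (Fin r → ℝ) where
  carrier := {w | ∀ i θ, f i (θ + w) = f i θ}
  zero_mem' := by
    intro i θ
    rw [add_zero]
  add_mem' := by
    intro a b ha hb i θ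
    rw [← add_assoc, hb, ha]
  neg_mem' := by
    intro a ha i θ
    have := ha i (θ + -a)
    rw [← this, neg_add_cancel_right]

theorem mem_per {r N : ℕ} (f : Fin N → (Fin r → ℝ) → ℝ) (w : Fin r → ℝ) :
    w ∈ per f ↔ ∀ i θ, f i (θ + w) = f i θ := Iff.rfl

/-- returns to `0` of the multiples of `A` modulo the lattice -/
theorem ret {r : ℕ} (A : Fin r → ℝ) (U : Set (Fin r → ℝ)) (hU : U ∈ 𝓝 (0 : Fin r → ℝ)) :
    ∃ (m : ℕ) (l : Fin r → ℤ), 1 ≤ m ∧
      (m • A - ∑ j, l j • (Pi.single j (2 * Real.pi) : Fin r → ℝ)) ∈ U := by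
  set y : ℕ → Fin r → ℝ := fun n j => 2 * Real.pi * Int.fract (n * A j / (2 * Real.pi)) with hy
  have hpi : 0 < 2 * Real.pi := by positivity
  have hmem : ∀ n, y n ∈ Icc (0 : Fin r → ℝ) (fun _ => 2 * Real.pi) := by
    intro n
    constructor
    · intro j
      exact mul_nonneg hpi.le (Int.fract_nonneg _)
    · intro j
      have h1 := (Int.fract_lt_one (n * A j / (2 * Real.pi))).le
      have h2 := mul_le_mul_of_nonneg_left h1 hpi.le
      simpa [hy] using h2
  obtain ⟨a, -, φ, hφ, hlim⟩ := isCompact_Icc.tendsto_subseq hmem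
  have h1 : Tendsto (fun n => y (φ (n + 1)) - y (φ n)) atTop (𝓝 0) := by
    have h2 := (hlim.comp (tendsto_add_atTop_nat 1)).sub hlim
    rw [sub_self] at h2
    exact h2
  obtain ⟨n, hn⟩ := (h1.eventually hU).exists
  have hlt : φ n < φ (n + 1) := hφ (Nat.lt_succ_self n)
  refine ⟨φ (n + 1) - φ n, fun j => ⌊(φ (n + 1) : ℝ) * A j / (2 * Real.pi)⌋ -
    ⌊(φ n : ℝ) * A j / (2 * Real.pi)⌋, by omega, ?_⟩
  have hn' : y (φ (n + 1)) - y (φ n) ∈ U := hn
  convert hn' using 1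
  ext j
  have e1 : (∑ k, (⌊(φ (n + 1) : ℝ) * A k / (2 * Real.pi)⌋ -
      ⌊(φ n : ℝ) * A k / (2 * Real.pi)⌋) • (Pi.single k (2 * Real.pi) : Fin r → ℝ)) j =
      ((⌊(φ (n + 1) : ℝ) * A j / (2 * Real.pi)⌋ -
      ⌊(φ n : ℝ) * A j / (2 * Real.pi)⌋ : ℤ) : ℝ) * (2 * Real.pi) := by
    rw [Finset.sum_apply, Finset.sum_eq_single j]
    · rw [Pi.smul_apply, Pi.single_eq_same, zsmul_eq_mul]
    · intro b _ hb
      rw [Pi.smul_apply, Pi.single_eq_of_ne (Ne.symm hb), smul_zero]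
    · intro h
      exact absurd (Finset.mem_univ j) h
  rw [Pi.sub_apply, e1, Pi.smul_apply, nsmul_eq_mul, Nat.cast_sub hlt.le, Pi.sub_apply]
  simp only [hy]
  have f1 := Int.floor_add_fract ((φ (n + 1) : ℝ) * A j / (2 * Real.pi))
  have f2 := Int.floor_add_fract ((φ n : ℝ) * A j / (2 * Real.pi))
  have g1 : (φ (n + 1) : ℝ) * A j = (2 * Real.pi) * ((φ (n + 1) : ℝ) * A j / (2 * Real.pi)) := by
    field_simp
  have g2 : (φ n : ℝ) * A j = (2 * Real.pi) * ((φ n : ℝ) * A j / (2 * Real.pi)) := by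
    field_simp
  push_cast
  linear_combination g1 - g2 + (-(2 * Real.pi)) * f1 + (2 * Real.pi) * f2

end RAT_

open RAT_ in
theorem p_RAT : T_RAT := by
  intro r N f A hd hp hA hinj j0
  by_contra hq
  set F : (Fin r → ℝ) → (Fin N → ℝ) := fun v i => f i v with hF
  set Φ : (Fin r → ℝ) →L[ℝ] (Fin N → ℝ) :=
    ContinuousLinearMap.pi fun i => fderiv ℝ (f i) 0 with hΦ
  have hder : HasFDerivAt F Φ 0 := by
    rw [hasFDerivAt_pi]
    intro i
    exact (hd i).hasFDerivAt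
  have hker : LinearMap.ker (Φ : (Fin r → ℝ) →ₗ[ℝ] (Fin N → ℝ)) = ⊥ := by
    rw [LinearMap.ker_eq_bot']
    intro v hv
    by_contra hne
    obtain ⟨i, hi⟩ := hinj v hne
    apply hi
    exact congrFun hv i
  obtain ⟨K, hK, hanti⟩ := LinearMap.exists_antilipschitzWith _ hker
  have hb : ∃ C, AntilipschitzWith C Φ := ⟨K, hanti⟩
  have hne : ∀ᶠ z in 𝓝[≠] (0 : Fin r → ℝ), F z ≠ F 0 := hder.eventually_ne hb
  rw [eventually_nhdsWithin_iff] at hne
  obtain ⟨m, l, hm, hml⟩ := ret A _ hne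
  set v : Fin r → ℝ := m • A - ∑ j, l j • (Pi.single j (2 * Real.pi) : Fin r → ℝ) with hv
  have hvper : v ∈ per f := by
    refine (per f).sub_mem ((per f).nsmul_mem (fun i θ => hA i θ) m) ?_
    exact (per f).sum_mem fun j _ => (per f).zsmul_mem (fun i θ => hp i θ j) _
  have hFv : F v = F 0 := by
    funext i
    have := hvper i 0
    rw [zero_add] at this
    exact this
  refine hml ?_ hFv
  intro h0
  rw [mem_singleton_iff] at h0
  apply hq
  have h1 : v j0 = 0 := by rw [h0]; rfl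
  have e1 : (∑ k, l k • (Pi.single k (2 * Real.pi) : Fin r → ℝ)) j0 =
      (l j0 : ℝ) * (2 * Real.pi) := by
    rw [Finset.sum_apply, Finset.sum_eq_single j0]
    · rw [Pi.smul_apply, Pi.single_eq_same, zsmul_eq_mul]
    · intro b _ hb
      rw [Pi.smul_apply, Pi.single_eq_of_ne (Ne.symm hb), smul_zero]
    · intro h
      exact absurd (Finset.mem_univ j0) h
  rw [hv, Pi.sub_apply, e1, Pi.smul_apply, nsmul_eq_mul] at h1
  refine ⟨2 * (l j0 : ℚ) / (m : ℚ), ?_⟩
  have hm0 : (m : ℝ) ≠ 0 := by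
    have : m ≠ 0 := by omega
    exact_mod_cast this
  push_cast
  field_simp
  linarith

end Pool.Agent.USP
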