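import Pool.Agent.USP.Targets

/-!
# USP, LFT: the derivative of `lift H` on the cotangent bundle of the sphere
-/

set_option autoImplicit false

open Set Filter Topology MeasureTheory
open scoped ContDiff

namespace Pool.Agent.USP
open Pool.Agent.MSup

namespace LFT_

variable {ι : Type} [Fintype ι]

theorem ip_comm (x y : ι → ℝ) : ip x y = ip y x := by
  simp only [ip]
  exact Finset.sum_congr rfl fun i _ => mul_comm _ _

theorem der_ip (x y a b : ι → ℝ) :
    HasDerivAt (fun t : ℝ => ip (x + t • a) (y + t • b)) (ip x b + ip a y) 0 := by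
  have h : (fun t : ℝ => ip (x + t • a) (y + t • b)) =
      fun t => ip x y + (t * (ip x b + ip a y) + t ^ 2 * ip a b) := by
    funext t
    simp only [ip_add_left, ip_add_right, ip_smul_left, ip_smul_right]
    ring
  rw [h]
  have h1 : HasDerivAt (fun t : ℝ => t * (ip x b + ip a y)) (1 * (ip x b + ip a y)) 0 :=
    (hasDerivAt_id' (0 : ℝ)).mul_const (ip x b + ip a y)
  have h2 : HasDerivAt (fun t : ℝ => t ^ 2 * ip a b) ((2 : ℕ) * (0 : ℝ) ^ (2 - 1) * ip a b) 0 :=
    (hasDerivAt_pow 2 (0 : ℝ)).mul_const (ip a b)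
  have h3 := (h1.add h2).const_add (ip x y)
  have h4 : 1 * (ip x b + ip a y) + (2 : ℕ) * (0 : ℝ) ^ (2 - 1) * ip a b = ip x b + ip a y := by
    norm_num
  rw [h4] at h3
  exact h3

theorem der_line (x a : ι → ℝ) : HasDerivAt (fun t : ℝ => x + t • a) a 0 := by
  have h := ((hasDerivAt_id' (0 : ℝ)).smul_const a).const_add x
  rw [one_smul] at h
  exact h

theorem der_toTS {z : (ι → ℝ) × (ι → ℝ)} (hz : z ∈ TS ι) (v : (ι → ℝ) × (ι → ℝ)) :
    HasDerivAt (fun t : ℝ => toTS (z + t • v)) (v.1 - ip z.1 v.1 • z.1,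
      v.2 + ip z.1 v.1 • z.2 - (ip v.1 z.2 + ip z.1 v.2) • z.1) 0 := by
  obtain ⟨hz1, hz2⟩ := hz
  have e0 : ∀ x a : ι → ℝ, x + (0 : ℝ) • a = x := fun x a => by rw [zero_smul, add_zero]
  have hN := der_ip z.1 z.1 v.1 v.1
  have hM := der_ip z.1 z.2 v.1 v.2
  have hN0 : ip (z.1 + (0 : ℝ) • v.1) (z.1 + (0 : ℝ) • v.1) = 1 := by rw [e0, hz1]
  have hM0 : ip (z.1 + (0 : ℝ) • v.1) (z.2 + (0 : ℝ) • v.2) = 0 := by rw [e0, e0, hz2]
  have hs := hN.sqrt (by rw [hN0]; exact one_ne_zero)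
  have hi := hs.inv (by rw [hN0, Real.sqrt_one]; exact one_ne_zero)
  have hd := hM.div hN (by rw [hN0]; exact one_ne_zero)
  have hx := der_line z.1 v.1
  have hp := der_line z.2 v.2
  have h1 := hi.smul hx
  have h2 := hs.smul (hp.sub (hd.smul hx))
  have h3 := h1.prodMk h2
  refine HasDerivAt.congr_deriv h3 ?_
  simp only [Pi.div_apply, Pi.inv_apply, Pi.smul_apply', Pi.sub_apply, e0, hz1, hz2,
    Real.sqrt_one]
  refine Prod.ext ?_ ?_
  · simp only
    rw [ip_comm v.1 z.1]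
    funext i
    simp only [Pi.add_apply, Pi.smul_apply, Pi.sub_apply, smul_eq_mul]
    ring
  · simp only
    rw [ip_comm v.1 z.1]
    funext i
    simp only [Pi.add_apply, Pi.smul_apply, Pi.sub_apply, smul_eq_mul]
    ring

end LFT_

open LFT_ in
theorem p_LFT : T_LFT := by
  intro ι _ _ H z v hz hH
  have hpos : 0 < ip z.1 z.1 := TS_pos hz
  have hT : DifferentiableAt ℝ (toTS (ι := ι)) z :=
    (contDiffAt_toTS hpos).differentiableAt (by simp)
  have hH' : DifferentiableAt ℝ H (toTS z) := by rw [toTS_eq hz]; exact hH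
  have hfd : fderiv ℝ (toTS (ι := ι)) z v = (v.1 - ip z.1 v.1 • z.1,
      v.2 + ip z.1 v.1 • z.2 - (ip v.1 z.2 + ip z.1 v.2) • z.1) := by
    have h1 : HasDerivAt (fun t : ℝ => z + t • v) v 0 := by
      have h := ((hasDerivAt_id' (0 : ℝ)).smul_const v).const_add z
      rw [one_smul] at h
      exact h
    have h2 : HasFDerivAt (toTS (ι := ι)) (fderiv ℝ (toTS (ι := ι)) z) (z + (0 : ℝ) • v) := by
      rw [zero_smul, add_zero]
      exact hT.hasFDerivAt
    have h3 := h2.comp_hasDerivAt (0 : ℝ) h1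
    exact h3.unique (der_toTS hz v)
  have h4 : lift H = H ∘ toTS := rfl
  rw [h4, fderiv_comp z hH' hT, ContinuousLinearMap.comp_apply, hfd, toTS_eq hz]

end Pool.Agent.USP
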