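import Pool.Agent.USP.Targets

/-!
# Block BRA: an integral is constant along one branch of the orbit
-/

set_option autoImplicit false

open Set Filter Topology MeasureTheory
open scoped ContDiff

namespace Pool.Agent.USP
open Pool.Agent.MSup

namespace BRA_

theorem dPsi_smul {β : Type} [Fintype β] (R : Fr β) (s a b p L ds da db dp r : ℝ) :
    r • R.dPsi s a b p L ds da db dp = R.dPsi s a b p L (r * ds) (r * da) (r * db) (r * dp) := by
  refine Prod.ext ?_ ?_
  · funext o
    cases o with
    | none =>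
      simp only [Fr.dPsi, Prod.smul_fst, Pi.smul_apply, Option.elim, smul_eq_mul]
      ring
    | some i =>
      simp only [Fr.dPsi, Prod.smul_fst, Pi.smul_apply, Option.elim, smul_eq_mul]
      ring
  · funext o
    cases o with
    | none =>
      simp only [Fr.dPsi, Prod.smul_snd, Pi.smul_apply, Option.elim, smul_eq_mul]
      ring
    | some i =>
      simp only [Fr.dPsi, Prod.smul_snd, Pi.smul_apply, Option.elim, smul_eq_mul]
      ring

end BRA_

open BRA_ in
/-- An integral is constant along one branch of the orbit. -/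
theorem p_BRA : T_BRA := by
  intro hORT hMEM hDER β _ _ R H D hR F hF hint L X ε hε s1 s2 hs1 hs2 hV A B hA hB
  have hεε : ε * ε = 1 := by
    rcases hε with h | h <;> rw [h] <;> norm_num
  have hε0 : ε ≠ 0 := by
    rcases hε with h | h <;> rw [h] <;> norm_num
  have hmem : ∀ s ∈ Ioo s1 s2, s ∈ Ioo 0 Real.pi := fun s hs =>
    ⟨lt_of_le_of_lt hs1 hs.1, lt_of_lt_of_le hs.2 hs2⟩
  set K : ℝ := R.k * L with hK
  set p : ℝ → ℝ := D.pp R.k L X ε with hp
  have hsgpos : ∀ s ∈ Ioo s1 s2, 0 < D.sg R.k L X s := by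
    intro s hs
    have h1 := hR.pw s (hmem s hs)
    have h2 := hV s hs
    exact Real.sqrt_pos.2 (mul_pos h1 (by linarith))
  have hsgsq : ∀ s ∈ Ioo s1 s2, D.sg R.k L X s ^ 2 = D.w s * (X - D.V R.k L s) := by
    intro s hs
    have h1 := hR.pw s (hmem s hs)
    have h2 := hV s hs
    exact Real.sq_sqrt (mul_pos h1 (by linarith)).le
  have hwp : ∀ s ∈ Ioo s1 s2, D.w s * p s + D.h s * K = ε * D.sg R.k L X s := by
    intro s hs
    have h1 := (hR.pw s (hmem s hs)).ne'
    simp only [hp, Rd.pp, ← hK]
    rw [mul_div_cancel₀ _ h1]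
    ring
  have hlev : ∀ s ∈ Ioo s1 s2,
      D.w s * p s ^ 2 + 2 * D.h s * p s * K + D.u s * L ^ 2 + D.c s * K ^ 2 = X := by
    intro s hs
    have h1 := (hR.pw s (hmem s hs)).ne'
    have h2 := hwp s hs
    have h3 := hsgsq s hs
    have h4 : (D.w s * p s + D.h s * K) ^ 2 = D.w s * (X - D.V R.k L s) := by
      rw [h2, mul_pow, h3, pow_two ε, hεε, one_mul]
    have h5 : D.V R.k L s = L ^ 2 * D.u s + K ^ 2 * D.c s - K ^ 2 * (D.h s ^ 2 / D.w s) := by
      simp only [Rd.V, Rd.ct, hK]
      ring
    have h6 : D.w s * (D.h s ^ 2 / D.w s) = D.h s ^ 2 := mul_div_cancel₀ _ h1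
    have h7 : D.w s * (D.w s * p s ^ 2 + 2 * D.h s * p s * K + D.u s * L ^ 2 + D.c s * K ^ 2) =
        D.w s * X := by
      rw [h5] at h4
      linear_combination h4 + K ^ 2 * h6
    exact mul_left_cancel₀ h1 h7
  -- the derivative vanishes
  have key : ∀ s ∈ Ioo s1 s2,
      HasDerivAt (fun t => lift F (R.Psi t (A t) (B t) (p t) L)) 0 s := by
    intro s hs
    have hs' := hmem s hs
    have hw0 := (hR.pw s hs').ne'
    have hsg := hsgpos s hs
    have dw : DifferentiableAt ℝ D.w s := (hR.sw s hs').differentiableAt (by norm_num)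
    have du : DifferentiableAt ℝ D.u s := (hR.su s hs').differentiableAt (by norm_num)
    have dc : DifferentiableAt ℝ D.c s := (hR.sc s hs').differentiableAt (by norm_num)
    have dh : DifferentiableAt ℝ D.h s := (hR.sh s hs').differentiableAt (by norm_num)
    have dV : DifferentiableAt ℝ (D.V R.k L) s := by
      unfold Rd.V Rd.ct
      exact (du.add ((dc.sub ((dh.pow 2).div dw hw0)).const_mul _)).const_mul _
    have dsg : DifferentiableAt ℝ (D.sg R.k L X) s := by
      unfold Rd.sg
      refine (dw.mul (dV.const_sub X)).sqrt ?_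
      have h1 := hR.pw s hs'
      have h2 := hV s hs
      exact (mul_pos h1 (by linarith)).ne'
    have dp : DifferentiableAt ℝ p s := by
      rw [hp]
      unfold Rd.pp
      exact ((dh.mul_const _).neg.add (dsg.const_mul ε)).div dw hw0
    have hp' : HasDerivAt p (deriv p s) s := dp.hasDerivAt
    have h1 : HasDerivAt (fun t => D.w t * p t ^ 2 + 2 * D.h t * p t * K + D.u t * L ^ 2 +
        D.c t * K ^ 2) (deriv D.w s * p s ^ 2 + D.w s * (2 * p s * deriv p s) +
        (2 * deriv D.h s * p s + 2 * D.h s * deriv p s) * K + deriv D.u s * L ^ 2 +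
        deriv D.c s * K ^ 2) s := by
      have e1 := dw.hasDerivAt.mul (hp'.pow 2)
      have e2 := ((dh.hasDerivAt.const_mul 2).mul hp').mul_const K
      have e3 := du.hasDerivAt.mul_const (L ^ 2)
      have e4 := dc.hasDerivAt.mul_const (K ^ 2)
      have e5 := ((e1.add e2).add e3).add e4
      refine e5.congr_deriv ?_
      simp only [Pi.pow_apply, Nat.cast_ofNat]
      ring
    have h2 : HasDerivAt (fun t => D.w t * p t ^ 2 + 2 * D.h t * p t * K + D.u t * L ^ 2 +
        D.c t * K ^ 2) 0 s := by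
      refine (hasDerivAt_const s X).congr_of_eventuallyEq ?_
      filter_upwards [Ioo_mem_nhds hs.1 hs.2] with t ht
      exact hlev t ht
    have h3 := h1.unique h2
    have h4 := hwp s hs
    have hεs : ε * D.sg R.k L X s ≠ 0 := mul_ne_zero hε0 hsg.ne'
    have h5 : ε * D.sg R.k L X s * deriv p s = -(deriv D.w s * p s ^ 2 +
        2 * deriv D.h s * p s * K + deriv D.u s * L ^ 2 + deriv D.c s * K ^ 2) / 2 := by
      rw [← h4]
      linear_combination (1 / 2 : ℝ) * h3
    have h6 : ε * D.sg R.k L X s * (ε * (D.u s * L / D.sg R.k L X s)) = D.u s * L := by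
      have : D.sg R.k L X s * (D.u s * L / D.sg R.k L X s) = D.u s * L :=
        mul_div_cancel₀ _ hsg.ne'
      linear_combination (ε * ε) * this + (D.u s * L) * hεε
    have h7 : ε * D.sg R.k L X s * (ε * (D.ct s * K / D.sg R.k L X s) + D.h s / D.w s) =
        D.c s * K + D.h s * p s := by
      have e1 : D.sg R.k L X s * (D.ct s * K / D.sg R.k L X s) = D.ct s * K :=
        mul_div_cancel₀ _ hsg.ne'
      have e2 : ε * D.sg R.k L X s * (D.h s / D.w s) =
          D.h s * p s + D.h s ^ 2 / D.w s * K := by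
        rw [← h4]
        field_simp
      have e3 : D.ct s = D.c s - D.h s ^ 2 / D.w s := rfl
      calc ε * D.sg R.k L X s * (ε * (D.ct s * K / D.sg R.k L X s) + D.h s / D.w s)
          = (ε * ε) * (D.sg R.k L X s * (D.ct s * K / D.sg R.k L X s)) +
            ε * D.sg R.k L X s * (D.h s / D.w s) := by ring
        _ = D.ct s * K + (D.h s * p s + D.h s ^ 2 / D.w s * K) := by
            rw [e1, e2, hεε, one_mul]
        _ = D.c s * K + D.h s * p s := by
            rw [e3]
            ring
    -- the vector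
    have hz : R.Psi s (A s) (B s) (p s) L ∈ TS (Option β) :=
      (hMEM hORT β R s (A s) (B s) (p s) L).1
    have h8 : (ε * D.sg R.k L X s) • R.dPsi s (A s) (B s) (p s) L 1
        (ε * (D.u s * L / D.sg R.k L X s))
        (ε * (D.ct s * K / D.sg R.k L X s) + D.h s / D.w s) (deriv p s) =
        XH H (R.Psi s (A s) (B s) (p s) L) := by
      rw [dPsi_smul, h5, h6, h7, hR.eq s hs', mul_one, ← hK, h4]
    have h9 : fderiv ℝ (lift F) (R.Psi s (A s) (B s) (p s) L)
        (R.dPsi s (A s) (B s) (p s) L 1 (ε * (D.u s * L / D.sg R.k L X s))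
        (ε * (D.ct s * K / D.sg R.k L X s) + D.h s / D.w s) (deriv p s)) = 0 := by
      have e1 := fderiv_XH hint hz
      rw [← h8, map_smul, smul_eq_mul] at e1
      exact (mul_eq_zero.1 e1).resolve_left hεs
    have hsin : Real.sin s ≠ 0 := (Real.sin_pos_of_pos_of_lt_pi hs'.1 hs'.2).ne'
    have h10 := hDER β R L (fun t => t) A B p 1 _ _ _ s (hasDerivAt_id s) (hA s hs) (hB s hs)
      hp' hsin
    have hpos : 0 < ip (R.Psi s (A s) (B s) (p s) L).1 (R.Psi s (A s) (B s) (p s) L).1 := by
      rw [hz.1]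
      norm_num
    have hd : DifferentiableAt ℝ (lift F) (R.Psi s (A s) (B s) (p s) L) :=
      (contDiffAt_lift hF hpos).differentiableAt (by norm_num)
    have h11 := hd.hasFDerivAt.comp_hasDerivAt s h10
    rw [h9] at h11
    exact h11
  intro s hs t ht
  have hconst := isOpen_Ioo.is_const_of_deriv_eq_zero (isPreconnected_Ioo (a := s1) (b := s2))
    (f := fun t => lift F (R.Psi t (A t) (B t) (p t) L))
    (fun r hr => (key r hr).differentiableAt.differentiableWithinAt)
    (fun r hr => (key r hr).deriv) hs ht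
  have e1 := lift_eq (F := F) ((hMEM hORT β R s (A s) (B s) (p s) L).1)
  have e2 := lift_eq (F := F) ((hMEM hORT β R t (A t) (B t) (p t) L).1)
  rw [e1, e2] at hconst
  exact hconst

end Pool.Agent.USP
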