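import Pool.Agent.USP.Conf

/-!
# CFL: conformal flatness, explicit chart
-/

set_option autoImplicit false

open Set Filter Topology
open scoped ContDiff

namespace Pool.Agent.USP
open Pool.Agent.MSup

namespace CFL_

variable {β : Type} [Fintype β]

theorem ip_comm (x y : β → ℝ) : ip x y = ip y x := by
  unfold ip
  exact Finset.sum_congr rfl fun i _ => mul_comm _ _

theorem ip_option (x y : Option β → ℝ) : ip x y = x none * y none + ip (zc x) (zc y) := by
  unfold ip zc
  rw [Fintype.sum_option]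

theorem ip_sub_left (x y z : β → ℝ) : ip (x - y) z = ip x z - ip y z := by
  rw [ip_comm, ip_sub_right, ip_comm z x, ip_comm z y]

theorem eq_zero {z : β → ℝ} (h : ip z z = 0) : z = 0 := by
  unfold ip at h
  rw [Finset.sum_eq_zero_iff_of_nonneg (fun i _ => mul_self_nonneg _)] at h
  funext i
  exact mul_self_eq_zero.1 (h i (Finset.mem_univ i))

theorem ip_zero_left (z : β → ℝ) : ip 0 z = 0 := by
  unfold ip
  simp

theorem ip_nonneg (z : β → ℝ) : 0 ≤ ip z z := Finset.sum_nonneg fun i _ => mul_self_nonneg _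

/-- the algebraic identity away from the poles -/
theorem alg {P Q S W t D A B r f w g T ε sq : ℝ} (hD : D = 1 - t ^ 2) (hw : w = P * t ^ 2 + Q * D)
    (hw0 : 0 < w) (hS : S * w = W ^ 2 * D) (hg : g = r * A - f * B) (hT : T = D * g - t * A)
    (hf : f = W / w) (hsq : sq ^ 2 = P / w) (hε : ε ^ 2 = 1)
    (hr : D * r - t = -(ε * sq)) :
    D * (P * (-2 * (t * g + A) * A + (t * g + A) ^ 2 * D) + Q * T ^ 2 + S * B ^ 2 +
      2 * W * T * B) = 0 := by
  have hw' : w ≠ 0 := hw0.ne'
  have h1 : (t * g + A) * D = t * T + A := by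
    rw [hT, hD]; ring
  have h2 : D * (P * (-2 * (t * g + A) * A + (t * g + A) ^ 2 * D) + Q * T ^ 2 + S * B ^ 2 +
      2 * W * T * B) = w * T ^ 2 - P * A ^ 2 + D * (S * B ^ 2) + 2 * (D * W * B) * T := by
    have h3 : D * (P * (-2 * (t * g + A) * A + (t * g + A) ^ 2 * D)) =
        P * (-2 * ((t * g + A) * D) * A + ((t * g + A) * D) ^ 2) := by ring
    calc D * (P * (-2 * (t * g + A) * A + (t * g + A) ^ 2 * D) + Q * T ^ 2 + S * B ^ 2 +
        2 * W * T * B) = D * (P * (-2 * (t * g + A) * A + (t * g + A) ^ 2 * D)) +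
        D * (Q * T ^ 2 + S * B ^ 2 + 2 * W * T * B) := by ring
      _ = P * (-2 * (t * T + A) * A + (t * T + A) ^ 2) +
        D * (Q * T ^ 2 + S * B ^ 2 + 2 * W * T * B) := by rw [h3, h1]
      _ = _ := by rw [hw]; ring
  have h4 : w * T = -(ε * sq) * A * w - D * W * B := by
    have : T = (D * r - t) * A - D * f * B := by rw [hT, hg]; ring
    rw [this, hr, hf]
    field_simp
  have h5 : w * (w * T ^ 2 - P * A ^ 2 + D * (S * B ^ 2) + 2 * (D * W * B) * T) = 0 := by
    have h6 : w * (w * T ^ 2 - P * A ^ 2 + D * (S * B ^ 2) + 2 * (D * W * B) * T) =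
        (w * T) ^ 2 - P * w * A ^ 2 + D * (S * w) * B ^ 2 + 2 * (D * W * B) * (w * T) := by ring
    have h7 : sq ^ 2 * w = P := by rw [hsq]; field_simp
    rw [h6, h4, hS]
    have h8 : (-(ε * sq) * A * w - D * W * B) ^ 2 - P * w * A ^ 2 + D * (W ^ 2 * D) * B ^ 2 +
        2 * (D * W * B) * (-(ε * sq) * A * w - D * W * B) =
        (ε ^ 2 * (sq ^ 2 * w) - P) * (w * A ^ 2) := by ring
    rw [h8, h7, hε]
    ring
  rw [h2]
  exact (mul_eq_zero.1 h5).resolve_left hw'

section
variable [DecidableEq β]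

/-- the projection to `ℝ^β` -/
def zL : (Option β → ℝ) →L[ℝ] (β → ℝ) :=
  ContinuousLinearMap.pi (fun i => ContinuousLinearMap.proj (some i))

theorem zL_apply (x : Option β → ℝ) : zL x = zc x := rfl

/-- the chart -/
noncomputable def ch (J : (β → ℝ) →ₗ[ℝ] (β → ℝ)) (ρ φ : ℝ → ℝ) (x : Option β → ℝ) : β → ℝ :=
  ρ (x none) • (Real.cos (φ (x none)) • zc x - Real.sin (φ (x none)) • J (zc x))

theorem ch_smooth (J : (β → ℝ) →ₗ[ℝ] (β → ℝ)) {ρ φ : ℝ → ℝ} {I : Set ℝ}
    (hρ : ContDiffOn ℝ ∞ ρ I) (hφ : ContDiffOn ℝ ∞ φ I) :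
    ContDiffOn ℝ ∞ (ch J ρ φ) {x | x none ∈ I} := by
  have hp : ContDiffOn ℝ ∞ (fun x : Option β → ℝ => x none) {x | x none ∈ I} :=
    (contDiff_apply ℝ ℝ none).contDiffOn
  have hm : MapsTo (fun x : Option β → ℝ => x none) {x | x none ∈ I} I := fun x hx => hx
  have h1 := hρ.comp hp hm
  have h2 := hφ.comp hp hm
  have h3 : ContDiffOn ℝ ∞ (fun x : Option β → ℝ => zc x) {x | x none ∈ I} :=
    (zL (β := β)).contDiff.contDiffOn
  have h4 : ContDiffOn ℝ ∞ (fun x : Option β → ℝ => J (zc x)) {x | x none ∈ I} :=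
    ((LinearMap.toContinuousLinearMap J).comp (zL (β := β))).contDiff.contDiffOn
  exact h1.smul ((h2.cos.smul h3).sub (h2.sin.smul h4))

theorem ch_deriv (J : (β → ℝ) →ₗ[ℝ] (β → ℝ)) {ρ φ : ℝ → ℝ} {x : Option β → ℝ} {ρ' φ' : ℝ}
    (hρ : HasDerivAt ρ ρ' (x none)) (hφ : HasDerivAt φ φ' (x none)) (v : Option β → ℝ) :
    fderiv ℝ (ch J ρ φ) x v =
      ρ (x none) • ((Real.cos (φ (x none)) • zc v - Real.sin (φ (x none)) • J (zc v)) +
        (v none * φ') • (-(Real.sin (φ (x none)) • zc x) - Real.cos (φ (x none)) • J (zc x))) +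
      (ρ' * v none) • (Real.cos (φ (x none)) • zc x - Real.sin (φ (x none)) • J (zc x)) := by
  have hp : HasFDerivAt (fun x : Option β → ℝ => x none)
      (ContinuousLinearMap.proj (R := ℝ) (φ := fun _ : Option β => ℝ) none) x :=
    (ContinuousLinearMap.proj (R := ℝ) (φ := fun _ : Option β => ℝ) none).hasFDerivAt
  have h1 := hρ.comp_hasFDerivAt x hp
  have h2 := hφ.cos.comp_hasFDerivAt x hp
  have h3 := hφ.sin.comp_hasFDerivAt x hp
  have h4 : HasFDerivAt (fun x : Option β → ℝ => zc x) (zL (β := β)) x :=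
    (zL (β := β)).hasFDerivAt
  have h5 : HasFDerivAt (fun x : Option β → ℝ => J (zc x))
      ((LinearMap.toContinuousLinearMap J).comp (zL (β := β))) x :=
    ((LinearMap.toContinuousLinearMap J).comp (zL (β := β))).hasFDerivAt
  have h6 := h1.smul ((h2.smul h4).sub (h3.smul h5))
  have h7 : fderiv ℝ (ch J ρ φ) x = _ := h6.fderiv
  rw [h7]
  funext i
  simp only [ContinuousLinearMap.add_apply, ContinuousLinearMap.smul_apply,
    ContinuousLinearMap.sub_apply, ContinuousLinearMap.smulRight_apply,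
    ContinuousLinearMap.comp_apply, ContinuousLinearMap.proj_apply, zL_apply,
    LinearMap.coe_toContinuousLinearMap', Pi.add_apply, Pi.smul_apply, Pi.sub_apply,
    Pi.neg_apply, smul_eq_mul, Function.comp_apply, Pi.smul_apply']
  ring

theorem zc_single_none : zc (Pi.single (none : Option β) (1 : ℝ)) = 0 := by
  funext i
  simp [zc]

theorem zc_single_some (j : β) :
    zc (Pi.single (some j : Option β) (1 : ℝ)) = Pi.single j 1 := by
  funext i
  unfold zc
  by_cases h : i = j
  · rw [h]; simp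
  · simp [h]

theorem ip_single (j : β) (x : β → ℝ) : ip (Pi.single j 1) x = x j := by
  unfold ip
  rw [Finset.sum_eq_single j]
  · simp
  · intro i _ hi
    simp [hi]
  · intro h
    exact absurd (Finset.mem_univ j) h

end

end CFL_

open CFL_ in
/-- **CFL** -/
theorem p_CFL : T_CFL := by
  intro hODE β _ _ J P Q S W hJ hJ2 hP hQ hS hW hPp hwp hSw x0 hx0
  have ht0 : x0 none ∈ Icc (-1 : ℝ) 1 := by
    rw [ip_option] at hx0
    have := ip_nonneg (zc x0)
    rw [mem_Icc]
    constructor <;> nlinarith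
  obtain ⟨ε, hε, htε⟩ : ∃ ε : ℝ, (ε = 1 ∨ ε = -1) ∧ x0 none ≠ -ε := by
    by_cases h : x0 none = -1
    · exact ⟨-1, Or.inr rfl, by rw [h]; norm_num⟩
    · exact ⟨1, Or.inl rfl, h⟩
  obtain ⟨I, ρ, φ, hI, hIm, hρ, hφ, hρ0, hd⟩ := hODE P Q W hP hQ hW hPp hwp ε hε
  refine ⟨{x | x none ∈ I}, hI.preimage (continuous_apply none), hIm _ ht0 htε, ch J ρ φ,
    fun x => P (x none) * ρ (x none) ^ 2, ch_smooth J hρ hφ, ?_, ?_⟩
  · have hp : ContDiffOn ℝ ∞ (fun x : Option β → ℝ => x none) {x | x none ∈ I} :=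
      (contDiff_apply ℝ ℝ none).contDiffOn
    have hm : MapsTo (fun x : Option β → ℝ => x none) {x | x none ∈ I} I := fun x hx => hx
    exact (hP.comp_contDiffOn hp).mul ((hρ.comp hp hm).pow 2)
  intro x hxI hx
  have hxI' : x none ∈ I := hxI
  have hzz : ip (zc x) (zc x) = 1 - x none ^ 2 := by
    rw [ip_option] at hx
    linarith
  have ht : x none ∈ Icc (-1 : ℝ) 1 := by
    have := ip_nonneg (zc x)
    rw [mem_Icc]
    constructor <;> nlinarith
  refine ⟨mul_pos (hPp _ ht) (pow_pos (hρ0 _ hxI') 2), ?_⟩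
  intro π
  obtain ⟨hφ', r, hρ', hr⟩ := hd _ ht hxI'
  set t := x none with htd
  set z := zc x with hz
  set w := P t * t ^ 2 + Q t * (1 - t ^ 2) with hw
  have hw0 : 0 < w := hwp t ht
  set c := Real.cos (φ t) with hc
  set s := Real.sin (φ t) with hs
  have hcs : c ^ 2 + s ^ 2 = 1 := Real.cos_sq_add_sin_sq _
  set A := c * ip z π - s * ip (J z) π with hA
  set B := c * ip (J z) π + s * ip z π with hB
  set g := r * A - W t / w * B with hg
  set q : Option β → ℝ := fun i => ip (fderiv ℝ (ch J ρ φ) x (Pi.single i 1)) π with hq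
  have hJJ : ∀ a b : β → ℝ, ip (J a) (J b) = ip a b := by
    intro a b
    rw [hJ, hJ2]
    unfold ip
    simp
  have hJself : ∀ a : β → ℝ, ip (J a) a = 0 := by
    intro a
    have := hJ a a
    rw [ip_comm a (J a)] at this
    linarith
  have ip_neg_left : ∀ a b : β → ℝ, ip (-a) b = -ip a b := by
    intro a b
    unfold ip
    simp
  -- the pull-back of the covector
  have hqn : q none = ρ t * g := by
    rw [hq]
    show ip (fderiv ℝ (ch J ρ φ) x (Pi.single none 1)) π = _
    rw [ch_deriv J hρ' hφ', zc_single_none, map_zero, smul_zero, smul_zero, sub_zero, zero_add,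
      Pi.single_eq_same, ip_add_left, ip_smul_left, ip_smul_left, ip_smul_left, ip_sub_left,
      ip_sub_left, ip_neg_left, ip_smul_left, ip_smul_left, ip_smul_left, ip_smul_left]
    rw [hg, hA, hB]
    ring
  have hqz : zc q = ρ t • (c • π + s • J π) := by
    funext j
    show ip (fderiv ℝ (ch J ρ φ) x (Pi.single (some j) 1)) π = _
    have e0 : (Pi.single (some j : Option β) (1 : ℝ) : Option β → ℝ) none = 0 := by simp
    rw [ch_deriv J hρ' hφ', zc_single_some, e0, zero_mul, zero_smul, add_zero, mul_zero,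
      zero_smul, add_zero, ip_smul_left, ip_sub_left, ip_smul_left, ip_smul_left, hJ, ip_single,
      ip_single]
    simp only [Pi.smul_apply, Pi.add_apply, smul_eq_mul]
    ring
  have hzq : ip z (zc q) = ρ t * A := by
    rw [hqz, ip_smul_right, ip_add_right, ip_smul_right, ip_smul_right, hA]
    have := hJ z π
    have e : ip z (J π) = -ip (J z) π := by linarith
    rw [e]
    ring
  have hJzq : ip (J z) (zc q) = ρ t * B := by
    rw [hqz, ip_smul_right, ip_add_right, ip_smul_right, ip_smul_right, hJJ, hB]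
  have hqq : ip (zc q) (zc q) = ρ t ^ 2 * ip π π := by
    rw [hqz, ip_smul_right, ip_smul_left, ip_add_right, ip_smul_right, ip_smul_right,
      ip_add_left, ip_add_left, ip_smul_left, ip_smul_left, ip_smul_left, ip_smul_left, hJJ,
      ip_comm π (J π), hJself]
    have : c * (c * ip π π + s * 0) + s * (c * 0 + s * ip π π) = ip π π := by
      have h9 : c * (c * ip π π + s * 0) + s * (c * 0 + s * ip π π) =
        (c ^ 2 + s ^ 2) * ip π π := by ring
      rw [h9, hcs, one_mul]
    rw [this]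
    ring
  set m := ip x q with hm
  have hm' : m = ρ t * (t * g + A) := by
    rw [hm, ip_option, hqn, hzq]
    ring
  set T := (1 - t ^ 2) * g - t * A with hT
  have hpn : tproj x q none = ρ t * T := by
    unfold tproj
    rw [hx, div_one]
    show q none - m * x none = _
    rw [hqn, hm', hT, ← htd]
    ring
  have hpz : zc (tproj x q) = zc q - m • z := by
    funext j
    unfold tproj
    rw [hx, div_one]
    rfl
  have hζζ : ip (zc (tproj x q)) (zc (tproj x q)) = ρ t ^ 2 * (ip π π +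
      (-2 * (t * g + A) * A + (t * g + A) ^ 2 * (1 - t ^ 2))) := by
    rw [hpz, ip_sub_right, ip_sub_left, ip_sub_left, ip_smul_left, ip_smul_right, ip_smul_right,
      ip_smul_left, hqq, ip_comm (zc q) z, hzq, hzz, hm']
    ring
  have hκ : kap J (x, tproj x q) = ρ t * B := by
    unfold kap
    show ip (J z) (zc (tproj x q)) = _
    rw [hpz, ip_sub_right, hJzq, ip_smul_right, hJself, mul_zero, sub_zero]
  have hgoal : P t * (-2 * (t * g + A) * A + (t * g + A) ^ 2 * (1 - t ^ 2)) + Q t * T ^ 2 +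
      S t * B ^ 2 + 2 * W t * T * B = 0 := by
    by_cases hD : 1 - t ^ 2 = 0
    · have hz0 : z = 0 := eq_zero (by rw [hzz, hD])
      have hA0 : A = 0 := by
        rw [hA, hz0, map_zero, ip_zero_left]
        ring
      have hB0 : B = 0 := by
        rw [hB, hz0, map_zero, ip_zero_left]
        ring
      have hg0 : g = 0 := by rw [hg, hA0, hB0]; ring
      have hT0 : T = 0 := by rw [hT, hg0, hA0]; ring
      rw [hT0, hB0, hA0, hg0]
      ring
    · have hsq : √(P t / w) ^ 2 = P t / w := Real.sq_sqrt (div_nonneg (hPp t ht).le hw0.le)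
      have hε2 : ε ^ 2 = 1 := by
        rcases hε with h | h <;> rw [h] <;> norm_num
      have h1 := alg (P := P t) (Q := Q t) (S := S t) (W := W t) (t := t) (D := 1 - t ^ 2)
        (A := A) (B := B) (r := r) (f := W t / w) (w := w) (g := g) (T := T) (ε := ε)
        (sq := √(P t / w)) rfl hw hw0 (hSw t ht) hg hT rfl hsq hε2 hr
      exact (mul_eq_zero.1 h1).resolve_left hD
  show 2 * usHam J P Q S W (x, tproj x q) = P t * ρ t ^ 2 * ip π π
  unfold usHam
  show 2 * ((P t * ip (zc (tproj x q)) (zc (tproj x q)) + Q t * tproj x q none ^ 2 +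
    S t * kap J (x, tproj x q) ^ 2) / 2 + W t * tproj x q none * kap J (x, tproj x q)) = _
  rw [hζζ, hpn, hκ]
  have h2 : 2 * ((P t * (ρ t ^ 2 * (ip π π +
      (-2 * (t * g + A) * A + (t * g + A) ^ 2 * (1 - t ^ 2)))) + Q t * (ρ t * T) ^ 2 +
      S t * (ρ t * B) ^ 2) / 2 + W t * (ρ t * T) * (ρ t * B)) =
      P t * ρ t ^ 2 * ip π π + ρ t ^ 2 * (P t * (-2 * (t * g + A) * A +
      (t * g + A) ^ 2 * (1 - t ^ 2)) + Q t * T ^ 2 + S t * B ^ 2 + 2 * W t * T * B) := by
    ring
  rw [h2, hgoal, mul_zero, add_zero]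

end Pool.Agent.USP
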