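import Pool.Agent.USP.Targets

/-!
# USP: vanishing of the coefficient of `K²`
-/

set_option autoImplicit false

open Set Filter Topology MeasureTheory
open scoped ContDiff

namespace Pool.Agent.USP
open Pool.Agent.MSup

namespace CON_

/-- the integrand of `Phi` -/
noncomputable def f (D : Rd) (X y s : ℝ) : ℝ :=
  D.ct s * √(max (X - D.u s - y * D.ct s) 0) / √(D.w s)

theorem f_cont {D : Rd} (hD : Sus D) (X y : ℝ) : ContinuousOn (f D X y) (Ioo 0 Real.pi) := by
  intro s hs
  have h1 : ContinuousAt D.ct s := (hD.sct s hs).continuousAt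
  have h2 : ContinuousAt D.u s := (hD.su s hs).continuousAt
  have h3 : ContinuousAt D.w s := (hD.sw s hs).continuousAt
  have h4 : 0 < D.w s := hD.pw s ⟨hs.1.le, hs.2.le⟩
  unfold f
  apply ContinuousAt.continuousWithinAt
  refine ContinuousAt.div (h1.mul (ContinuousAt.sqrt ?_)) h3.sqrt (Real.sqrt_pos.2 h4).ne'
  exact ((continuousAt_const.sub h2).sub (continuousAt_const.mul h1)).max continuousAt_const

theorem f_bdd {D : Rd} (hD : Sus D) (X y : ℝ) :
    ∃ M : ℝ, ∀ s ∈ Ioo 0 Real.pi, |f D X y s| ≤ M := by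
  obtain ⟨u0, hu0, hu⟩ := hD.pu
  obtain ⟨C, hC⟩ := hD.bct
  obtain ⟨s0, hs0, hmin⟩ := (isCompact_Icc (a := (0 : ℝ)) (b := Real.pi)).exists_isMinOn
    (nonempty_Icc.2 Real.pi_pos.le) hD.cw
  have hw0 : 0 < D.w s0 := hD.pw s0 hs0
  have hC0 : 0 ≤ C := (abs_nonneg _).trans
    (hC (Real.pi / 2) ⟨by linarith [Real.pi_pos], by linarith [Real.pi_pos]⟩).1
  refine ⟨C * √(|X| + |y| * C) / √(D.w s0), fun s hs => ?_⟩
  have h1 : |D.ct s| ≤ C := (hC s hs).1
  have h2 : D.w s0 ≤ D.w s := hmin ⟨hs.1.le, hs.2.le⟩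
  have h3 : 0 < D.u s := hu0.trans_le (hu s hs)
  have h4 : max (X - D.u s - y * D.ct s) 0 ≤ |X| + |y| * C := by
    apply max_le
    · have h5 : |y * D.ct s| ≤ |y| * C := by
        rw [abs_mul]
        exact mul_le_mul_of_nonneg_left h1 (abs_nonneg _)
      have h6 := neg_abs_le (y * D.ct s)
      have h7 := le_abs_self X
      linarith
    · positivity
  unfold f
  rw [abs_div, abs_mul, abs_of_nonneg (Real.sqrt_nonneg (D.w s)),
    abs_of_nonneg (Real.sqrt_nonneg (max (X - D.u s - y * D.ct s) 0))]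
  have h5 : 0 < √(D.w s0) := Real.sqrt_pos.2 hw0
  have h6 : √(D.w s0) ≤ √(D.w s) := Real.sqrt_le_sqrt h2
  have h7 := Real.sqrt_le_sqrt h4
  gcongr

theorem f_int {D : Rd} (hD : Sus D) (X y : ℝ) : IntegrableOn (f D X y) (Ioo 0 Real.pi) := by
  obtain ⟨M, hM⟩ := f_bdd hD X y
  refine Integrable.of_bound (C := M)
    ((f_cont hD X y).aestronglyMeasurable measurableSet_Ioo) ?_
  · exact (ae_restrict_iff' measurableSet_Ioo).2 (Eventually.of_forall fun s hs => by
      rw [Real.norm_eq_abs]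
      exact hM s hs)

theorem Phi_eq (D : Rd) (X y : ℝ) : Phi D.w D.u D.ct X y = ∫ s in Ioo 0 Real.pi, f D X y s := by
  unfold Phi f
  rw [intervalIntegral.integral_of_le Real.pi_pos.le, integral_Ioc_eq_integral_Ioo]

end CON_

open CON_ in
/-- vanishing of the coefficient of `K²` -/
theorem p_CON : T_CON := by
  intro D hD h0 h1 s hs
  set X : ℝ := D.u s + 1 + |D.ct s| with hX
  have e1 : ∫ t in Ioo 0 Real.pi, (f D X 0 t - f D X (1 / 4) t) = 0 := by
    rw [integral_sub (f_int hD X 0) (f_int hD X (1 / 4)), ← Phi_eq, ← Phi_eq, h0, h1, sub_zero]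
  have e2 : ∀ t : ℝ, 0 ≤ f D X 0 t - f D X (1 / 4) t := by
    intro t
    unfold f
    rw [← sub_div, ← mul_sub]
    apply div_nonneg _ (Real.sqrt_nonneg _)
    rcases le_total 0 (D.ct t) with h | h
    · apply mul_nonneg h
      rw [sub_nonneg]
      apply Real.sqrt_le_sqrt
      apply max_le_max_right
      linarith
    · apply mul_nonneg_of_nonpos_of_nonpos h
      rw [sub_nonpos]
      apply Real.sqrt_le_sqrt
      apply max_le_max_right
      linarith
  have e3 := (setIntegral_eq_zero_iff_of_nonneg_ae (Eventually.of_forall e2)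
    ((f_int hD X 0).sub (f_int hD X (1 / 4)))).1 e1
  have e4 := Measure.eqOn_open_of_ae_eq e3 isOpen_Ioo
    ((f_cont hD X 0).sub (f_cont hD X (1 / 4))) continuousOn_const
  have e5 : f D X 0 s - f D X (1 / 4) s = 0 := e4 hs
  by_contra hc
  have hw : 0 < √(D.w s) := Real.sqrt_pos.2 (hD.pw s ⟨hs.1.le, hs.2.le⟩)
  unfold f at e5
  rw [← sub_div, ← mul_sub] at e5
  rcases div_eq_zero_iff.1 e5 with h | h
  · rcases mul_eq_zero.1 h with h | h
    · exact hc h
    · have h2 : 0 ≤ X - D.u s - 0 * D.ct s := by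
        rw [hX]
        have := abs_nonneg (D.ct s)
        linarith
      have h3 : 0 ≤ X - D.u s - 1 / 4 * D.ct s := by
        rw [hX]
        have h4 := abs_nonneg (D.ct s)
        have h5 := le_abs_self (D.ct s)
        linarith
      rw [max_eq_left h2, max_eq_left h3, sub_eq_zero, Real.sqrt_inj h2 h3] at h
      apply hc
      linarith
  · exact hw.ne' h

end Pool.Agent.USP
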