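import Pool.Agent.USP.Targets

set_option autoImplicit false

open Set Filter Topology MeasureTheory
open scoped ContDiff

namespace Pool.Agent.USP
open Pool.Agent.MSup

namespace DEN_

section
variable {β : Type} [Fintype β]

/-- The square of the angular momentum. -/
def Lam (z : Ph β) : ℝ :=
  ip (zc z.1) (zc z.1) * ip (zc z.2) (zc z.2) - ip (zc z.1) (zc z.2) ^ 2

theorem cont_zc1 : Continuous (fun z : Ph β => zc z.1) := by
  unfold zc
  fun_prop

theorem cont_zc2 : Continuous (fun z : Ph β => zc z.2) := by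
  unfold zc
  fun_prop

theorem cont_ip {X : Type} [TopologicalSpace X] {f g : X → β → ℝ} (hf : Continuous f)
    (hg : Continuous g) : Continuous (fun x => ip (f x) (g x)) := by
  unfold ip
  apply continuous_finsetSum
  intro i _
  exact ((continuous_apply i).comp hf).mul ((continuous_apply i).comp hg)

theorem cont_Lam : Continuous (Lam (β := β)) := by
  unfold Lam
  exact ((cont_ip cont_zc1 cont_zc1).mul (cont_ip cont_zc2 cont_zc2)).sub
    ((cont_ip cont_zc1 cont_zc2).pow 2)

theorem cont_kap (J : (β → ℝ) →ₗ[ℝ] (β → ℝ)) : Continuous (kap J) := by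
  unfold kap
  exact cont_ip (J.continuous_of_finiteDimensional.comp cont_zc1) cont_zc2

theorem ip_option (x y : Option β → ℝ) : ip x y = x none * y none + ip (zc x) (zc y) := by
  unfold ip zc
  rw [Fintype.sum_option]

theorem Lam_Psi (hORT : T_ORT) (hMEM : T_MEM) (R : Fr β) {s p L : ℝ} (hs : Real.sin s ≠ 0) :
    Lam (R.Psi s 0 0 p L) = L ^ 2 := by
  obtain ⟨h1, h2⟩ := hMEM hORT β R s 0 0 p L
  obtain ⟨_, h3⟩ := h2 hs
  obtain ⟨h4, h5⟩ := h1
  rw [ip_option] at h4 h5
  have e1 : (R.Psi s 0 0 p L).1 none = Real.cos s := rfl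
  have e2 : (R.Psi s 0 0 p L).2 none = -(p * Real.sin s) := rfl
  rw [e1] at h4 h5
  rw [e2] at h5
  have hsc := Real.sin_sq_add_cos_sq s
  have e3 : ip (zc (R.Psi s 0 0 p L).1) (zc (R.Psi s 0 0 p L).1) = Real.sin s ^ 2 := by
    linarith
  have e4 : ip (zc (R.Psi s 0 0 p L).1) (zc (R.Psi s 0 0 p L).2) =
      Real.cos s * (p * Real.sin s) := by
    linarith
  unfold Lam
  rw [e3, e4, h3]
  field_simp
  ring

end

theorem exk {k1 ε : ℝ} (hk1 : k1 ∈ Ioo (-1 : ℝ) 1) (hε : 0 < ε) :
    ∃ k2 ∈ Ioo (-1 : ℝ) 1, k2 ≠ 0 ∧ |k2 - k1| < ε / 2 := by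
  by_cases h : k1 = 0
  · refine ⟨min (ε / 4) (1 / 2), ⟨?_, ?_⟩, ?_, ?_⟩
    · have : 0 < min (ε / 4) (1 / 2) := by positivity
      linarith
    · have := min_le_right (ε / 4) (1 / 2)
      linarith
    · have : 0 < min (ε / 4) (1 / 2) := by positivity
      exact this.ne'
    · have h1 : 0 < min (ε / 4) (1 / 2) := by positivity
      have h2 := min_le_left (ε / 4) (1 / 2)
      rw [h, sub_zero, abs_of_pos h1]
      linarith
  · exact ⟨k1, hk1, h, by simpa using hε⟩

end DEN_

/-- Density of the good points. -/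
theorem p_DEN : T_DEN := by
  intro hFRM hFEX hORT hMEM β _ _ J H D hskew hsq hcard hRed hMS
  obtain ⟨F, hP, hI, U, hU, hcl, hLI⟩ := hMS
  refine ⟨F, hP, hI, ?_⟩
  intro s1 hs1 k1 hk1 ε hε
  obtain ⟨k2, hk2, hk20, hk21⟩ := DEN_.exk hk1 hε
  obtain ⟨R', hRJ', hRk'⟩ := hFEX β J hskew hsq hcard k2 hk2
  have hred := hRed R' hRJ'
  have hw : 0 < D.w s1 := hred.pw s1 hs1
  have hsin : 0 < Real.sin s1 := Real.sin_pos_of_pos_of_lt_pi hs1.1 hs1.2
  set p' : ℝ := (1 - D.h s1 * k2) / D.w s1 with hp'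
  have hp1 : D.w s1 * p' + D.h s1 * k2 = 1 := by
    rw [hp']
    field_simp
    ring
  set z' : Ph β := R'.Psi s1 0 0 p' 1 with hz'
  obtain ⟨hzTS, hz2⟩ := hMEM hORT β R' s1 0 0 p' 1
  obtain ⟨hzk, _⟩ := hz2 hsin.ne'
  rw [← hz'] at hzTS hzk
  rw [hRJ', hRk', mul_one] at hzk
  have hzL : DEN_.Lam z' = 1 := by
    rw [hz', DEN_.Lam_Psi hORT hMEM R' hsin.ne', one_pow]
  have hz1n : z'.1 none = Real.cos s1 := rfl
  have hz2n : z'.2 none = -(p' * Real.sin s1) := rfl
  -- the functions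
  set sz : Ph β → ℝ := fun z => Real.arccos (z.1 none) with hsz
  set kz : Ph β → ℝ := fun z => kap J z / √(DEN_.Lam z) with hkz
  set pz : Ph β → ℝ := fun z => -z.2 none / Real.sin (sz z) with hpz
  set Gz : Ph β → ℝ := fun z => D.w (sz z) * pz z + D.h (sz z) * kap J z with hGz
  have hs' : sz z' = s1 := by
    rw [hsz]
    show Real.arccos (z'.1 none) = s1
    rw [hz1n, Real.arccos_cos hs1.1.le hs1.2.le]
  have hk' : kz z' = k2 := by
    rw [hkz]
    show kap J z' / √(DEN_.Lam z') = k2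
    rw [hzL, hzk, Real.sqrt_one, div_one]
  have hpz' : pz z' = p' := by
    rw [hpz]
    show -z'.2 none / Real.sin (sz z') = p'
    rw [hs', hz2n, neg_neg]
    field_simp
  have hG' : Gz z' = 1 := by
    rw [hGz]
    show D.w (sz z') * pz z' + D.h (sz z') * kap J z' = 1
    rw [hs', hpz', hzk, hp1]
  -- continuity
  have cs : Continuous sz := Real.continuous_arccos.comp
    ((continuous_apply none).comp continuous_fst)
  have ck : ContinuousAt kz z' := by
    apply ContinuousAt.div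
    · exact (DEN_.cont_kap J).continuousAt
    · exact (Real.continuous_sqrt.comp DEN_.cont_Lam).continuousAt
    · rw [hzL, Real.sqrt_one]
      exact one_ne_zero
  have cp : ContinuousAt pz z' := by
    apply ContinuousAt.div
    · exact (((continuous_apply none).comp continuous_snd).neg).continuousAt
    · exact (Real.continuous_sin.comp cs).continuousAt
    · rw [hs']
      exact hsin.ne'
  have cw : ContinuousAt (fun z => D.w (sz z)) z' := by
    have h1 : ContinuousAt D.w (sz z') := by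
      rw [hs']
      exact (hred.sw s1 hs1).continuousAt
    exact ContinuousAt.comp h1 cs.continuousAt
  have ch : ContinuousAt (fun z => D.h (sz z)) z' := by
    have h1 : ContinuousAt D.h (sz z') := by
      rw [hs']
      exact (hred.sh s1 hs1).continuousAt
    exact ContinuousAt.comp h1 cs.continuousAt
  have cG : ContinuousAt Gz z' := (cw.mul cp).add (ch.mul (DEN_.cont_kap J).continuousAt)
  -- the open conditions
  have e1 : ∀ᶠ z in 𝓝 z', |sz z - s1| < ε := by
    have h1 : Tendsto sz (𝓝 z') (𝓝 s1) := by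
      have := cs.tendsto z'
      rwa [hs'] at this
    have := h1.eventually (Metric.ball_mem_nhds s1 hε)
    filter_upwards [this] with z hz
    rw [← Real.dist_eq]
    exact hz
  have hr : 0 < min (min (ε / 2) (1 - |k2|)) |k2| := by
    apply lt_min (lt_min (by positivity) _) (abs_pos.mpr hk20)
    have : |k2| < 1 := abs_lt.mpr ⟨hk2.1, hk2.2⟩
    linarith
  have e2 : ∀ᶠ z in 𝓝 z', |kz z - k2| < min (min (ε / 2) (1 - |k2|)) |k2| := by
    have h1 : Tendsto kz (𝓝 z') (𝓝 k2) := by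
      have := ck.tendsto
      rwa [hk'] at this
    have := h1.eventually (Metric.ball_mem_nhds k2 hr)
    filter_upwards [this] with z hz
    rw [← Real.dist_eq]
    exact hz
  have e3 : ∀ᶠ z in 𝓝 z', Gz z ≠ 0 := by
    apply cG.eventually_ne
    rw [hG']
    exact one_ne_zero
  have e4 : ∀ᶠ z in 𝓝 z', 0 < DEN_.Lam z := by
    have h1 : Tendsto DEN_.Lam (𝓝 z') (𝓝 1) := by
      have := (DEN_.cont_Lam (β := β)).tendsto z'
      rwa [hzL] at this
    exact h1.eventually (lt_mem_nhds one_pos)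
  have hfr : ∃ᶠ z in 𝓝 z', z ∈ U ∩ TS (Option β) := mem_closure_iff_frequently.mp (hcl hzTS)
  obtain ⟨z, ⟨hzU, hzT⟩, h1, h2, h3, h4⟩ :=
    (hfr.and_eventually (e1.and (e2.and (e3.and e4)))).exists
  obtain ⟨R, hRJ, s, hs, p, L, hL, hzP, hcs, hL2, hRk, hps⟩ :=
    hFRM β J hskew hsq z hzT h4
  have hsin2 : 0 < Real.sin s := Real.sin_pos_of_pos_of_lt_pi hs.1 hs.2
  have es : sz z = s := by
    show Real.arccos (z.1 none) = s
    rw [← hcs, Real.arccos_cos hs.1.le hs.2.le]
  have eL : √(DEN_.Lam z) = L := by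
    have : DEN_.Lam z = L ^ 2 := hL2.symm
    rw [this, Real.sqrt_sq hL.le]
  have ek : kz z = R.k := by
    show kap J z / √(DEN_.Lam z) = R.k
    rw [eL, ← hRk]
    field_simp
  have ep : pz z = p := by
    show -z.2 none / Real.sin (sz z) = p
    rw [es, ← hps]
    field_simp
  rw [es] at h1
  rw [ek] at h2
  have h2a : |R.k - k2| < ε / 2 := lt_of_lt_of_le h2 ((min_le_left _ _).trans (min_le_left _ _))
  have h2b : |R.k - k2| < 1 - |k2| :=
    lt_of_lt_of_le h2 ((min_le_left _ _).trans (min_le_right _ _))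
  have h2c : |R.k - k2| < |k2| := lt_of_lt_of_le h2 (min_le_right _ _)
  refine ⟨R, hRJ, s, hs, p, L, hL, h1, ?_, ?_, ?_, ?_, ?_⟩
  · calc |R.k - k1| = |(R.k - k2) + (k2 - k1)| := by ring_nf
      _ ≤ |R.k - k2| + |k2 - k1| := abs_add_le _ _
      _ < ε := by linarith
  · intro h0
    rw [h0, zero_sub, abs_neg] at h2c
    exact lt_irrefl _ h2c
  · calc |R.k| = |(R.k - k2) + k2| := by ring_nf
      _ ≤ |R.k - k2| + |k2| := abs_add_le _ _
      _ < 1 := by linarith
  · have h5 : Gz z = D.w s * p + D.h s * (R.k * L) := by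
      show D.w (sz z) * pz z + D.h (sz z) * kap J z = _
      rw [es, ep, hRk]
    rw [← h5]
    exact h3
  · rw [← hzP]
    exact hLI z ⟨hzU, hzT⟩

end Pool.Agent.USP
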