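import Pool.Agent.USP.Targets

/-!
# Smoothness and derivative of the Hamiltonian `usHam`
-/

set_option autoImplicit false

open Set Filter Topology MeasureTheory
open scoped ContDiff

namespace Pool.Agent.USP
open Pool.Agent.MSup

namespace DUS_

variable {β : Type} [Fintype β]

theorem cd_none1 : ContDiff ℝ ∞ (fun z : Ph β => z.1 none) :=
  (contDiff_apply ℝ ℝ (none : Option β)).comp contDiff_fst

theorem cd_none2 : ContDiff ℝ ∞ (fun z : Ph β => z.2 none) :=
  (contDiff_apply ℝ ℝ (none : Option β)).comp contDiff_snd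

theorem cd_some2 (i : β) : ContDiff ℝ ∞ (fun z : Ph β => zc z.2 i) :=
  (contDiff_apply ℝ ℝ (some i)).comp contDiff_snd

theorem cd_zc1 : ContDiff ℝ ∞ (fun z : Ph β => zc z.1) := by
  rw [contDiff_pi]
  intro i
  exact (contDiff_apply ℝ ℝ (some i)).comp contDiff_fst

theorem cd_ip : ContDiff ℝ ∞ (fun z : Ph β => ip (zc z.2) (zc z.2)) := by
  unfold ip
  exact ContDiff.sum fun i _ => (cd_some2 i).mul (cd_some2 i)

theorem cd_kap (J : (β → ℝ) →ₗ[ℝ] (β → ℝ)) : ContDiff ℝ ∞ (kap J : Ph β → ℝ) := by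
  unfold kap ip
  refine ContDiff.sum fun i _ => ContDiff.mul ?_ (cd_some2 i)
  have h1 : ContDiff ℝ ∞ (fun y : β → ℝ => J y) :=
    (LinearMap.toContinuousLinearMap J).contDiff
  have h2 : ContDiff ℝ ∞ (fun z : Ph β => J (zc z.1)) := h1.comp cd_zc1
  exact (contDiff_apply ℝ ℝ i).comp h2

theorem cd_us (J : (β → ℝ) →ₗ[ℝ] (β → ℝ)) (P Q S W : ℝ → ℝ) (hP : ContDiff ℝ ∞ P)
    (hQ : ContDiff ℝ ∞ Q) (hS : ContDiff ℝ ∞ S) (hW : ContDiff ℝ ∞ W) :
    ContDiff ℝ ∞ (usHam J P Q S W) := by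
  unfold usHam
  have h0 : ContDiff ℝ ∞ (fun z : Ph β => z.1 none) := cd_none1
  have h1 : ContDiff ℝ ∞ (fun z : Ph β => z.2 none) := cd_none2
  have h2 : ContDiff ℝ ∞ (fun z : Ph β => ip (zc z.2) (zc z.2)) := cd_ip
  have h3 := cd_kap J
  exact ((((hP.comp h0).mul h2).add ((hQ.comp h0).mul (h1.pow 2))).add
    ((hS.comp h0).mul (h3.pow 2))).div_const 2 |>.add (((hW.comp h0).mul h1).mul h3)

theorem ip_comm (x y : β → ℝ) : ip x y = ip y x := by
  unfold ip
  exact Finset.sum_congr rfl fun i _ => mul_comm _ _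

theorem line (J : (β → ℝ) →ₗ[ℝ] (β → ℝ)) (P Q S W : ℝ → ℝ) (z v : Ph β) (t : ℝ) :
    usHam J P Q S W (z + t • v) =
      (P (z.1 none + t * v.1 none) * (ip (zc z.2) (zc z.2) + t * (2 * ip (zc z.2) (zc v.2)) +
        t ^ 2 * ip (zc v.2) (zc v.2)) + Q (z.1 none + t * v.1 none) *
          (z.2 none + t * v.2 none) ^ 2 +
        S (z.1 none + t * v.1 none) * (kap J z + t * (ip (J (zc v.1)) (zc z.2) +
          ip (J (zc z.1)) (zc v.2)) + t ^ 2 * ip (J (zc v.1)) (zc v.2)) ^ 2) / 2 +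
      W (z.1 none + t * v.1 none) * (z.2 none + t * v.2 none) *
        (kap J z + t * (ip (J (zc v.1)) (zc z.2) + ip (J (zc z.1)) (zc v.2)) +
          t ^ 2 * ip (J (zc v.1)) (zc v.2)) := by
  have e1 : (z + t • v).1 none = z.1 none + t * v.1 none := rfl
  have e2 : (z + t • v).2 none = z.2 none + t * v.2 none := rfl
  have e3 : zc (z + t • v).2 = zc z.2 + t • zc v.2 := rfl
  have e4 : zc (z + t • v).1 = zc z.1 + t • zc v.1 := rfl
  have e5 : ip (zc (z + t • v).2) (zc (z + t • v).2) = ip (zc z.2) (zc z.2) +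
      t * (2 * ip (zc z.2) (zc v.2)) + t ^ 2 * ip (zc v.2) (zc v.2) := by
    rw [e3, ip_add_left, ip_add_right, ip_add_right, ip_smul_left, ip_smul_left, ip_smul_right,
      ip_smul_right, ip_comm (zc v.2) (zc z.2)]
    ring
  have e6 : kap J (z + t • v) = kap J z + t * (ip (J (zc v.1)) (zc z.2) +
      ip (J (zc z.1)) (zc v.2)) + t ^ 2 * ip (J (zc v.1)) (zc v.2) := by
    unfold kap
    rw [e3, e4, map_add, map_smul, ip_add_left, ip_add_right, ip_add_right, ip_smul_left,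
      ip_smul_left, ip_smul_right, ip_smul_right]
    ring
  unfold usHam
  rw [e1, e2, e5, e6]

end DUS_

open DUS_ in
theorem p_DUS : T_DUS := by
  intro β _ _ J P Q S W hP hQ hS hW
  have hsm := cd_us J P Q S W hP hQ hS hW
  refine ⟨hsm, fun z v => ?_⟩
  have hd : DifferentiableAt ℝ (usHam J P Q S W) z := hsm.contDiffAt.differentiableAt (by simp)
  -- derivative along the line
  have hl : HasDerivAt (fun t : ℝ => z + t • v) v 0 := by
    have := ((hasDerivAt_id (0 : ℝ)).smul_const v).const_add z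
    simpa using this
  have h1 : HasDerivAt (fun t : ℝ => usHam J P Q S W (z + t • v))
      (fderiv ℝ (usHam J P Q S W) z v) 0 := by
    have hz : z + (0 : ℝ) • v = z := by simp
    have hf : HasFDerivAt (usHam J P Q S W) (fderiv ℝ (usHam J P Q S W) z)
        ((fun t : ℝ => z + t • v) 0) := by
      change HasFDerivAt _ _ (z + (0 : ℝ) • v)
      rw [hz]
      exact hd.hasFDerivAt
    exact hf.comp_hasDerivAt (0 : ℝ) hl
  have hx : HasDerivAt (fun t : ℝ => z.1 none + t * v.1 none) (v.1 none) 0 := by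
    simpa using ((hasDerivAt_id (0 : ℝ)).mul_const (v.1 none)).const_add (z.1 none)
  have hτ : HasDerivAt (fun t : ℝ => z.2 none + t * v.2 none) (v.2 none) 0 := by
    simpa using ((hasDerivAt_id (0 : ℝ)).mul_const (v.2 none)).const_add (z.2 none)
  have hquad : ∀ a b c : ℝ, HasDerivAt (fun t : ℝ => a + t * b + t ^ 2 * c) b 0 := by
    intro a b c
    have h2 := (((hasDerivAt_id (0 : ℝ)).mul_const b).const_add a).add
      (((hasDerivAt_id (0 : ℝ)).pow 2).mul_const c)
    exact h2.congr_deriv (by simp)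
  have hcomp : ∀ G : ℝ → ℝ, ContDiff ℝ ∞ G → HasDerivAt (fun t : ℝ => G (z.1 none + t * v.1 none))
      (deriv G (z.1 none) * v.1 none) 0 := by
    intro G hG
    have hGd : HasDerivAt G (deriv G (z.1 none)) (z.1 none + 0 * v.1 none) := by
      rw [zero_mul, add_zero]
      exact (hG.contDiffAt.differentiableAt (by simp)).hasDerivAt
    exact hGd.comp (0 : ℝ) hx
  have hN := hquad (ip (zc z.2) (zc z.2)) (2 * ip (zc z.2) (zc v.2)) (ip (zc v.2) (zc v.2))
  have hK := hquad (kap J z) (ip (J (zc v.1)) (zc z.2) + ip (J (zc z.1)) (zc v.2))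
    (ip (J (zc v.1)) (zc v.2))
  have h3 := ((((hcomp P hP).mul hN).add ((hcomp Q hQ).mul (hτ.pow 2))).add
    ((hcomp S hS).mul (hK.pow 2))).div_const 2 |>.add (((hcomp W hW).mul hτ).mul hK)
  have h4 : (fun t : ℝ => usHam J P Q S W (z + t • v)) = _ := funext fun t => line J P Q S W z v t
  rw [h4] at h1
  have h5 := h1.unique h3
  rw [h5]
  simp only [Pi.mul_apply, Pi.pow_apply, zero_mul, add_zero, ne_eq, OfNat.ofNat_ne_zero,
    not_false_eq_true, zero_pow]
  push_cast
  ring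

end Pool.Agent.USP
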