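import Pool.Agent.USP.Targets

/-!
# Unitary suspensions: the differentials of the integrals do not vanish on the torus directions
-/

set_option autoImplicit false

open Set Filter Topology MeasureTheory
open scoped ContDiff

namespace Pool.Agent.USP
open Pool.Agent.MSup

theorem INJ_.ip_comm {β : Type} [Fintype β] (x y : β → ℝ) : ip x y = ip y x := by
  simp only [ip]
  exact Finset.sum_congr rfl fun i _ => mul_comm _ _

theorem INJ_.ip_zero {β : Type} [Fintype β] (x : β → ℝ) : ip (0 : β → ℝ) x = 0 := by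
  simp [ip]

theorem INJ_.om0 {β : Type} [Fintype β] (R : Fr β) : R.om 0 0 = R.w := by
  simp [Fr.om, Fr.rot]

theorem INJ_.om0' {β : Type} [Fintype β] (R : Fr β) : R.om' 0 0 = R.v := by
  simp [Fr.om', Fr.rot]

theorem INJ_.comb {β : Type} [Fintype β] (R : Fr β)
    (s a b p L c d ds da db dp es ea eb ep : ℝ) :
    c • R.dPsi s a b p L ds da db dp + d • R.dPsi s a b p L es ea eb ep =
      R.dPsi s a b p L (c * ds + d * es) (c * da + d * ea) (c * db + d * eb)
        (c * dp + d * ep) := by
  refine Prod.ext (funext ?_) (funext ?_) <;> rintro (_ | j) <;>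
    simp only [Fr.dPsi, Prod.fst_add, Prod.smul_fst, Prod.snd_add, Prod.smul_snd, Pi.add_apply,
      Pi.smul_apply, smul_eq_mul, Option.elim] <;> ring

theorem INJ_.indep {β : Type} [Fintype β] (R : Fr β) (hk : |R.k| < 1) {s : ℝ}
    (hs : Real.sin s ≠ 0) (p L c1 c2 ds da db dp : ℝ)
    (h : c1 • ((R.Psi s 0 0 p L).1, -(R.Psi s 0 0 p L).2) +
      c2 • ((0 : Option β → ℝ), (R.Psi s 0 0 p L).1) +
      R.dPsi s 0 0 p L ds da db dp = 0) :
    c1 = 0 ∧ c2 = 0 ∧ ds = 0 ∧ da = 0 ∧ db = 0 := by
  have hsc := Real.sin_sq_add_cos_sq s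
  have hww : ip (R.J R.w) R.w = 0 := by
    have h1 := R.skew R.w R.w
    rw [INJ_.ip_comm R.w (R.J R.w)] at h1
    linarith
  have hJJ : ip (R.J R.w) (R.J R.w) = 1 := by
    have h1 := R.skew R.w (R.J R.w)
    rw [R.sq, show (-R.w : β → ℝ) = (-1 : ℝ) • R.w by simp, ip_smul_right, R.hw] at h1
    rw [h1]
    norm_num
  have hvw : ip R.v R.w = 0 := by rw [INJ_.ip_comm, R.hwv]
  have e0 : c1 * Real.cos s - Real.sin s * ds = 0 := by
    have h1 := congrFun (congrArg Prod.fst h) none
    simp only [Prod.fst_add, Prod.smul_fst, Pi.add_apply, Pi.smul_apply, smul_eq_mul, Fr.Psi,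
      Fr.X, Option.elim, Fr.dPsi, Prod.fst_zero, Pi.zero_apply, mul_zero, add_zero] at h1
    linarith
  have e1 : (c1 * Real.sin s + Real.cos s * ds) • R.w + (Real.sin s * da) • R.v +
      (Real.sin s * db) • R.J R.w = 0 := by
    funext j
    have h1 := congrFun (congrArg Prod.fst h) (some j)
    simp only [Prod.fst_add, Prod.smul_fst, Pi.add_apply, Pi.smul_apply, smul_eq_mul, Fr.Psi,
      Fr.X, Option.elim, Fr.dPsi, Prod.fst_zero, Pi.zero_apply, mul_zero, add_zero,
      INJ_.om0, INJ_.om0'] at h1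
    simp only [Pi.add_apply, Pi.smul_apply, smul_eq_mul, Pi.zero_apply]
    linarith
  have f1 : ∀ y : β → ℝ, (c1 * Real.sin s + Real.cos s * ds) * ip R.w y +
      (Real.sin s * da) * ip R.v y + (Real.sin s * db) * ip (R.J R.w) y = 0 := by
    intro y
    have h2 := congrArg (fun x => ip x y) e1
    simp only [ip_add_left, ip_smul_left, INJ_.ip_zero] at h2
    exact h2
  have g1 := f1 R.w
  rw [R.hw, hvw, hww] at g1
  have g2 := f1 R.v
  rw [R.hwv, R.hv] at g2
  have g3 := f1 (R.J R.w)
  rw [hJJ, INJ_.ip_comm R.w (R.J R.w), hww, INJ_.ip_comm R.v (R.J R.w)] at g3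
  change _ + _ * R.k + _ = 0 at g3
  change _ + _ + _ * R.k = 0 at g2
  have hc1 : c1 = 0 := by
    have : c1 * (Real.sin s ^ 2 + Real.cos s ^ 2) = 0 := by
      linear_combination Real.sin s * g1 + Real.cos s * e0
    rwa [hsc, mul_one] at this
  have hds : ds = 0 := by
    have : ds * (Real.sin s ^ 2 + Real.cos s ^ 2) = 0 := by
      linear_combination Real.cos s * g1 - Real.sin s * e0
    rwa [hsc, mul_one] at this
  have hk2 : 1 - R.k ^ 2 ≠ 0 := by
    have h1 : R.k ^ 2 < 1 := (sq_lt_one_iff_abs_lt_one _).2 hk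
    linarith
  have hdb : db = 0 := by
    have : Real.sin s * (1 - R.k ^ 2) * db = 0 := by
      linear_combination g3 - R.k * g2
    exact (mul_eq_zero.1 this).resolve_left (mul_ne_zero hs hk2)
  have hda : da = 0 := by
    rw [hdb] at g2
    have : Real.sin s * da = 0 := by linear_combination g2
    exact (mul_eq_zero.1 this).resolve_left hs
  subst hc1 hds hda hdb
  have e2 : c2 * Real.cos s - dp * Real.sin s = 0 := by
    have h1 := congrFun (congrArg Prod.snd h) none
    simp only [Prod.snd_add, Prod.smul_snd, Pi.add_apply, Pi.smul_apply, smul_eq_mul, Fr.Psi,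
      Fr.X, Option.elim, Fr.dPsi, Prod.snd_zero, Pi.zero_apply, mul_zero, zero_mul,
      zero_add, sub_zero] at h1
    linarith
  have e3 : (c2 * Real.sin s + dp * Real.cos s) • R.w = 0 := by
    funext j
    have h1 := congrFun (congrArg Prod.snd h) (some j)
    simp only [Prod.snd_add, Prod.smul_snd, Pi.add_apply, Pi.smul_apply, smul_eq_mul, Fr.Psi,
      Fr.X, Option.elim, Fr.dPsi, Prod.snd_zero, Pi.zero_apply, mul_zero, zero_mul, add_zero,
      zero_add, sub_zero, INJ_.om0, INJ_.om0'] at h1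
    simp only [Pi.smul_apply, smul_eq_mul, Pi.zero_apply]
    linarith
  have g4 : c2 * Real.sin s + dp * Real.cos s = 0 := by
    have h2 := congrArg (fun x => ip x R.w) e3
    simp only [ip_smul_left, INJ_.ip_zero, R.hw, mul_one] at h2
    exact h2
  have hc2 : c2 = 0 := by
    have : c2 * (Real.sin s ^ 2 + Real.cos s ^ 2) = 0 := by
      linear_combination Real.sin s * g4 + Real.cos s * e2
    rwa [hsc, mul_one] at this
  exact ⟨rfl, hc2, rfl, rfl, rfl⟩

theorem p_INJ : T_INJ := by
  intro hORT hMEM β _ _ R H D hR hk s hs p L hne F hF hI hLI da db hd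
  have hsin : Real.sin s ≠ 0 := (Real.sin_pos_of_pos_of_lt_pi hs.1 hs.2).ne'
  have hz := (hMEM hORT β R s 0 0 p L).1
  by_contra hcon
  push Not at hcon
  set z := R.Psi s 0 0 p L with hzdef
  refine rank_contra (M := 4) (fun i => fderiv ℝ (lift (F i)) z) hLI
    ![(z.1, -z.2), (0, z.1), XH H z, R.dPsi s 0 0 p L 0 da db 0] ?_ ?_ ?_
  · rw [Fintype.linearIndependent_iff]
    intro g hg
    rw [Fin.sum_univ_four] at hg
    simp only [Matrix.cons_val_zero, Matrix.cons_val_one, Matrix.cons_val] at hg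
    rw [add_assoc, hzdef, hR.eq s hs, INJ_.comb] at hg
    obtain ⟨h0, h1, h2, h3, h4⟩ := INJ_.indep R hk hsin _ _ _ _ _ _ _ _ hg
    have g2 : g 2 = 0 := by
      rw [mul_zero, add_zero] at h2
      exact (mul_eq_zero.1 h2).resolve_right hne
    rw [g2, zero_mul, zero_add] at h3 h4
    have g3 : g 3 = 0 := by
      rcases hd with h | h
      · exact (mul_eq_zero.1 h3).resolve_right h
      · exact (mul_eq_zero.1 h4).resolve_right h
    intro i
    fin_cases i
    · exact h0
    · exact h1
    · exact g2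
    · exact g3
  · have : Module.finrank ℝ (Ph β) = 2 * (Fintype.card (Option β)) := by
      rw [Module.finrank_prod, Module.finrank_fintype_fun_eq_card]
      ring
    rw [this]
    omega
  · intro i j
    have hdi : DifferentiableAt ℝ (lift (F i)) z :=
      (contDiffAt_lift (hF i) (TS_pos hz)).differentiableAt (by simp)
    fin_cases j
    · exact fderiv_lift_scale (TS_pos hz) hdi
    · exact fderiv_lift_shift (TS_pos hz) hdi
    · exact fderiv_XH (hI i) hz
    · exact hcon i

end Pool.Agent.USP
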