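import Pool.Agent.USP.Targets

/-!
# USP, target LIM: limits of good points, `Phi = 0` (MP_337148_gt)
-/

set_option autoImplicit false

open Set Filter Topology MeasureTheory
open scoped ContDiff

namespace Pool.Agent.USP
open Pool.Agent.MSup

namespace LIM_

/-- the function `u + y ct` -/
noncomputable def ff (D : Rd) (y s : ℝ) : ℝ := D.u s + y * D.ct s

theorem ff_cont {D : Rd} (hD : Sus D) (y : ℝ) {s : ℝ} (hs : s ∈ Ioo 0 Real.pi) :
    ContinuousAt (ff D y) s := by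
  unfold ff
  exact (hD.su s hs).continuousAt.add (continuousAt_const.mul (hD.sct s hs).continuousAt)

theorem ff_ge {D : Rd} (hD : Sus D) {y : ℝ} (hy : y ∈ Ico (0 : ℝ) 1) :
    ∃ C : ℝ, ∀ s ∈ Ioo 0 Real.pi, D.u s + (-C) ≤ ff D y s := by
  obtain ⟨C, hC⟩ := hD.bct
  refine ⟨C, fun s hs => ?_⟩
  have h1 := (hC s hs).1
  have h0 : 0 ≤ C := (abs_nonneg _).trans h1
  have h2 : |y * D.ct s| ≤ C := by
    rw [abs_mul, abs_of_nonneg hy.1]
    calc y * |D.ct s| ≤ 1 * C := mul_le_mul hy.2.le h1 (abs_nonneg _) zero_le_one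
      _ = C := one_mul C
  have h3 := (abs_le.1 h2).1
  unfold ff
  linarith

theorem ff_left {D : Rd} (hD : Sus D) {y : ℝ} (hy : y ∈ Ico (0 : ℝ) 1) :
    Tendsto (ff D y) (𝓝[>] 0) atTop := by
  obtain ⟨C, hC⟩ := ff_ge hD hy
  refine tendsto_atTop_mono' _ ?_ (tendsto_atTop_add_const_right _ (-C) hD.tl)
  filter_upwards [Ioo_mem_nhdsGT Real.pi_pos] with s hs
  exact hC s hs

theorem ff_right {D : Rd} (hD : Sus D) {y : ℝ} (hy : y ∈ Ico (0 : ℝ) 1) :
    Tendsto (ff D y) (𝓝[<] Real.pi) atTop := by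
  obtain ⟨C, hC⟩ := ff_ge hD hy
  refine tendsto_atTop_mono' _ ?_ (tendsto_atTop_add_const_right _ (-C) hD.tr)
  filter_upwards [Ioo_mem_nhdsLT Real.pi_pos] with s hs
  exact hC s hs

/-- the minimum -/
theorem ff_min {D : Rd} (hD : Sus D) {y : ℝ} (hy : y ∈ Ico (0 : ℝ) 1) :
    ∃ t ∈ Ioo 0 Real.pi, ∀ s ∈ Ioo 0 Real.pi, ff D y t ≤ ff D y s := by
  have hpi := Real.pi_pos
  have hl := (ff_left hD hy).eventually (eventually_gt_atTop (ff D y (Real.pi / 2)))
  have hr := (ff_right hD hy).eventually (eventually_gt_atTop (ff D y (Real.pi / 2)))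
  obtain ⟨a, ha, ha2⟩ := (mem_nhdsGT_iff_exists_Ioo_subset).1 hl
  obtain ⟨b, hb, hb2⟩ := (mem_nhdsLT_iff_exists_Ioo_subset).1 hr
  have ha0 : 0 < a := ha
  have hb0 : b < Real.pi := hb
  set a' : ℝ := min (a / 2) (Real.pi / 4) with ha'
  set b' : ℝ := max ((b + Real.pi) / 2) (3 * Real.pi / 4) with hb'
  have ha1 : 0 < a' := lt_min (by linarith) (by linarith)
  have ha3 : a' ≤ Real.pi / 4 := min_le_right _ _
  have ha4 : a' ≤ a / 2 := min_le_left _ _
  have hb1 : b' < Real.pi := max_lt (by linarith) (by linarith)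
  have hb3 : 3 * Real.pi / 4 ≤ b' := le_max_right _ _
  have hb4 : (b + Real.pi) / 2 ≤ b' := le_max_left _ _
  have hsub : Icc a' b' ⊆ Ioo 0 Real.pi := fun s hs =>
    ⟨lt_of_lt_of_le ha1 hs.1, lt_of_le_of_lt hs.2 hb1⟩
  have hmid : Real.pi / 2 ∈ Icc a' b' := ⟨by linarith, by linarith⟩
  obtain ⟨t, ht, ht2⟩ := isCompact_Icc.exists_isMinOn (s := Icc a' b') ⟨_, hmid⟩
    (f := ff D y) (fun s hs => (ff_cont hD y (hsub hs)).continuousWithinAt)
  refine ⟨t, hsub ht, fun s hs => ?_⟩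
  have htm : ff D y t ≤ ff D y (Real.pi / 2) := ht2 hmid
  rcases lt_or_ge s a' with h1 | h1
  · have h2 : ff D y (Real.pi / 2) < ff D y s := ha2 ⟨hs.1, by linarith⟩
    linarith
  · rcases lt_or_ge b' s with h2 | h2
    · have h3 : ff D y (Real.pi / 2) < ff D y s := hb2 ⟨by linarith, hs.2⟩
      linarith
    · exact ht2 ⟨h1, h2⟩

theorem phi_zero {D : Rd} {y X : ℝ} (h : ∀ s ∈ Ioo 0 Real.pi, X ≤ ff D y s) :
    Phi D.w D.u D.ct X y = 0 := by
  unfold Phi
  rw [intervalIntegral.integral_of_le Real.pi_pos.le,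
    ← setIntegral_congr_set Ioo_ae_eq_Ioc]
  refine setIntegral_eq_zero_of_forall_eq_zero fun s hs => ?_
  have h1 : X - D.u s - y * D.ct s ≤ 0 := by
    have := h s hs
    unfold ff at this
    linarith
  rw [max_eq_right h1, Real.sqrt_zero, mul_zero, zero_div]

end LIM_

open LIM_

/-- LIM. -/
theorem p_LIM : T_LIM := by
  intro hPHC D hD hgood y hy X
  obtain ⟨t, ht, hmin⟩ := ff_min hD hy
  rcases le_or_gt X (ff D y t) with hX | hX
  · exact phi_zero fun s hs => hX.trans (hmin s hs)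
  · have hk : Real.sqrt y ∈ Ioo (-1 : ℝ) 1 := by
      refine ⟨lt_of_lt_of_le (by norm_num) (Real.sqrt_nonneg y), ?_⟩
      rw [Real.sqrt_lt' one_pos, one_pow]
      exact hy.2
    have hseq : ∀ n : ℕ, ∃ q : ℝ × ℝ, |q.1 - t| < 1 / ((n : ℝ) + 1) ∧
        |q.2 - Real.sqrt y| < 1 / ((n : ℝ) + 1) ∧
        ∀ X : ℝ, D.u q.1 + q.2 ^ 2 * D.ct q.1 ≤ X → Phi D.w D.u D.ct X (q.2 ^ 2) =
          Phi D.w D.u D.ct (D.u q.1 + q.2 ^ 2 * D.ct q.1) (q.2 ^ 2) := by
      intro n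
      obtain ⟨s0, k0, _, h1, h2, h3⟩ := hgood t ht (Real.sqrt y) hk (1 / ((n : ℝ) + 1))
        (by positivity)
      exact ⟨(s0, k0), h1, h2, h3⟩
    choose q hq1 hq2 hq3 using hseq
    have hlim0 := tendsto_one_div_add_atTop_nhds_zero_nat (𝕜 := ℝ)
    have hs : Tendsto (fun n => (q n).1) atTop (𝓝 t) := by
      rw [tendsto_iff_norm_sub_tendsto_zero]
      exact squeeze_zero (fun n => norm_nonneg _) (fun n => (hq1 n).le) hlim0
    have hkk : Tendsto (fun n => (q n).2) atTop (𝓝 (Real.sqrt y)) := by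
      rw [tendsto_iff_norm_sub_tendsto_zero]
      exact squeeze_zero (fun n => norm_nonneg _) (fun n => (hq2 n).le) hlim0
    have hk2 : Tendsto (fun n => (q n).2 ^ 2) atTop (𝓝 y) := by
      have h := hkk.pow 2
      rwa [Real.sq_sqrt hy.1] at h
    have hXn : Tendsto (fun n => D.u (q n).1 + (q n).2 ^ 2 * D.ct (q n).1) atTop
        (𝓝 (ff D y t)) := by
      have e1 : Tendsto (fun n => D.u (q n).1) atTop (𝓝 (D.u t)) := by
        have h := (hD.su t ht).continuousAt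
        exact h.tendsto.comp hs
      have e2 : Tendsto (fun n => D.ct (q n).1) atTop (𝓝 (D.ct t)) := by
        have h := (hD.sct t ht).continuousAt
        exact h.tendsto.comp hs
      have e3 : Tendsto (fun n => (q n).2 ^ 2 * D.ct (q n).1) atTop (𝓝 (y * D.ct t)) :=
        hk2.mul e2
      exact e1.add e3
    have hc := hPHC D hD
    have h1 : Tendsto (fun n => Phi D.w D.u D.ct X ((q n).2 ^ 2)) atTop
        (𝓝 (Phi D.w D.u D.ct X y)) := by
      have h : Tendsto (fun n => ((X, (q n).2 ^ 2) : ℝ × ℝ)) atTop (𝓝 (X, y)) :=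
        tendsto_const_nhds.prodMk_nhds hk2
      have h5 := (hc.tendsto (X, y)).comp h
      simp only [Function.comp_def] at h5
      exact h5
    have h2 : Tendsto (fun n => Phi D.w D.u D.ct (D.u (q n).1 + (q n).2 ^ 2 * D.ct (q n).1)
        ((q n).2 ^ 2)) atTop (𝓝 (Phi D.w D.u D.ct (ff D y t) y)) := by
      have h : Tendsto (fun n => ((D.u (q n).1 + (q n).2 ^ 2 * D.ct (q n).1, (q n).2 ^ 2) :
          ℝ × ℝ)) atTop (𝓝 (ff D y t, y)) := hXn.prodMk_nhds hk2
      have h5 := (hc.tendsto (ff D y t, y)).comp h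
      simp only [Function.comp_def] at h5
      exact h5
    have h3 : ∀ᶠ n in atTop, Phi D.w D.u D.ct (D.u (q n).1 + (q n).2 ^ 2 * D.ct (q n).1)
        ((q n).2 ^ 2) = Phi D.w D.u D.ct X ((q n).2 ^ 2) := by
      filter_upwards [(tendsto_order.1 hXn).2 X hX] with n hn
      exact (hq3 n X hn.le).symm
    have h4 := tendsto_nhds_unique (h2.congr' h3) h1
    rw [← h4]
    exact phi_zero hmin

end Pool.Agent.USP
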