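import Pool.Agent.USP.Targets

/-!
# USP: `Psi` lies in the cotangent bundle, values of `kap` and of the norm
-/

set_option autoImplicit false

open Set Filter Topology MeasureTheory
open scoped ContDiff

namespace Pool.Agent.USP
open Pool.Agent.MSup

namespace MEM_

theorem ip_comm {ι : Type} [Fintype ι] (x y : ι → ℝ) : ip x y = ip y x := by
  simp only [ip]
  exact Finset.sum_congr rfl fun i _ => mul_comm _ _

theorem ip_split {β : Type} [Fintype β] (x y : Option β → ℝ) :
    ip x y = x none * y none + ip (zc x) (zc y) := by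
  simp only [ip, Fintype.sum_option, zc]

end MEM_

open MEM_ in
theorem p_MEM : T_MEM := by
  intro hO β _ R s a b p L
  obtain ⟨h1, h2, h3, h4, h5, h6, h7, -⟩ := hO β R a b
  have x0 : (R.Psi s a b p L).1 none = Real.cos s := rfl
  have t0 : (R.Psi s a b p L).2 none = -(p * Real.sin s) := rfl
  have zx : zc (R.Psi s a b p L).1 = Real.sin s • R.om a b := by
    funext j
    rfl
  have zt : zc (R.Psi s a b p L).2 =
      (p * Real.cos s) • R.om a b + (L / Real.sin s) • R.om' a b := by
    funext j
    rfl
  have sc := Real.sin_sq_add_cos_sq s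
  refine ⟨⟨?_, ?_⟩, fun hs => ⟨?_, ?_⟩⟩
  · rw [ip_split, x0, zx, ip_smul_left, ip_smul_right, h1]
    linarith
  · rw [ip_split, x0, t0, zx, zt, ip_smul_left, ip_add_right, ip_smul_right, ip_smul_right, h1, h3]
    ring
  · rw [kap, zx, zt, map_smul, ip_smul_left, ip_add_right, ip_smul_right, ip_smul_right, h4, h5]
    field_simp
    ring
  · rw [zt, ip_add_left, ip_smul_left, ip_smul_left, ip_add_right, ip_add_right, ip_smul_right,
      ip_smul_right, ip_smul_right, ip_smul_right, h1, h2, h3, ip_comm (R.om' a b) (R.om a b), h3]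
    ring

end Pool.Agent.USP
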