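import Pool.Agent.USP.Conf
import Pool.Agent.TOS.Hada

/-! USP-ODE: smooth solutions of the gauge and conformal factor equations. -/

set_option autoImplicit false

open Set Filter Topology
open scoped ContDiff

namespace Pool.Agent.USP
open Pool.Agent.MSup

namespace ODE_

theorem prim {I : Set ℝ} (hI : IsOpen I) (hc : I.OrdConnected) (h0 : (0 : ℝ) ∈ I) {g : ℝ → ℝ}
    (hg : ContDiffOn ℝ ∞ g I) :
    (∀ t ∈ I, HasDerivAt (fun t => ∫ x in (0 : ℝ)..t, g x) (g t) t) ∧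
      ContDiffOn ℝ ∞ (fun t => ∫ x in (0 : ℝ)..t, g x) I := by
  have hd : ∀ t ∈ I, HasDerivAt (fun t => ∫ x in (0 : ℝ)..t, g x) (g t) t := by
    intro t ht
    have hcont : ContinuousOn g I := hg.continuousOn
    have hsub : uIcc 0 t ⊆ I := hc.uIcc_subset h0 ht
    refine intervalIntegral.integral_hasDerivAt_right ((hcont.mono hsub).intervalIntegrable) ?_
      (hcont.continuousAt (hI.mem_nhds ht))
    exact hcont.stronglyMeasurableAtFilter hI t ht
  refine ⟨hd, ?_⟩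
  rw [contDiffOn_infty_iff_deriv_of_isOpen hI]
  exact ⟨fun t ht => (hd t ht).differentiableAt.differentiableWithinAt,
    hg.congr (fun t ht => (hd t ht).deriv)⟩

theorem one (P Q W : ℝ → ℝ) (hP : ContDiff ℝ ∞ P) (hQ : ContDiff ℝ ∞ Q) (hW : ContDiff ℝ ∞ W)
    (hp : ∀ t ∈ Icc (-1 : ℝ) 1, 0 < P t)
    (hw : ∀ t ∈ Icc (-1 : ℝ) 1, 0 < P t * t ^ 2 + Q t * (1 - t ^ 2)) :
    ∃ ρ φ : ℝ → ℝ, ContDiffOn ℝ ∞ ρ (Ioi (-1)) ∧ ContDiffOn ℝ ∞ φ (Ioi (-1)) ∧
      (∀ t, 0 < ρ t) ∧ ∀ t ∈ Icc (-1 : ℝ) 1, -1 < t →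
        HasDerivAt φ (W t / (P t * t ^ 2 + Q t * (1 - t ^ 2))) t ∧
        ∃ r : ℝ, HasDerivAt ρ (ρ t * r) t ∧
          (1 - t ^ 2) * r - t = -√(P t / (P t * t ^ 2 + Q t * (1 - t ^ 2))) := by
  set w : ℝ → ℝ := fun t => P t * t ^ 2 + Q t * (1 - t ^ 2) with hwd
  have hwc : ContDiff ℝ ∞ w := by
    have h1 : ContDiff ℝ ∞ (fun t : ℝ => t ^ 2) := contDiff_id.pow 2
    exact (hP.mul h1).add (hQ.mul (contDiff_const.sub h1))
  have hO : IsOpen {t : ℝ | 0 < P t ∧ 0 < w t} :=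
    (isOpen_lt continuous_const hP.continuous).inter (isOpen_lt continuous_const hwc.continuous)
  obtain ⟨δ, hδ, hsub⟩ := (isCompact_Icc (a := (-1 : ℝ)) (b := 1)).exists_thickening_subset_open hO
    (fun t ht => ⟨hp t ht, hw t ht⟩)
  have hpos : ∀ t : ℝ, |t| < 1 + δ → 0 < P t ∧ 0 < w t := by
    intro t ht
    apply hsub
    rw [Metric.mem_thickening_iff]
    rw [abs_lt] at ht
    rcases lt_or_ge t (-1) with h | h
    · refine ⟨-1, ⟨le_rfl, by norm_num⟩, ?_⟩
      rw [Real.dist_eq, abs_lt]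
      constructor <;> linarith [ht.1]
    · rcases lt_or_ge 1 t with h2 | h2
      · refine ⟨1, ⟨by norm_num, le_rfl⟩, ?_⟩
        rw [Real.dist_eq, abs_lt]
        constructor <;> linarith [ht.2]
      · exact ⟨t, ⟨h, h2⟩, by rw [dist_self]; exact hδ⟩
  let χ : ContDiffBump (0 : ℝ) := ⟨1, 1 + δ, one_pos, by linarith⟩
  set θ : ℝ → ℝ := fun t => t * χ t with hθd
  have hθc : ContDiff ℝ ∞ θ := contDiff_id.mul χ.contDiff
  have hθ1 : ∀ t ∈ Icc (-1 : ℝ) 1, θ t = t := by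
    intro t ht
    have : χ t = 1 := by
      refine χ.one_of_mem_closedBall ?_
      rw [Metric.mem_closedBall, Real.dist_eq, sub_zero]
      exact abs_le.2 ht
    simp only [hθd]
    rw [this, mul_one]
  have hθ2 : ∀ t, |θ t| < 1 + δ := by
    intro t
    rcases lt_or_ge |t| (1 + δ) with h | h
    · refine lt_of_le_of_lt ?_ h
      simp only [hθd]
      rw [abs_mul, abs_of_nonneg (χ.nonneg)]
      calc |t| * χ t ≤ |t| * 1 := mul_le_mul_of_nonneg_left χ.le_one (abs_nonneg t)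
        _ = |t| := mul_one _
    · have : χ t = 0 := by
        refine χ.zero_of_le_dist ?_
        rw [Real.dist_eq, sub_zero]
        exact h
      simp only [hθd]
      rw [this, mul_zero, abs_zero]
      linarith
  have hPθ : ∀ t, 0 < P (θ t) := fun t => (hpos _ (hθ2 t)).1
  have hwθ : ∀ t, 0 < w (θ t) := fun t => (hpos _ (hθ2 t)).2
  have hwθc : ContDiff ℝ ∞ (fun t => w (θ t)) := hwc.comp hθc
  set G : ℝ → ℝ := fun t => √(P (θ t) / w (θ t)) with hG
  have hGc : ContDiff ℝ ∞ G := by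
    refine ContDiff.sqrt ((hP.comp hθc).div hwθc fun t => (hwθ t).ne') fun t => ?_
    exact (div_pos (hPθ t) (hwθ t)).ne'
  have hG1 : G 1 = 1 := by
    simp only [hG]
    rw [hθ1 1 ⟨by norm_num, le_rfl⟩]
    have : w 1 = P 1 := by simp [hwd]
    rw [this, div_self (hp 1 ⟨by norm_num, le_rfl⟩).ne', Real.sqrt_one]
  obtain ⟨f, hf, hfe, -, -⟩ := Pool.Agent.TOS.hadamard (f := fun x => (1 - x) - G (1 - x))
    ((contDiff_const.sub contDiff_id).sub (hGc.comp (contDiff_const.sub contDiff_id)))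
    (by simp [hG1])
  set r : ℝ → ℝ := fun t => f (1 - t) / (1 + t) with hr
  have hrc : ContDiffOn ℝ ∞ r (Ioi (-1)) := by
    refine ContDiffOn.div ?_ ?_ ?_
    · exact (hf.comp (contDiff_const.sub contDiff_id)).contDiffOn
    · exact (contDiff_const.add contDiff_id).contDiffOn
    · intro t ht
      have : (-1 : ℝ) < t := ht
      linarith
  set g : ℝ → ℝ := fun t => W (θ t) / w (θ t) with hg
  have hgc : ContDiffOn ℝ ∞ g (Ioi (-1)) :=
    ((hW.comp hθc).div hwθc fun t => (hwθ t).ne').contDiffOn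
  have h0 : (0 : ℝ) ∈ Ioi (-1 : ℝ) := by
    rw [mem_Ioi]; norm_num
  obtain ⟨r1, r2⟩ := prim isOpen_Ioi ordConnected_Ioi h0 hrc
  obtain ⟨g1, g2⟩ := prim isOpen_Ioi ordConnected_Ioi h0 hgc
  refine ⟨fun t => Real.exp (∫ x in (0 : ℝ)..t, r x), fun t => ∫ x in (0 : ℝ)..t, g x,
    r2.exp, g2, fun t => Real.exp_pos _, fun t ht ht1 => ⟨?_, r t, (r1 t ht1).exp, ?_⟩⟩
  · have h := g1 t ht1
    simp only [hg] at h
    rw [hθ1 t ht] at h
    exact h
  · have h := hfe (1 - t)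
    simp only [sub_sub_cancel] at h
    have hGt : G t = √(P t / w t) := by
      simp only [hG]
      rw [hθ1 t ht]
    have h2 : (1 - t ^ 2) * r t = (1 - t) * f (1 - t) := by
      simp only [hr]
      have : (1 : ℝ) + t ≠ 0 := by linarith
      field_simp
      ring
    rw [h2, ← h, hGt]
    ring

end ODE_

open ODE_ in
theorem p_ODE : T_ODE := by
  intro P Q W hP hQ hW hp hw ε hε
  rcases hε with rfl | rfl
  · obtain ⟨ρ, φ, h1, h2, h3, h4⟩ := one P Q W hP hQ hW hp hw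
    refine ⟨Ioi (-1), ρ, φ, isOpen_Ioi, ?_, h1, h2, fun t _ => h3 t, ?_⟩
    · intro t ht hne
      exact lt_of_le_of_ne ht.1 (Ne.symm hne)
    · intro t ht hI
      obtain ⟨a, r, b, c⟩ := h4 t ht hI
      exact ⟨a, r, b, by rw [one_mul]; exact c⟩
  · have hneg : ContDiff ℝ ∞ (fun t : ℝ => -t) := contDiff_neg
    have hmem : ∀ t ∈ Icc (-1 : ℝ) 1, -t ∈ Icc (-1 : ℝ) 1 := by
      intro t ht
      exact ⟨by linarith [ht.2], by linarith [ht.1]⟩
    obtain ⟨ρ, φ, h1, h2, h3, h4⟩ := one (fun t => P (-t)) (fun t => Q (-t)) (fun t => W (-t))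
      (hP.comp hneg) (hQ.comp hneg) (hW.comp hneg) (fun t ht => hp _ (hmem t ht))
      (fun t ht => by
        have := hw _ (hmem t ht)
        simpa using this)
    have hmaps : MapsTo (fun t : ℝ => -t) (Iio 1) (Ioi (-1)) := by
      intro t ht
      have : t < 1 := ht
      rw [mem_Ioi]
      linarith
    refine ⟨Iio 1, fun t => ρ (-t), fun t => -φ (-t), isOpen_Iio, ?_,
      h1.comp hneg.contDiffOn hmaps, (h2.comp hneg.contDiffOn hmaps).neg, fun t _ => h3 _, ?_⟩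
    · intro t ht hne
      rw [neg_neg] at hne
      exact lt_of_le_of_ne ht.2 hne
    · intro t ht hI
      have hI' : t < 1 := hI
      obtain ⟨a, r, b, c⟩ := h4 (-t) (hmem t ht) (by linarith)
      simp only [neg_neg, neg_sq] at a b c
      refine ⟨?_, -r, ?_, ?_⟩
      · have h5 := (HasDerivAt.comp t a (hasDerivAt_neg t)).neg
        have e : -(W t / (P t * t ^ 2 + Q t * (1 - t ^ 2)) * -1) =
            W t / (P t * t ^ 2 + Q t * (1 - t ^ 2)) := by ring
        rw [e] at h5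
        exact h5
      · have h5 := HasDerivAt.comp t b (hasDerivAt_neg t)
        have e : ρ (-t) * r * -1 = ρ (-t) * -r := by ring
        rw [e] at h5
        exact h5
      · linarith

end Pool.Agent.USP
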