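import Pool.Agent.USP.Targets

/-!
# USP, T_ONE: the identity for one good point
-/

set_option autoImplicit false

open Set Filter Topology MeasureTheory
open scoped ContDiff

namespace Pool.Agent.USP
open Pool.Agent.MSup

/-- the Abel transform at the level `L² X` in terms of `Phi` -/
theorem ONE_.GG_eq (D : Rd) (k L X : ℝ) (hL : 0 < L) :
    GG 0 Real.pi (D.V k L) D.w (fun s => D.ct s * (k * L)) (L ^ 2 * X) =
      (k * L ^ 2) * Phi D.w D.u D.ct X (k ^ 2) := by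
  unfold GG Phi
  rw [← intervalIntegral.integral_const_mul]
  refine intervalIntegral.integral_congr (fun s _ => ?_)
  have h1 : max (L ^ 2 * X - D.V k L s) 0 =
      L ^ 2 * max (X - D.u s - k ^ 2 * D.ct s) 0 := by
    rw [mul_max_of_nonneg _ _ (sq_nonneg L), mul_zero]
    congr 1
    unfold Rd.V
    ring
  have h2 : √(max (L ^ 2 * X - D.V k L s) 0) = L * √(max (X - D.u s - k ^ 2 * D.ct s) 0) := by
    rw [h1, Real.sqrt_mul (sq_nonneg L), Real.sqrt_sq hL.le]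
  show D.ct s * (k * L) * √(max (L ^ 2 * X - D.V k L s) 0) / √(D.w s) =
    k * L ^ 2 * (D.ct s * √(max (X - D.u s - k ^ 2 * D.ct s) 0) / √(D.w s))
  rw [h2]
  ring

theorem p_ONE : T_ONE := by
  intro hRTL hPER hBRA hINT hRAT hPOL hCOF hINJ hORT hMEM hDER hCOR hWIN hLOW hJCT hIRR hCST hBIG
    hREG hSUB hFUB hGBD hPOT β _ _ R H D hRed hS hk0 hk1 s0 hs0 p0 L hL hne F hF hFI hLI X hX
  obtain ⟨E, hE, hEX⟩ := hRTL hPER hBRA hINT hRAT hPOL hCOF hINJ hORT hMEM hDER β R H D hRed hk1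
    s0 hs0 p0 L hne F hF hFI hLI
  have hPot := hPOT D hS R.k L hk1.le hL
  have hct : ContinuousOn (fun s => D.ct s * (R.k * L)) (Ioo 0 Real.pi) := by
    intro s hs
    exact (((hS.sct s hs).continuousAt).mul continuousAt_const).continuousWithinAt
  have hbd : ∃ C, ∀ s ∈ Ioo 0 Real.pi, |(fun s => D.ct s * (R.k * L)) s| ≤ C := by
    obtain ⟨C, hC⟩ := hS.bct
    refine ⟨C * |R.k * L|, fun s hs => ?_⟩
    show |D.ct s * (R.k * L)| ≤ _
    rw [abs_mul]
    exact mul_le_mul_of_nonneg_right (hC s hs).1 (abs_nonneg _)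
  have key := hCOR hWIN hLOW hJCT hIRR hCST hBIG hINT hREG hSUB hFUB hGBD 0 Real.pi (D.V R.k L)
    (deriv (D.V R.k L)) D.w (fun s => D.u s * L) (fun s => D.ct s * (R.k * L)) hPot hct hbd s0 hs0
    E hE hEX
  have hL2 : 0 < L ^ 2 := pow_pos hL 2
  have hV : D.V R.k L s0 = L ^ 2 * (D.u s0 + R.k ^ 2 * D.ct s0) := rfl
  have h1 := key (L ^ 2 * X) (by
    rw [hV]
    exact mul_le_mul_of_nonneg_left hX hL2.le)
  rw [hV, ONE_.GG_eq D R.k L X hL, ONE_.GG_eq D R.k L _ hL] at h1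
  exact mul_left_cancel₀ (mul_ne_zero hk0 hL2.ne') h1

end Pool.Agent.USP
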