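import Pool.Agent.USP.Targets

/-!
# Unitary suspensions (MP_337148_gt), block PHC: continuity of the Abel transform `Phi`
-/

set_option autoImplicit false

open Set Filter Topology MeasureTheory

namespace Pool.Agent.USP

namespace PHC_

/-- a positive lower bound of a positive continuous function on `[0, π]` -/
theorem lower {w : ℝ → ℝ} (cw : ContinuousOn w (Icc 0 Real.pi))
    (pw : ∀ s ∈ Icc 0 Real.pi, 0 < w s) : ∃ w0 : ℝ, 0 < w0 ∧ ∀ s ∈ Icc 0 Real.pi, w0 ≤ w s := by
  obtain ⟨x, hx, hmin⟩ := isCompact_Icc.exists_isMinOn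
    (nonempty_Icc.2 Real.pi_pos.le) cw
  exact ⟨w x, pw x hx, fun s hs => hmin hs⟩

/-- the integrand -/
theorem cont {D : Rd} (h : Sus D) (X y : ℝ) : ContinuousOn
    (fun s => D.ct s * √(max (X - D.u s - y * D.ct s) 0) / √(D.w s)) (Ioo 0 Real.pi) := by
  have h1 : ContinuousOn D.ct (Ioo 0 Real.pi) := fun s hs =>
    (h.sct s hs).continuousAt.continuousWithinAt
  have h2 : ContinuousOn D.u (Ioo 0 Real.pi) := fun s hs =>
    (h.su s hs).continuousAt.continuousWithinAt
  have h3 : ContinuousOn D.w (Ioo 0 Real.pi) := h.cw.mono Ioo_subset_Icc_self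
  have h4 : ContinuousOn (fun s => max (X - D.u s - y * D.ct s) 0) (Ioo 0 Real.pi) :=
    ContinuousOn.sup ((continuousOn_const.sub h2).sub (continuousOn_const.mul h1))
      continuousOn_const
  refine (h1.mul (Real.continuous_sqrt.comp_continuousOn h4)).div
    (Real.continuous_sqrt.comp_continuousOn h3) ?_
  intro s hs
  exact (Real.sqrt_pos.2 (h.pw s (Ioo_subset_Icc_self hs))).ne'

theorem meas {D : Rd} (h : Sus D) (X y : ℝ) : AEStronglyMeasurable
    (fun s => D.ct s * √(max (X - D.u s - y * D.ct s) 0) / √(D.w s))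
    (volume.restrict (uIoc 0 Real.pi)) := by
  rw [uIoc_of_le Real.pi_pos.le, ← Measure.restrict_congr_set Ioo_ae_eq_Ioc]
  exact (cont h X y).aestronglyMeasurable measurableSet_Ioo

end PHC_

theorem p_PHC : T_PHC := by
  intro D h
  obtain ⟨w0, hw0, hw⟩ := PHC_.lower h.cw h.pw
  obtain ⟨u0, hu0, hu⟩ := h.pu
  obtain ⟨C, hC⟩ := h.bct
  have hmid : Real.pi / 2 ∈ Ioo 0 Real.pi := ⟨by linarith [Real.pi_pos], by linarith [Real.pi_pos]⟩
  have hC0 : 0 ≤ C := (abs_nonneg _).trans (hC _ hmid).1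
  rw [continuous_iff_continuousAt]
  intro q0
  unfold Phi
  set B : ℝ := C * √(|q0.1| + 1 + (|q0.2| + 1) * C) / √w0 with hB
  have hne : ∀ᵐ t : ℝ ∂volume, t ≠ Real.pi := by
    rw [ae_iff]
    simp
  have hnear : ∀ᶠ q : ℝ × ℝ in 𝓝 q0, |q.1| ≤ |q0.1| + 1 ∧ |q.2| ≤ |q0.2| + 1 := by
    have e1 : ∀ᶠ q : ℝ × ℝ in 𝓝 q0, |q.1| < |q0.1| + 1 :=
      (continuous_fst.abs.continuousAt).eventually_lt continuousAt_const (by linarith)
    have e2 : ∀ᶠ q : ℝ × ℝ in 𝓝 q0, |q.2| < |q0.2| + 1 :=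
      (continuous_snd.abs.continuousAt).eventually_lt continuousAt_const (by linarith)
    filter_upwards [e1, e2] with q a b using ⟨a.le, b.le⟩
  refine intervalIntegral.continuousAt_of_dominated_interval (bound := fun _ => B)
    (F := fun (q : ℝ × ℝ) (s : ℝ) =>
      D.ct s * √(max (q.1 - D.u s - q.2 * D.ct s) 0) / √(D.w s)) ?_ ?_ ?_ ?_
  · exact Eventually.of_forall fun q => PHC_.meas h q.1 q.2
  · filter_upwards [hnear] with q hq
    filter_upwards [hne] with t ht htI
    rw [uIoc_of_le Real.pi_pos.le] at htI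
    have hs : t ∈ Ioo 0 Real.pi := ⟨htI.1, lt_of_le_of_ne htI.2 ht⟩
    have hct := (hC t hs).1
    have hws := hw t (Ioo_subset_Icc_self hs)
    have hus := hu t hs
    have h1 : max (q.1 - D.u t - q.2 * D.ct t) 0 ≤ |q0.1| + 1 + (|q0.2| + 1) * C := by
      apply max_le
      · have e1 : q.1 ≤ |q0.1| + 1 := (le_abs_self _).trans hq.1
        have e2 : -(q.2 * D.ct t) ≤ (|q0.2| + 1) * C := by
          calc -(q.2 * D.ct t) ≤ |q.2 * D.ct t| := neg_le_abs _
            _ = |q.2| * |D.ct t| := abs_mul _ _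
            _ ≤ (|q0.2| + 1) * C := mul_le_mul hq.2 hct (abs_nonneg _) (by positivity)
        linarith
      · positivity
    rw [norm_div, norm_mul, Real.norm_eq_abs, Real.norm_of_nonneg (Real.sqrt_nonneg _),
      Real.norm_of_nonneg (Real.sqrt_nonneg _), hB]
    apply div_le_div₀ (by positivity) _ (Real.sqrt_pos.2 hw0) (Real.sqrt_le_sqrt hws)
    exact mul_le_mul hct (Real.sqrt_le_sqrt h1) (Real.sqrt_nonneg _) hC0
  · exact intervalIntegrable_const
  · refine Eventually.of_forall fun t _ => ?_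
    have : Continuous fun q : ℝ × ℝ =>
        D.ct t * √(max (q.1 - D.u t - q.2 * D.ct t) 0) / √(D.w t) := by
      fun_prop
    exact this.continuousAt

end Pool.Agent.USP
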