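import Pool.Agent.USP.Targets

set_option autoImplicit false

open Set Filter Topology MeasureTheory
open scoped ContDiff

namespace Pool.Agent.USP
open Pool.Agent.MSup

namespace POT_

theorem cdV {D : Rd} (hD : Sus D) (k L : ℝ) {s : ℝ} (hs : s ∈ Ioo 0 Real.pi) :
    ContDiffAt ℝ 2 (D.V k L) s := by
  have h1 := hD.su s hs
  have h2 := hD.sct s hs
  unfold Rd.V
  exact contDiffAt_const.mul (h1.add (contDiffAt_const.mul h2))

theorem dV {D : Rd} (hD : Sus D) (k L : ℝ) {s : ℝ} (hs : s ∈ Ioo 0 Real.pi) :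
    deriv (D.V k L) s = L ^ 2 * (deriv D.u s + k ^ 2 * deriv D.ct s) := by
  have h1 : DifferentiableAt ℝ D.u s := (hD.su s hs).differentiableAt (by norm_num)
  have h2 : DifferentiableAt ℝ D.ct s := (hD.sct s hs).differentiableAt (by norm_num)
  have h3 : HasDerivAt (D.V k L) (L ^ 2 * (deriv D.u s + k ^ 2 * deriv D.ct s)) s := by
    unfold Rd.V
    exact ((h1.hasDerivAt.add ((h2.hasDerivAt).const_mul (k ^ 2))).const_mul (L ^ 2))
  exact h3.deriv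

theorem ksq {k : ℝ} (hk : |k| ≤ 1) : 0 ≤ k ^ 2 ∧ k ^ 2 ≤ 1 := by
  refine ⟨sq_nonneg _, ?_⟩
  rw [← sq_abs]
  exact pow_le_one₀ (abs_nonneg _) hk

/-- `V` is large where `u` is large. -/
theorem tend {D : Rd} {C : ℝ} (hC : ∀ s ∈ Ioo 0 Real.pi, |D.ct s| ≤ C ∧ |deriv D.ct s| ≤ C)
    {k L : ℝ} (hk : |k| ≤ 1) (hL : 0 < L) {F : Filter ℝ} (hF : ∀ᶠ s in F, s ∈ Ioo 0 Real.pi)
    (hu : Tendsto D.u F atTop) : Tendsto (D.V k L) F atTop := by
  obtain ⟨k1, k2⟩ := ksq hk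
  have h1 : Tendsto (fun s => L ^ 2 * (D.u s + -C)) F atTop :=
    (tendsto_atTop_add_const_right _ _ hu).const_mul_atTop (by positivity)
  refine tendsto_atTop_mono' F ?_ h1
  filter_upwards [hF] with s hs
  obtain ⟨h2, _⟩ := hC s hs
  have h3 : |k ^ 2 * D.ct s| ≤ C := by
    rw [abs_mul, abs_of_nonneg k1]
    have := abs_nonneg (D.ct s)
    nlinarith
  have h4 := neg_abs_le (k ^ 2 * D.ct s)
  unfold Rd.V
  refine mul_le_mul_of_nonneg_left ?_ (by positivity)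
  linarith

theorem small {D : Rd} {C : ℝ} (hC : ∀ s ∈ Ioo 0 Real.pi, |D.ct s| ≤ C ∧ |deriv D.ct s| ≤ C)
    {k : ℝ} (hk : |k| ≤ 1) {s : ℝ} (hs : s ∈ Ioo 0 Real.pi) : |k ^ 2 * deriv D.ct s| ≤ C := by
  obtain ⟨k1, k2⟩ := ksq hk
  obtain ⟨_, h2⟩ := hC s hs
  rw [abs_mul, abs_of_nonneg k1]
  have := abs_nonneg (deriv D.ct s)
  nlinarith

end POT_

open POT_ in
theorem p_POT : T_POT := by
  intro D hD k L hk hL
  obtain ⟨C, hC⟩ := hD.bct
  obtain ⟨u0, hu0, hu⟩ := hD.pu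
  have hl : ∀ᶠ s in 𝓝[>] (0 : ℝ), s ∈ Ioo 0 Real.pi := Ioo_mem_nhdsGT Real.pi_pos
  have hr : ∀ᶠ s in 𝓝[<] Real.pi, s ∈ Ioo 0 Real.pi := Ioo_mem_nhdsLT Real.pi_pos
  have hcdo : ContDiffOn ℝ 2 (D.V k L) (Ioo 0 Real.pi) := fun s hs =>
    (cdV hD k L hs).contDiffWithinAt
  have hd1 : ContDiffOn ℝ 1 (deriv (D.V k L)) (Ioo 0 Real.pi) :=
    hcdo.deriv_of_isOpen isOpen_Ioo (by norm_num)
  refine ⟨Real.pi_pos, ?_, ?_, hD.cw, hD.pw, ?_, ⟨u0 * L, mul_pos hu0 hL, ?_⟩,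
    tend hC hk hL hl hD.tl, tend hC hk hL hr hD.tr, ?_, ?_⟩
  · intro s hs
    exact ((cdV hD k L hs).differentiableAt (by norm_num)).hasDerivAt
  · intro s hs
    exact (hd1.contDiffAt (isOpen_Ioo.mem_nhds hs)).differentiableAt (by norm_num)
  · intro s hs
    exact ((hD.su s hs).continuousAt.mul continuousAt_const).continuousWithinAt
  · intro s hs
    exact mul_le_mul_of_nonneg_right (hu s hs) hL.le
  · filter_upwards [hl, hD.dl.eventually_lt_atBot (-C)] with s hs h1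
    rw [dV hD k L hs]
    have h2 := (abs_le.1 (small hC hk hs)).2
    have h3 : deriv D.u s + k ^ 2 * deriv D.ct s < 0 := by linarith
    exact mul_neg_of_pos_of_neg (by positivity) h3
  · filter_upwards [hr, hD.dr.eventually_gt_atTop C] with s hs h1
    rw [dV hD k L hs]
    have h2 := (abs_le.1 (small hC hk hs)).1
    have h3 : 0 < deriv D.u s + k ^ 2 * deriv D.ct s := by linarith
    exact mul_pos (by positivity) h3

end Pool.Agent.USP
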