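import Pool.Agent.USP.Targets

/-!
# USP: the drifts are rational multiples of `π` off a finite set of levels (RTL)
-/

set_option autoImplicit false

open Set Filter Topology MeasureTheory
open scoped ContDiff

namespace Pool.Agent.USP
open Pool.Agent.MSup

namespace RTL_

section
variable {β : Type} [Fintype β]

theorem om_eq (R : Fr β) (a b : ℝ) (i : β) : R.om a b i =
    Real.cos b * (Real.cos a * R.w i + Real.sin a * R.v i) +
      Real.sin b * (Real.cos a * R.J R.w i + Real.sin a * R.J R.v i) := by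
  simp only [Fr.om, Fr.rot, map_add, map_smul, Pi.add_apply, Pi.smul_apply, smul_eq_mul]

theorem om'_eq (R : Fr β) (a b : ℝ) (i : β) : R.om' a b i =
    Real.cos b * (-Real.sin a * R.w i + Real.cos a * R.v i) +
      Real.sin b * (-Real.sin a * R.J R.w i + Real.cos a * R.J R.v i) := by
  simp only [Fr.om', Fr.rot, map_add, map_smul, Pi.add_apply, Pi.smul_apply, smul_eq_mul]

theorem per1 (R : Fr β) (s a b p L : ℝ) :
    R.Psi s (a + 2 * Real.pi) b p L = R.Psi s a b p L := by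
  have h1 : R.om (a + 2 * Real.pi) b = R.om a b := by
    funext i
    rw [om_eq, om_eq, Real.cos_add_two_pi, Real.sin_add_two_pi]
  have h2 : R.om' (a + 2 * Real.pi) b = R.om' a b := by
    funext i
    rw [om'_eq, om'_eq, Real.cos_add_two_pi, Real.sin_add_two_pi]
  unfold Fr.Psi Fr.X Fr.Pm
  rw [h1, h2]

theorem per2 (R : Fr β) (s a b p L : ℝ) :
    R.Psi s a (b + 2 * Real.pi) p L = R.Psi s a b p L := by
  have h1 : R.om a (b + 2 * Real.pi) = R.om a b := by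
    funext i
    rw [om_eq, om_eq, Real.cos_add_two_pi, Real.sin_add_two_pi]
  have h2 : R.om' a (b + 2 * Real.pi) = R.om' a b := by
    funext i
    rw [om'_eq, om'_eq, Real.cos_add_two_pi, Real.sin_add_two_pi]
  unfold Fr.Psi Fr.X Fr.Pm
  rw [h1, h2]

theorem diff (R : Fr β) (s p L : ℝ) :
    Differentiable ℝ (fun θ : Fin 2 → ℝ => R.Psi s (θ 0) (θ 1) p L) := by
  have hX : Differentiable ℝ (fun θ : Fin 2 → ℝ => R.X s (θ 0) (θ 1)) := by
    rw [differentiable_pi]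
    intro o
    cases o with
    | none =>
      simp only [Fr.X, Option.elim]
      fun_prop
    | some i =>
      simp only [Fr.X, Option.elim, om_eq]
      fun_prop
  have hP : Differentiable ℝ (fun θ : Fin 2 → ℝ => R.Pm s (θ 0) (θ 1) p L) := by
    rw [differentiable_pi]
    intro o
    cases o with
    | none =>
      simp only [Fr.Pm, Option.elim]
      fun_prop
    | some i =>
      simp only [Fr.Pm, Option.elim, om_eq, om'_eq]
      fun_prop
  exact hX.prodMk hP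

theorem dPsi_lin (R : Fr β) (s p L x y : ℝ) : R.dPsi s 0 0 p L 0 x y 0 =
    x • R.dPsi s 0 0 p L 0 1 0 0 + y • R.dPsi s 0 0 p L 0 0 1 0 := by
  refine Prod.ext ?_ ?_
  · funext o
    cases o with
    | none => simp [Fr.dPsi]
    | some i =>
      simp only [Fr.dPsi, Option.elim, Prod.fst_add, Prod.smul_fst, Pi.add_apply, Pi.smul_apply,
        smul_eq_mul]
      ring
  · funext o
    cases o with
    | none => simp [Fr.dPsi]
    | some i =>
      simp only [Fr.dPsi, Option.elim, Prod.snd_add, Prod.smul_snd, Pi.add_apply, Pi.smul_apply,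
        smul_eq_mul]
      ring

theorem fder (hDER : T_DER) (R : Fr β) (s p L : ℝ) (hs : Real.sin s ≠ 0) (v : Fin 2 → ℝ) :
    fderiv ℝ (fun θ : Fin 2 → ℝ => R.Psi s (θ 0) (θ 1) p L) 0 v =
      R.dPsi s 0 0 p L 0 (v 0) (v 1) 0 := by
  have h1 : HasDerivAt (fun t : ℝ => R.Psi s (t * v 0) (t * v 1) p L)
      (R.dPsi s (0 * v 0) (0 * v 1) p L 0 (v 0) (v 1) 0) 0 := by
    refine hDER β R L (fun _ => s) (fun t => t * v 0) (fun t => t * v 1) (fun _ => p)
      0 (v 0) (v 1) 0 0 (hasDerivAt_const _ _) ?_ ?_ (hasDerivAt_const _ _) hs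
    · simpa using (hasDerivAt_id (0 : ℝ)).mul_const (v 0)
    · simpa using (hasDerivAt_id (0 : ℝ)).mul_const (v 1)
  rw [zero_mul, zero_mul] at h1
  have h2 : HasDerivAt (fun t : ℝ => t • v) v 0 := by
    simpa using (hasDerivAt_id (0 : ℝ)).smul_const v
  have h3 : HasFDerivAt (fun θ : Fin 2 → ℝ => R.Psi s (θ 0) (θ 1) p L)
      (fderiv ℝ (fun θ : Fin 2 → ℝ => R.Psi s (θ 0) (θ 1) p L) 0) ((0 : ℝ) • v) := by
    rw [zero_smul]
    exact (diff R s p L 0).hasFDerivAt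
  have h4 := h3.comp_hasDerivAt (0 : ℝ) h2
  have h5 : HasDerivAt (fun t : ℝ => R.Psi s (t * v 0) (t * v 1) p L)
      (fderiv ℝ (fun θ : Fin 2 → ℝ => R.Psi s (θ 0) (θ 1) p L) 0 v) 0 := h4
  exact h5.unique h1

end

end RTL_

theorem p_RTL : T_RTL := by
  intro hPER hBRA hINT hRAT hPOL hCOF hINJ hORT hMEM hDER β _ _ R H D hRed hk s0 hs0 p0 L hne F
    hF hFI hLI
  have hsin : Real.sin s0 ≠ 0 := (Real.sin_pos_of_pos_of_lt_pi hs0.1 hs0.2).ne'
  have hw : 0 < D.w s0 := hRed.pw s0 hs0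
  choose q1 hq1 using fun i => hPOL hDER hORT hMEM β R s0 L hsin (F i) (hF i) 1 0
  choose q2 hq2 using fun i => hPOL hDER hORT hMEM β R s0 L hsin (F i) (hF i) 0 1
  have key : ∀ (v : Fin 2 → ℝ) i (p : ℝ), ∑ j, v j * ((![q1, q2] j i).eval p) =
      fderiv ℝ (lift (F i)) (R.Psi s0 0 0 p L) (R.dPsi s0 0 0 p L 0 (v 0) (v 1) 0) := by
    intro v i p
    rw [RTL_.dPsi_lin, map_add, map_smul, map_smul, hq1, hq2, Fin.sum_univ_two]
    simp only [Matrix.cons_val_zero, Matrix.cons_val_one, smul_eq_mul]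
  obtain ⟨E', hE', hE⟩ := hCOF 2 _ ![q1, q2] p0 (by
    intro v hv
    have hv' : v 0 ≠ 0 ∨ v 1 ≠ 0 := by
      by_contra hcon
      push Not at hcon
      apply hv
      funext j
      fin_cases j
      · exact hcon.1
      · exact hcon.2
    obtain ⟨i, hi⟩ := hINJ hORT hMEM β R H D hRed hk s0 hs0 p0 L hne F hF hFI hLI (v 0) (v 1) hv'
    refine ⟨i, ?_⟩
    rw [key]
    exact hi)
  refine ⟨(fun p => D.w s0 * p ^ 2 + 2 * D.h s0 * p * (R.k * L) + D.u s0 * L ^ 2 +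
    D.c s0 * (R.k * L) ^ 2) '' E', hE'.image _, ?_⟩
  intro X hX a b hWin hda hdb
  have hV : D.V R.k L s0 < X := hWin.lt s0 ⟨hWin.as, hWin.sb⟩
  set p := D.pp R.k L X 1 s0 with hp
  have hpE : p ∉ E' := by
    intro hpE
    apply hX
    refine ⟨p, hpE, ?_⟩
    have hsg : D.sg R.k L X s0 ^ 2 = D.w s0 * (X - D.V R.k L s0) :=
      Real.sq_sqrt (mul_nonneg hw.le (by linarith))
    have hwp : D.w s0 * p + D.h s0 * (R.k * L) = D.sg R.k L X s0 := by
      rw [hp, Rd.pp, mul_div_cancel₀ _ hw.ne']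
      ring
    have hVe : D.V R.k L s0 = L ^ 2 * (D.u s0 + R.k ^ 2 * (D.c s0 - D.h s0 ^ 2 / D.w s0)) := rfl
    have h1 : (D.w s0 * p + D.h s0 * (R.k * L)) ^ 2 = D.w s0 * (X - D.V R.k L s0) := by
      rw [hwp, hsg]
    rw [hVe] at h1
    have h2 : D.w s0 * (D.w s0 * p ^ 2 + 2 * D.h s0 * p * (R.k * L) + D.u s0 * L ^ 2 +
        D.c s0 * (R.k * L) ^ 2) = D.w s0 * X := by
      have h3 : D.w s0 * (D.h s0 ^ 2 / D.w s0) = D.h s0 ^ 2 := by
        field_simp
      obtain ⟨g, hg⟩ : ∃ g, g = D.h s0 ^ 2 / D.w s0 := ⟨_, rfl⟩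
      rw [← hg] at h1 h3
      linear_combination h1 + L ^ 2 * R.k ^ 2 * h3
    exact mul_left_cancel₀ hw.ne' h2
  have hmem : ∀ x y : ℝ, R.Psi s0 x y p L ∈ TS (Option β) := fun x y =>
    (hMEM hORT β R s0 x y p L).1
  have hfun : ∀ i, (fun θ : Fin 2 → ℝ => F i (R.Psi s0 (θ 0) (θ 1) p L)) =
      fun θ : Fin 2 → ℝ => lift (F i) (R.Psi s0 (θ 0) (θ 1) p L) := by
    intro i
    funext θ
    exact (lift_eq (hmem _ _)).symm
  have hdl : ∀ i, DifferentiableAt ℝ (lift (F i)) (R.Psi s0 ((0 : Fin 2 → ℝ) 0)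
      ((0 : Fin 2 → ℝ) 1) p L) := by
    intro i
    refine (contDiffAt_lift (hF i) ?_).differentiableAt (by simp)
    rw [(hmem _ _).1]
    exact one_pos
  have hdiff : ∀ i, DifferentiableAt ℝ
      (fun θ : Fin 2 → ℝ => F i (R.Psi s0 (θ 0) (θ 1) p L)) 0 := by
    intro i
    rw [hfun i]
    exact DifferentiableAt.comp (g := lift (F i))
      (f := fun θ : Fin 2 → ℝ => R.Psi s0 (θ 0) (θ 1) p L) (0 : Fin 2 → ℝ) (hdl i)
      (RTL_.diff R s0 p L 0)
  have hfd : ∀ i (v : Fin 2 → ℝ), fderiv ℝ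
      (fun θ : Fin 2 → ℝ => F i (R.Psi s0 (θ 0) (θ 1) p L)) 0 v =
      fderiv ℝ (lift (F i)) (R.Psi s0 0 0 p L) (R.dPsi s0 0 0 p L 0 (v 0) (v 1) 0) := by
    intro i v
    rw [hfun i, ← RTL_.fder hDER R s0 p L hsin v]
    have h1 := fderiv_comp (g := lift (F i))
      (f := fun θ : Fin 2 → ℝ => R.Psi s0 (θ 0) (θ 1) p L) (0 : Fin 2 → ℝ) (hdl i)
      (RTL_.diff R s0 p L 0)
    have h2 : fderiv ℝ (fun θ : Fin 2 → ℝ => lift (F i) (R.Psi s0 (θ 0) (θ 1) p L)) 0 =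
      (fderiv ℝ (lift (F i)) (R.Psi s0 0 0 p L)).comp
        (fderiv ℝ (fun θ : Fin 2 → ℝ => R.Psi s0 (θ 0) (θ 1) p L) 0) := h1
    rw [h2]
    rfl
  have hR := hRAT 2 _ (fun i (θ : Fin 2 → ℝ) => F i (R.Psi s0 (θ 0) (θ 1) p L))
    ![2 * JJ (D.V R.k L) D.w (fun s => D.u s * L) X a b,
      2 * JJ (D.V R.k L) D.w (fun s => D.ct s * (R.k * L)) X a b] hdiff
    (by
      intro i θ j
      fin_cases j
      · simp [RTL_.per1]
      · simp [RTL_.per2])
    (by
      intro i θ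
      have h := hPER hBRA hINT hORT hMEM hDER β R H D hRed (F i) (hF i) (hFI i) L X s0 a b hWin
        hda hdb (θ 0) (θ 1)
      simpa using h)
    (by
      intro v hv
      obtain ⟨i, hi⟩ := hE p hpE v hv
      refine ⟨i, ?_⟩
      rw [hfd, ← key]
      exact hi)
  constructor
  · obtain ⟨q, hq⟩ := hR 0
    refine ⟨q / 2, ?_⟩
    have hq' : 2 * JJ (D.V R.k L) D.w (fun s => D.u s * L) X a b = q * Real.pi := hq
    push_cast
    linarith
  · obtain ⟨q, hq⟩ := hR 1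
    refine ⟨q / 2, ?_⟩
    have hq' : 2 * JJ (D.V R.k L) D.w (fun s => D.ct s * (R.k * L)) X a b = q * Real.pi := hq
    push_cast
    linarith

end Pool.Agent.USP
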