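import Pool.Agent.USP.Targets

/-!
# USP: block SUS (reduced functions of `usHam`)
-/

set_option autoImplicit false

open Set Filter Topology MeasureTheory
open scoped ContDiff

namespace Pool.Agent.USP
open Pool.Agent.MSup

namespace SUS_

theorem cd_w {P Q : ℝ → ℝ} (hP : ContDiff ℝ ∞ P) (hQ : ContDiff ℝ ∞ Q) : ContDiff ℝ ∞
    (fun s : ℝ => P (Real.cos s) * Real.cos s ^ 2 + Q (Real.cos s) * Real.sin s ^ 2) :=
  ((hP.comp Real.contDiff_cos).mul (Real.contDiff_cos.pow 2)).add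
    ((hQ.comp Real.contDiff_cos).mul (Real.contDiff_sin.pow 2))

theorem cd_ct {P Q S W : ℝ → ℝ} (hP : ContDiff ℝ ∞ P) (hQ : ContDiff ℝ ∞ Q)
    (hS : ContDiff ℝ ∞ S) (hW : ContDiff ℝ ∞ W)
    (hw : ∀ s : ℝ, 0 < P (Real.cos s) * Real.cos s ^ 2 + Q (Real.cos s) * Real.sin s ^ 2) :
    ContDiff ℝ ∞ (usRd P Q S W).ct := by
  have h1 : ContDiff ℝ ∞ (fun s : ℝ => (-(W (Real.cos s) * Real.sin s)) ^ 2) :=
    ((hW.comp Real.contDiff_cos).mul Real.contDiff_sin).neg.pow 2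
  exact (hS.comp Real.contDiff_cos).sub (h1.div (cd_w hP hQ) (fun s => (hw s).ne'))

theorem inf2 : (2 : WithTop ℕ∞) ≤ ∞ :=
  WithTop.coe_le_coe.2 (le_top : (2 : ℕ∞) ≤ ⊤)

/-- the factor in the derivative of `u` -/
noncomputable def Gf (P : ℝ → ℝ) (s : ℝ) : ℝ :=
  -(deriv P (Real.cos s) * Real.sin s ^ 2) - 2 * P (Real.cos s) * Real.cos s

theorem der_u {P : ℝ → ℝ} (hP : ContDiff ℝ ∞ P) {s : ℝ} (hs : Real.sin s ≠ 0) :
    deriv (fun s : ℝ => P (Real.cos s) / Real.sin s ^ 2) s = (Real.sin s ^ 3)⁻¹ * Gf P s := by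
  have hd : HasDerivAt P (deriv P (Real.cos s)) (Real.cos s) :=
    ((hP.differentiable (by simp)) _).hasDerivAt
  have h1 : HasDerivAt (fun s : ℝ => P (Real.cos s)) (deriv P (Real.cos s) * -Real.sin s) s :=
    hd.comp s (Real.hasDerivAt_cos s)
  have h2 : HasDerivAt (fun s : ℝ => Real.sin s ^ 2) (2 * Real.sin s ^ (2 - 1) * Real.cos s) s :=
    (Real.hasDerivAt_sin s).pow 2
  have h3 := h1.div h2 (pow_ne_zero 2 hs)
  have h4 := h3.deriv
  have e : ((fun s : ℝ => P (Real.cos s)) / fun s : ℝ => Real.sin s ^ 2) =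
      fun s : ℝ => P (Real.cos s) / Real.sin s ^ 2 := rfl
  rw [e] at h4
  rw [h4]
  unfold Gf
  field_simp
  ring

theorem cont_G {P : ℝ → ℝ} (hP : ContDiff ℝ ∞ P) : Continuous (Gf P) := by
  have h1 : Continuous (deriv P) := hP.continuous_deriv (by simp)
  have h2 := hP.continuous
  unfold Gf
  fun_prop

theorem sin_pos_l : ∀ᶠ s in 𝓝[>] (0 : ℝ), 0 < Real.sin s := by
  have h : Ioo (0 : ℝ) Real.pi ∈ 𝓝[>] (0 : ℝ) := Ioo_mem_nhdsGT Real.pi_pos
  filter_upwards [h] with s hs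
  exact Real.sin_pos_of_mem_Ioo hs

theorem sin_pos_r : ∀ᶠ s in 𝓝[<] Real.pi, 0 < Real.sin s := by
  have h : Ioo (0 : ℝ) Real.pi ∈ 𝓝[<] Real.pi := Ioo_mem_nhdsLT Real.pi_pos
  filter_upwards [h] with s hs
  exact Real.sin_pos_of_mem_Ioo hs

theorem inv_l (n : ℕ) (hn : n ≠ 0) : Tendsto (fun s : ℝ => (Real.sin s ^ n)⁻¹) (𝓝[>] 0) atTop := by
  refine Tendsto.inv_tendsto_nhdsGT_zero ?_
  rw [tendsto_nhdsWithin_iff]
  constructor
  · have h : Tendsto (fun s : ℝ => Real.sin s ^ n) (𝓝 0) (𝓝 (Real.sin 0 ^ n)) :=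
      (Real.continuous_sin.pow n).tendsto 0
    rw [Real.sin_zero, zero_pow hn] at h
    exact h.mono_left nhdsWithin_le_nhds
  · filter_upwards [sin_pos_l] with s hs
    exact pow_pos hs n

theorem inv_r (n : ℕ) (hn : n ≠ 0) :
    Tendsto (fun s : ℝ => (Real.sin s ^ n)⁻¹) (𝓝[<] Real.pi) atTop := by
  refine Tendsto.inv_tendsto_nhdsGT_zero ?_
  rw [tendsto_nhdsWithin_iff]
  constructor
  · have h : Tendsto (fun s : ℝ => Real.sin s ^ n) (𝓝 Real.pi) (𝓝 (Real.sin Real.pi ^ n)) :=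
      (Real.continuous_sin.pow n).tendsto Real.pi
    rw [Real.sin_pi, zero_pow hn] at h
    exact h.mono_left nhdsWithin_le_nhds
  · filter_upwards [sin_pos_r] with s hs
    exact pow_pos hs n

theorem bdd {f : ℝ → ℝ} (hf : Continuous f) : ∃ C, ∀ s ∈ Ioo 0 Real.pi, |f s| ≤ C := by
  obtain ⟨C, hC⟩ := (isCompact_Icc (a := (0 : ℝ)) (b := Real.pi)).exists_bound_of_continuousOn
    hf.continuousOn
  exact ⟨C, fun s hs => hC s (Ioo_subset_Icc_self hs)⟩

end SUS_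

open SUS_ in
theorem p_SUS : T_SUS := by
  intro P Q S W hP hQ hS hW hpos hw
  have hcw := cd_w hP hQ
  have hct := cd_ct hP hQ hS hW hw
  have hPc : Continuous (fun s : ℝ => P (Real.cos s)) := hP.continuous.comp Real.continuous_cos
  have h1 : 0 < P 1 := hpos 1 (by norm_num)
  have h2 : 0 < P (-1) := hpos (-1) (by norm_num)
  refine ⟨fun s _ => (hcw.contDiffAt.of_le inf2), fun s hs => ?_,
    fun s _ => (hct.contDiffAt.of_le inf2), hcw.continuous.continuousOn, fun s _ => hw s, ?_, ?_,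
    ?_, ?_, ?_, ?_⟩
  · have hs' : Real.sin s ≠ 0 := (Real.sin_pos_of_mem_Ioo hs).ne'
    have h3 : ContDiffAt ℝ ∞ (fun s : ℝ => P (Real.cos s) / Real.sin s ^ 2) s :=
      (hP.comp Real.contDiff_cos).contDiffAt.div (Real.contDiff_sin.pow 2).contDiffAt
        (pow_ne_zero 2 hs')
    exact h3.of_le inf2
  · obtain ⟨t0, ht0, hmin⟩ := (isCompact_Icc (a := (-1 : ℝ)) (b := 1)).exists_isMinOn
      ⟨0, by norm_num⟩ hP.continuous.continuousOn
    refine ⟨P t0, hpos t0 ht0, fun s hs => ?_⟩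
    have h3 : P t0 ≤ P (Real.cos s) := hmin ⟨Real.neg_one_le_cos s, Real.cos_le_one s⟩
    have hs' := Real.sin_pos_of_mem_Ioo hs
    show P t0 ≤ P (Real.cos s) / Real.sin s ^ 2
    rw [le_div_iff₀ (by positivity)]
    have h4 : Real.sin s ^ 2 ≤ 1 := Real.sin_sq_le_one s
    have h5 := hpos t0 ht0
    nlinarith
  · obtain ⟨C1, hC1⟩ := bdd hct.continuous
    obtain ⟨C2, hC2⟩ := bdd (hct.continuous_deriv (by simp))
    exact ⟨max C1 C2, fun s hs => ⟨(hC1 s hs).trans (le_max_left _ _),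
      (hC2 s hs).trans (le_max_right _ _)⟩⟩
  · have h3 : Tendsto (fun s : ℝ => P (Real.cos s)) (𝓝[>] 0) (𝓝 (P 1)) := by
      have h := hPc.tendsto 0
      rw [Real.cos_zero] at h
      exact h.mono_left nhdsWithin_le_nhds
    have h4 := h3.pos_mul_atTop h1 (inv_l 2 two_ne_zero)
    exact h4
  · have h3 : Tendsto (fun s : ℝ => P (Real.cos s)) (𝓝[<] Real.pi) (𝓝 (P (-1))) := by
      have h := hPc.tendsto Real.pi
      rw [Real.cos_pi] at h
      exact h.mono_left nhdsWithin_le_nhds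
    have h4 := h3.pos_mul_atTop h2 (inv_r 2 two_ne_zero)
    exact h4
  · have h3 : Tendsto (Gf P) (𝓝[>] 0) (𝓝 (Gf P 0)) :=
      ((cont_G hP).tendsto 0).mono_left nhdsWithin_le_nhds
    have h4 : Gf P 0 < 0 := by
      unfold Gf; rw [Real.cos_zero, Real.sin_zero]; linarith
    have h5 := (inv_l 3 three_ne_zero).atTop_mul_neg h4 h3
    refine h5.congr' ?_
    filter_upwards [sin_pos_l] with s hs
    exact (der_u hP hs.ne').symm
  · have h3 : Tendsto (Gf P) (𝓝[<] Real.pi) (𝓝 (Gf P Real.pi)) :=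
      ((cont_G hP).tendsto Real.pi).mono_left nhdsWithin_le_nhds
    have h4 : 0 < Gf P Real.pi := by
      unfold Gf; rw [Real.cos_pi, Real.sin_pi]; linarith
    have h5 := (inv_r 3 three_ne_zero).atTop_mul_pos h4 h3
    refine h5.congr' ?_
    filter_upwards [sin_pos_r] with s hs
    exact (der_u hP hs.ne').symm

end Pool.Agent.USP
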