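import Pool.Agent.USP.Targets

/-!
# USP: the Hamiltonian vector field of `usHam` along `Psi`
-/

set_option autoImplicit false

open Set Filter Topology MeasureTheory
open scoped ContDiff

namespace Pool.Agent.USP
open Pool.Agent.MSup

namespace XUS_

section
variable {ι : Type} [Fintype ι]

theorem ip_comm (x y : ι → ℝ) : ip x y = ip y x := by
  simp only [ip]
  exact Finset.sum_congr rfl fun i _ => mul_comm _ _

theorem ip_zero_left (x : ι → ℝ) : ip (0 : ι → ℝ) x = 0 := by
  simp [ip]

theorem ip_zero_right (x : ι → ℝ) : ip x (0 : ι → ℝ) = 0 := by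
  simp [ip]

theorem ip_sub_left (x y z : ι → ℝ) : ip (x - y) z = ip x z - ip y z := by
  rw [ip_comm, ip_sub_right, ip_comm z x, ip_comm z y]

variable [DecidableEq ι]

theorem ip_single_right (x : ι → ℝ) (i : ι) : ip x (Pi.single i 1) = x i := by
  simp [ip, Pi.single_apply]

theorem ip_single_left (x : ι → ℝ) (i : ι) : ip (Pi.single i 1) x = x i := by
  rw [ip_comm, ip_single_right]

end

section
variable {β : Type} [Fintype β]

theorem zc_sub (x y : Option β → ℝ) : zc (x - y) = zc x - zc y := rfl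

theorem zc_add (x y : Option β → ℝ) : zc (x + y) = zc x + zc y := rfl

theorem zc_smul (c : ℝ) (x : Option β → ℝ) : zc (c • x) = c • zc x := rfl

theorem zc_zero : zc (0 : Option β → ℝ) = 0 := rfl

theorem ip_split (x y : Option β → ℝ) : ip x y = x none * y none + ip (zc x) (zc y) := by
  simp only [ip, Fintype.sum_option, zc]

variable [DecidableEq β]

theorem zc_single_none : zc (Pi.single none 1 : Option β → ℝ) = 0 := by
  funext i
  simp [zc]

theorem zc_single_some (j : β) : zc (Pi.single (some j) 1 : Option β → ℝ) = Pi.single j 1 := by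
  funext i
  simp [zc, Pi.single_apply]

end

section
variable {β : Type} [Fintype β] [DecidableEq β]

/-- the scalar coefficient of the differential of `usHam` in the first coordinate -/
noncomputable def MC (J : (β → ℝ) →ₗ[ℝ] (β → ℝ)) (P Q S W : ℝ → ℝ) (z : Ph β) : ℝ :=
  (deriv P (z.1 none) * ip (zc z.2) (zc z.2) + deriv Q (z.1 none) * z.2 none ^ 2 +
    deriv S (z.1 none) * kap J z ^ 2) / 2 + deriv W (z.1 none) * z.2 none * kap J z

variable (hL : T_LFT) (hD : T_DUS) (J : (β → ℝ) →ₗ[ℝ] (β → ℝ))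
  (hJ : ∀ x y, ip (J x) y = -ip x (J y)) (P Q S W : ℝ → ℝ)
  (hP : ContDiff ℝ ∞ P) (hQ : ContDiff ℝ ∞ Q) (hS : ContDiff ℝ ∞ S) (hW : ContDiff ℝ ∞ W)

include hJ in
theorem JJ0 (x : β → ℝ) : ip (J x) x = 0 := by
  have := hJ x x
  rw [ip_comm x (J x)] at this
  linarith

include hL hD hP hQ hS hW in
theorem fd (z : Ph β) (hz : z ∈ TS (Option β)) (v : Ph β) :
    fderiv ℝ (lift (usHam J P Q S W)) z v =
      fderiv ℝ (usHam J P Q S W) z (v.1 - ip z.1 v.1 • z.1,
        v.2 + ip z.1 v.1 • z.2 - (ip v.1 z.2 + ip z.1 v.2) • z.1) :=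
  hL (Option β) (usHam J P Q S W) z v hz
    (((hD β J P Q S W hP hQ hS hW).1.differentiable (by simp)) z)

include hL hD hJ hP hQ hS hW in
theorem x1n (z : Ph β) (hz : z ∈ TS (Option β)) :
    (XH (usHam J P Q S W) z).1 none = P (z.1 none) * z.1 none ^ 2 * z.2 none +
      (Q (z.1 none) * z.2 none + W (z.1 none) * kap J z) * (1 - z.1 none ^ 2) := by
  have h1 := hz.2
  rw [ip_split] at h1
  have h2 := JJ0 J hJ (zc z.1)
  simp only [XH]
  rw [fd hL hD J P Q S W hP hQ hS hW z hz, (hD β J P Q S W hP hQ hS hW).2]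
  simp only [ip_zero_right, ip_zero_left, zero_smul, sub_zero, zc_zero, map_zero, zc_sub, zc_smul,
    zc_single_none, ip_single_right, Pi.zero_apply, Pi.sub_apply, Pi.smul_apply, smul_eq_mul,
    Pi.single_eq_same, zero_sub, add_zero, zero_add, mul_zero, zero_mul, zero_div]
  rw [← neg_smul, ip_smul_right, ip_smul_right, h2, ip_comm (zc z.2) (zc z.1)]
  have h3 : ip (zc z.1) (zc z.2) = -(z.1 none * z.2 none) := by linarith
  rw [h3]
  ring

include hL hD hJ hP hQ hS hW in
theorem x1s (z : Ph β) (hz : z ∈ TS (Option β)) (j : β) :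
    (XH (usHam J P Q S W) z).1 (some j) =
      P (z.1 none) * (z.2 (some j) + z.1 (some j) * z.1 none * z.2 none) -
      (Q (z.1 none) * z.2 none + W (z.1 none) * kap J z) * (z.1 (some j) * z.1 none) +
      (S (z.1 none) * kap J z + W (z.1 none) * z.2 none) * J (zc z.1) j := by
  have h1 := hz.2
  rw [ip_split] at h1
  have h2 := JJ0 J hJ (zc z.1)
  simp only [XH]
  rw [fd hL hD J P Q S W hP hQ hS hW z hz, (hD β J P Q S W hP hQ hS hW).2]
  have e0 : (Pi.single (some j) (1 : ℝ) : Option β → ℝ) none = 0 := by simp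
  simp only [ip_zero_right, ip_zero_left, zero_smul, sub_zero, zc_zero, map_zero, zc_sub, zc_smul,
    zc_single_some, ip_single_right, Pi.zero_apply, Pi.sub_apply, Pi.smul_apply, smul_eq_mul,
    e0, zero_sub, add_zero, zero_add, mul_zero, zero_mul, zero_div]
  rw [ip_sub_right, ip_sub_right, ip_smul_right, ip_smul_right, h2, ip_comm (zc z.2) (zc z.1),
    ip_single_right, ip_single_right]
  have h3 : ip (zc z.1) (zc z.2) = -(z.1 none * z.2 none) := by linarith
  rw [h3]
  simp only [zc]
  ring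

include hL hD hJ hP hQ hS hW in
theorem x2n (z : Ph β) (hz : z ∈ TS (Option β)) :
    (XH (usHam J P Q S W) z).2 none = -(MC J P Q S W z * (1 - z.1 none ^ 2) +
      P (z.1 none) * z.1 none * (ip (zc z.2) (zc z.2) + z.2 none ^ 2)) := by
  have h1 := hz.2
  rw [ip_split] at h1
  have h2 := JJ0 J hJ (zc z.1)
  simp only [XH]
  rw [fd hL hD J P Q S W hP hQ hS hW z hz, (hD β J P Q S W hP hQ hS hW).2]
  simp only [ip_zero_right, ip_zero_left, zero_smul, sub_zero, zc_zero, map_zero, zc_sub, zc_smul,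
    zc_add, zc_single_none, ip_single_right, ip_single_left, Pi.zero_apply, Pi.sub_apply,
    Pi.add_apply, Pi.smul_apply, smul_eq_mul,
    Pi.single_eq_same, zero_sub, add_zero, zero_add, mul_zero, zero_mul, zero_div]
  rw [← neg_smul, map_smul, ip_smul_left, ip_sub_right, ip_sub_right, ip_smul_right, ip_smul_right,
    ip_smul_right, ip_smul_right, h2, ip_comm (zc z.2) (zc z.1)]
  have h3 : ip (zc z.1) (zc z.2) = -(z.1 none * z.2 none) := by linarith
  rw [h3]
  simp only [MC, kap]
  ring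

include hL hD hJ hP hQ hS hW in
theorem x2s (z : Ph β) (hz : z ∈ TS (Option β)) (j : β) :
    (XH (usHam J P Q S W) z).2 (some j) =
      -(-(MC J P Q S W z * (z.1 (some j) * z.1 none)) +
      P (z.1 none) * (z.1 (some j) * ip (zc z.2) (zc z.2) +
        z.2 (some j) * (z.2 none * z.1 none)) +
      (Q (z.1 none) * z.2 none + W (z.1 none) * kap J z) *
        (z.1 (some j) * z.2 none - z.2 (some j) * z.1 none) -
      (S (z.1 none) * kap J z + W (z.1 none) * z.2 none) * J (zc z.2) j) := by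
  have h1 := hz.2
  rw [ip_split] at h1
  have h2 := JJ0 J hJ (zc z.1)
  have h4 : ip (J (Pi.single j 1)) (zc z.2) = -J (zc z.2) j := by
    rw [hJ, ip_single_left]
  simp only [XH]
  rw [fd hL hD J P Q S W hP hQ hS hW z hz, (hD β J P Q S W hP hQ hS hW).2]
  have e0 : (Pi.single (some j) (1 : ℝ) : Option β → ℝ) none = 0 := by simp
  simp only [ip_zero_right, ip_zero_left, zero_smul, sub_zero, zc_zero, map_zero, zc_sub, zc_smul,
    zc_add, zc_single_some, ip_single_right, ip_single_left, Pi.zero_apply, Pi.sub_apply,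
    Pi.add_apply, Pi.smul_apply, smul_eq_mul, map_sub, map_smul,
    e0, zero_sub, add_zero, zero_add, mul_zero, zero_mul, zero_div]
  rw [ip_sub_left, ip_sub_right, ip_sub_right, ip_smul_left, ip_smul_right, ip_smul_right,
    ip_smul_right, ip_smul_right, h2, h4, ip_comm (zc z.2) (zc z.1)]
  have h3 : ip (zc z.1) (zc z.2) = -(z.1 none * z.2 none) := by linarith
  rw [h3]
  simp only [MC, kap, zc]
  ring

end

section
variable (P Q S W : ℝ → ℝ) (hP : ContDiff ℝ ∞ P) (hQ : ContDiff ℝ ∞ Q) (hS : ContDiff ℝ ∞ S)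
  (hW : ContDiff ℝ ∞ W)

theorem dcos {F : ℝ → ℝ} (hF : ContDiff ℝ ∞ F) (s : ℝ) :
    HasDerivAt (fun t => F (Real.cos t)) (deriv F (Real.cos s) * -Real.sin s) s :=
  HasDerivAt.comp s (hF.differentiable (by simp) _).hasDerivAt (Real.hasDerivAt_cos s)

include hP hQ in
theorem dw (s : ℝ) : deriv (usRd P Q S W).w s =
    -(deriv P (Real.cos s) * Real.sin s * Real.cos s ^ 2) -
      2 * P (Real.cos s) * Real.cos s * Real.sin s -
      deriv Q (Real.cos s) * Real.sin s ^ 3 + 2 * Q (Real.cos s) * Real.sin s * Real.cos s := by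
  have h := ((dcos hP s).fun_mul ((Real.hasDerivAt_cos s).fun_pow 2)).fun_add
    ((dcos hQ s).fun_mul ((Real.hasDerivAt_sin s).fun_pow 2))
  have h2 : deriv (usRd P Q S W).w s = _ := h.deriv
  rw [h2]
  push_cast
  ring

include hP in
theorem du {s : ℝ} (hs : Real.sin s ≠ 0) : deriv (usRd P Q S W).u s =
    -(deriv P (Real.cos s) / Real.sin s) - 2 * P (Real.cos s) * Real.cos s / Real.sin s ^ 3 := by
  have h := (dcos hP s).fun_div ((Real.hasDerivAt_sin s).fun_pow 2) (pow_ne_zero 2 hs)
  have h2 : deriv (usRd P Q S W).u s = _ := h.deriv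
  rw [h2]
  push_cast
  field_simp

include hS in
theorem dc (s : ℝ) : deriv (usRd P Q S W).c s = -(deriv S (Real.cos s) * Real.sin s) := by
  have h2 : deriv (usRd P Q S W).c s = _ := (dcos hS s).deriv
  rw [h2]
  ring

include hW in
theorem dh (s : ℝ) : deriv (usRd P Q S W).h s =
    deriv W (Real.cos s) * Real.sin s ^ 2 - W (Real.cos s) * Real.cos s := by
  have h := ((dcos hW s).fun_mul (Real.hasDerivAt_sin s)).fun_neg
  have h2 : deriv (usRd P Q S W).h s = _ := h.deriv
  rw [h2]
  ring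

end

end XUS_

open XUS_ in
theorem p_XUS : T_XUS := by
  intro hO hM hL hD β _ _ R P Q S W hP hQ hS hW hpos
  have cF : ∀ F : ℝ → ℝ, ContDiff ℝ ∞ F → ContDiff ℝ 2 fun s => F (Real.cos s) :=
    fun F hF => (hF.of_le (by norm_cast)).comp Real.contDiff_cos
  refine ⟨fun s hs => ?_, fun s hs => ?_, fun s hs => ?_, fun s hs => ?_, fun s hs => hpos s, ?_⟩
  · exact (((cF P hP).mul (Real.contDiff_cos.pow 2)).add
      ((cF Q hQ).mul (Real.contDiff_sin.pow 2))).contDiffAt
  · exact (cF P hP).contDiffAt.div (Real.contDiff_sin.pow 2).contDiffAt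
      (pow_ne_zero 2 (Real.sin_pos_of_mem_Ioo hs).ne')
  · exact (cF S hS).contDiffAt
  · exact ((cF W hW).mul Real.contDiff_sin).neg.contDiffAt
  · intro s hs a b p L
    have hs0 : Real.sin s ≠ 0 := (Real.sin_pos_of_mem_Ioo hs).ne'
    obtain ⟨hz, hz2⟩ := hM hO β R s a b p L
    obtain ⟨hk, hA⟩ := hz2 hs0
    have c2 : Real.cos s ^ 2 = 1 - Real.sin s ^ 2 := Real.cos_sq' s
    have c3 : Real.cos s ^ 3 = Real.cos s * (1 - Real.sin s ^ 2) := by rw [← c2]; ring
    have c4 : Real.cos s ^ 4 = (1 - Real.sin s ^ 2) ^ 2 := by rw [← c2]; ring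
    have c5 : Real.cos s ^ 5 = Real.cos s * (1 - Real.sin s ^ 2) ^ 2 := by rw [← c2]; ring
    have c6 : Real.cos s ^ 6 = (1 - Real.sin s ^ 2) ^ 3 := by rw [← c2]; ring
    have x0 : (R.Psi s a b p L).1 none = Real.cos s := rfl
    have t0 : (R.Psi s a b p L).2 none = -(p * Real.sin s) := rfl
    have xj : ∀ j, (R.Psi s a b p L).1 (some j) = Real.sin s * R.om a b j := fun j => rfl
    have tj : ∀ j, (R.Psi s a b p L).2 (some j) =
      p * Real.cos s * R.om a b j + L / Real.sin s * R.om' a b j := fun j => rfl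
    have zx : zc (R.Psi s a b p L).1 = Real.sin s • R.om a b := by
      funext j
      rfl
    have zt : zc (R.Psi s a b p L).2 =
        (p * Real.cos s) • R.om a b + (L / Real.sin s) • R.om' a b := by
      funext j
      rfl
    have Jx : ∀ j, R.J (zc (R.Psi s a b p L).1) j = Real.sin s * R.J (R.om a b) j := by
      intro j
      rw [zx, map_smul]
      rfl
    have Jt : ∀ j, R.J (zc (R.Psi s a b p L).2) j = p * Real.cos s * R.J (R.om a b) j +
        L / Real.sin s * R.J (R.om' a b) j := by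
      intro j
      rw [zt, map_add, map_smul, map_smul]
      rfl
    have hMC : MC R.J P Q S W (R.Psi s a b p L) =
        (deriv P (Real.cos s) * (p ^ 2 * Real.cos s ^ 2 + L ^ 2 / Real.sin s ^ 2) +
        deriv Q (Real.cos s) * (p * Real.sin s) ^ 2 + deriv S (Real.cos s) * (R.k * L) ^ 2) / 2 -
        deriv W (Real.cos s) * (p * Real.sin s) * (R.k * L) := by
      rw [MC, hk, hA, x0, t0]
      ring
    rw [dw P Q S W hP hQ, du P Q S W hP hs0, dc P Q S W hS, dh P Q S W hW]
    refine Prod.ext (funext ?_) (funext ?_)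
    · rintro (_ | j)
      · rw [x1n hL hD R.J R.skew P Q S W hP hQ hS hW _ hz, hk, x0, t0]
        simp only [Fr.dPsi, Option.elim, usRd]
        ring_nf
        simp only [c2, c3, c4, c5]
        ring
      · rw [x1s hL hD R.J R.skew P Q S W hP hQ hS hW _ hz, hk, x0, t0, Jx, xj, tj]
        simp only [Fr.dPsi, Option.elim, usRd]
        field_simp
        ring_nf
        simp only [c2, c3, c4, c5]
        ring
    · rintro (_ | j)
      · rw [x2n hL hD R.J R.skew P Q S W hP hQ hS hW _ hz, hMC, hA, x0, t0]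
        simp only [Fr.dPsi, Option.elim, usRd]
        field_simp
        ring_nf
        simp only [c2, c3, c4, c5, c6]
        ring
      · rw [x2s hL hD R.J R.skew P Q S W hP hQ hS hW _ hz, hMC, hA, hk, x0, t0, Jt, xj, tj]
        simp only [Fr.dPsi, Option.elim, usRd]
        field_simp
        ring_nf
        simp only [c2, c3, c4, c5, c6]
        ring

end Pool.Agent.USP
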