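import Pool.Agent.USP.Core
import Pool.Agent.USP.P_ORT
import Pool.Agent.USP.P_MEM
import Pool.Agent.USP.P_DER
import Pool.Agent.USP.P_LFT
import Pool.Agent.USP.P_DUS
import Pool.Agent.USP.P_XUS
import Pool.Agent.USP.P_INJ
import Pool.Agent.USP.P_BRA
import Pool.Agent.USP.P_INT
import Pool.Agent.USP.P_PER
import Pool.Agent.USP.P_RAT
import Pool.Agent.USP.P_POL
import Pool.Agent.USP.P_COF
import Pool.Agent.USP.P_RTL
import Pool.Agent.USP.P_WIN
import Pool.Agent.USP.P_LOW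
import Pool.Agent.USP.P_JCT
import Pool.Agent.USP.P_IRR
import Pool.Agent.USP.P_CST
import Pool.Agent.USP.P_BIG
import Pool.Agent.USP.P_REG
import Pool.Agent.USP.P_SUB
import Pool.Agent.USP.P_FUB
import Pool.Agent.USP.P_GBD
import Pool.Agent.USP.P_COR
import Pool.Agent.USP.P_POT
import Pool.Agent.USP.P_SUS
import Pool.Agent.USP.P_ONE
import Pool.Agent.USP.P_PHC
import Pool.Agent.USP.P_LIM
import Pool.Agent.USP.P_CON
import Pool.Agent.USP.P_FRM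
import Pool.Agent.USP.P_FEX
import Pool.Agent.USP.P_DEN
import Pool.Agent.USP.P_PSD
import Pool.Agent.USP.P_ODE
import Pool.Agent.USP.P_CFL

/-!
# USP: the main theorem
-/

set_option autoImplicit false

open Set
open scoped ContDiff

namespace Pool.Agent.USP
open Pool.Agent.MSup

theorem main {β : Type} [Fintype β] [DecidableEq β] (J : (β → ℝ) →ₗ[ℝ] (β → ℝ))
    (skew : ∀ x y, ip (J x) y = -ip x (J y)) (sq : ∀ x, J (J x) = -x)
    (hβ : 3 ≤ Fintype.card β) (P Q S W : ℝ → ℝ)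
    (sP : ContDiff ℝ ∞ P) (sQ : ContDiff ℝ ∞ Q) (sS : ContDiff ℝ ∞ S) (sW : ContDiff ℝ ∞ W)
    (pos : ∀ z ∈ TS (Option β), z.2 ≠ 0 → 0 < usHam J P Q S W z)
    (h : MaxSuperintegrable (usHam J P Q S W)) :
    (∀ t ∈ Icc (-1 : ℝ) 1, S t * (P t * t ^ 2 + Q t * (1 - t ^ 2)) = W t ^ 2 * (1 - t ^ 2)) ∧
      ConfFlat (usHam J P Q S W) :=
  main_of p_ORT p_MEM p_DER p_LFT p_DUS p_XUS p_INJ p_BRA p_INT p_PER p_RAT p_POL p_COF p_RTL
    p_WIN p_LOW p_JCT p_IRR p_CST p_BIG p_REG p_SUB p_FUB p_GBD p_COR p_POT p_SUS p_ONE p_PHC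
    p_LIM p_CON p_FRM p_FEX p_DEN p_PSD p_ODE p_CFL J skew sq hβ P Q S W sP sQ sS sW pos h

end Pool.Agent.USP
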