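import Pool.Agent.USP.Defs

/-!
# USP: conformal flatness
-/

set_option autoImplicit false

open Set Filter Topology
open scoped ContDiff

namespace Pool.Agent.USP
open Pool.Agent.MSup

/-- The metric with Hamiltonian `H` on the unit sphere of `ℝ × ℝ^β` is conformally flat: near
every point there is a smooth map `Φ` to `ℝ^β` (the dimension of the sphere) such that the squared
dual norm of the pull-back of a covector `π` by `Φ` is a positive smooth function times `|π|²`. -/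
def ConfFlat {β : Type} [Fintype β] [DecidableEq β] (H : Ph β → ℝ) : Prop :=
  ∀ x0 : Option β → ℝ, ip x0 x0 = 1 → ∃ N : Set (Option β → ℝ), IsOpen N ∧ x0 ∈ N ∧
    ∃ (Φ : (Option β → ℝ) → (β → ℝ)) (lam : (Option β → ℝ) → ℝ),
      ContDiffOn ℝ ∞ Φ N ∧ ContDiffOn ℝ ∞ lam N ∧ ∀ x ∈ N, ip x x = 1 → 0 < lam x ∧
        ∀ π : β → ℝ, 2 * H (x, tproj x (fun i => ip (fderiv ℝ Φ x (Pi.single i 1)) π)) =
          lam x * ip π π

/-! ## Targets of group C -/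

/-- Smooth solutions of the gauge and conformal factor equations. `ε = 1`: the interval is `(-1, 1]`,
`ε = -1`: `[-1, 1)`. Proof for `ε = 1` (the other case by `t ↦ -t` or in the same way). Let `w t = P t t² + Q t (1 - t²)`; `P, w > 0` on `(-1-δ, 1+δ)`. With a
`ContDiffBump` `χ` at `0` (`rIn = 1`, `rOut = 1 + δ`) `θ t = t χ t` is smooth, `θ t = t` on `[-1,1]`, values in `(-1-δ, 1+δ)`. So `N t = t - √(P (θ t) / w (θ t))` and `W (θ t) / w (θ t)` are smooth on the line, and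
`N 1 = 0` because `w 1 = P 1`. `hadamard` (`Pool/Agent/TOS/Hada.lean`) for `x ↦ N (1 - x)`: `N t = (1 - t) f (1 - t)` with `f` smooth. `r t = f (1 - t)/(1 + t)` is smooth on `(-1, ∞)`; `ρ = exp (∫_0^t r)`, `φ = ∫_0^t W∘θ/w∘θ`, `I = (-1, ∞)`
(`contDiffOn_infty_iff_deriv_of_isOpen`). -/
def T_ODE : Prop := ∀ P Q W : ℝ → ℝ, ContDiff ℝ ∞ P → ContDiff ℝ ∞ Q → ContDiff ℝ ∞ W → (∀ t ∈ Icc (-1 : ℝ) 1, 0 < P t) →
  (∀ t ∈ Icc (-1 : ℝ) 1, 0 < P t * t ^ 2 + Q t * (1 - t ^ 2)) → ∀ ε : ℝ, (ε = 1 ∨ ε = -1) →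
  ∃ (I : Set ℝ) (ρ φ : ℝ → ℝ), IsOpen I ∧ (∀ t ∈ Icc (-1 : ℝ) 1, t ≠ -ε → t ∈ I) ∧ ContDiffOn ℝ ∞ ρ I ∧ ContDiffOn ℝ ∞ φ I ∧ (∀ t ∈ I, 0 < ρ t) ∧
    ∀ t ∈ Icc (-1 : ℝ) 1, t ∈ I → HasDerivAt φ (W t / (P t * t ^ 2 + Q t * (1 - t ^ 2))) t ∧
      ∃ r : ℝ, HasDerivAt ρ (ρ t * r) t ∧ (1 - t ^ 2) * r - t = -(ε * √(P t / (P t * t ^ 2 + Q t * (1 - t ^ 2))))

/-- Conformal flatness. `x0` has `t0 = x0 none ∈ [-1,1]`; choose `ε = ±1` with `t0 ≠ -ε`, `I, ρ, φ` from `T_ODE`, `N = {x | x none ∈ I}` intersected with an open set on which `P (x none) > 0` (or: `lam x = P (x none) ρ²` is only needed positive on the sphere), `Φ x = ρ(t) (cos φ(t) z - sin φ(t) J z)`, `lam x = P t ρ(t)²`, where `t = x none`, `z = zc x`.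
Let `|x| = 1`, `D = 1 - t² = |z|²`, `w = P t² + Q D`, `y = cos φ z - sin φ J z`, `A = ⟨y, π⟩`, `B = ⟨J y, π⟩`, `g = r A - φ' B`. The pull-back of `π` is `q` with `q none = ρ g`, `zc q = ρ (cos φ π + sin φ J π)`, `⟨z, zc q⟩ = ρ A`, `⟨J z, zc q⟩ = ρ B`,
`|zc q|² = ρ² |π|²`. `m = ip x q = ρ (t g + A)`; `tproj x q = q - m x` has `τ = ρ T`, `T = D g - t A`, `|ζ|² = ρ²|π|² - 2 m ρ A + m² D`, `κ = ρ B`. So `2H - P ρ² |π|² = ρ² (P (-2 (t g + A) A + D (t g + A)²) + Q T² + S B² + 2 W T B)`. If `D = 0` then `z = 0`, `A = B = 0`, `g = 0`. Otherwise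
`t g + A = (t T + A)/D`, so `D` times the bracket is `w T² - P A² + D S B² + 2 D W T B`, and with `S w = W² D`: `= w (T + D W B/w)² - P A²`. Finally `T = (D r - t) A - D φ' B = -ε √(P/w) A - D (W/w) B`. -/
def T_CFL : Prop := T_ODE → ∀ (β : Type) [Fintype β] [DecidableEq β] (J : (β → ℝ) →ₗ[ℝ] (β → ℝ)) (P Q S W : ℝ → ℝ), (∀ x y, ip (J x) y = -ip x (J y)) → (∀ x, J (J x) = -x) →
  ContDiff ℝ ∞ P → ContDiff ℝ ∞ Q → ContDiff ℝ ∞ S → ContDiff ℝ ∞ W → (∀ t ∈ Icc (-1 : ℝ) 1, 0 < P t) →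
  (∀ t ∈ Icc (-1 : ℝ) 1, 0 < P t * t ^ 2 + Q t * (1 - t ^ 2)) →
  (∀ t ∈ Icc (-1 : ℝ) 1, S t * (P t * t ^ 2 + Q t * (1 - t ^ 2)) = W t ^ 2 * (1 - t ^ 2)) → ConfFlat (usHam J P Q S W)

end Pool.Agent.USP
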