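import Pool.Agent.USP.Defs

/-!
# USP: targets

`T_XXX : Prop` is proved in the file `P_XXX.lean` (`theorem p_XXX : T_XXX`); the hypotheses `T_YYY`
inside a statement are other blocks. The docstrings contain the complete proofs.
-/

set_option autoImplicit false

open Set Filter Topology MeasureTheory
open scoped ContDiff

namespace Pool.Agent.USP
open Pool.Agent.MSup

/-! ## Group G: geometry -/

/-- `rot b` is linear, commutes with `J`, preserves `ip` (`ip (J x) x = 0` by `skew` and symmetry of `ip`, `ip (J x) (J y) = ip x y`),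
so everything reduces to `b = 0`: with `x = cos a w + sin a v`, `y = -sin a w + cos a v`: `ip x x = ip y y = 1`, `ip x y = 0`,
`ip (J x) y = (cos² a) k - (sin² a) ip (J v) w = k`. -/
def T_ORT : Prop := ∀ (β : Type) [Fintype β] (R : Fr β) (a b : ℝ),
  ip (R.om a b) (R.om a b) = 1 ∧ ip (R.om' a b) (R.om' a b) = 1 ∧ ip (R.om a b) (R.om' a b) = 0 ∧
  ip (R.J (R.om a b)) (R.om' a b) = R.k ∧ ip (R.J (R.om a b)) (R.om a b) = 0 ∧
  ip (R.J (R.om' a b)) (R.om' a b) = 0 ∧ ip (R.J (R.om' a b)) (R.om a b) = -R.k ∧ |R.k| ≤ 1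

/-- `T_ORT`; sums over `Option β` by `Fintype.sum_option`. `Real.sin s ≠ 0` is only needed for the last two. -/
def T_MEM : Prop := T_ORT → ∀ (β : Type) [Fintype β] (R : Fr β) (s a b p L : ℝ),
  R.Psi s a b p L ∈ TS (Option β) ∧ (Real.sin s ≠ 0 → kap R.J (R.Psi s a b p L) = R.k * L ∧
    ip (zc (R.Psi s a b p L).2) (zc (R.Psi s a b p L).2) =
      p ^ 2 * Real.cos s ^ 2 + L ^ 2 / Real.sin s ^ 2)

/-- Componentwise (`hasDerivAt_pi`, `HasDerivAt.prodMk`). `∂_a om = om'`, `∂_a om' = -om`, `∂_b om = J om`, `∂_b om' = J om'` (`sq`). Then the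
product rule (model: `hasDerivAt_Psi` in `Pool/Agent/MSup/Psi.lean`). -/
def T_DER : Prop := ∀ (β : Type) [Fintype β] (R : Fr β) (L : ℝ) (s a b p : ℝ → ℝ) (s' a' b' p' x : ℝ),
  HasDerivAt s s' x → HasDerivAt a a' x → HasDerivAt b b' x → HasDerivAt p p' x → Real.sin (s x) ≠ 0 →
  HasDerivAt (fun t => R.Psi (s t) (a t) (b t) (p t) L) (R.dPsi (s x) (a x) (b x) (p x) L s' a' b' p') x

/-- Chain rule for `lift H = H ∘ toTS` (`contDiffAt_toTS`). For `z ∈ TS` (`ip x x = 1`, `ip x p = 0`) the derivative of `toTS` at `(x,p)` in the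
direction `(ξ,η)`: with `N = ip x x` (derivative `2 ip x ξ`), `√N` has derivative `ip x ξ`, `(√N)⁻¹` has `-ip x ξ`, `ip x p / ip x x` has `ip ξ p + ip x η`. -/
def T_LFT : Prop := ∀ (ι : Type) [Fintype ι] [DecidableEq ι] (H : (ι → ℝ) × (ι → ℝ) → ℝ) (z v : (ι → ℝ) × (ι → ℝ)),
  z ∈ TS ι → DifferentiableAt ℝ H z →
  fderiv ℝ (lift H) z v = fderiv ℝ H z (v.1 - ip z.1 v.1 • z.1,
    v.2 + ip z.1 v.1 • z.2 - (ip v.1 z.2 + ip z.1 v.2) • z.1)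

/-- The derivative along the line `z + t v` (the functions of `t` are explicit). `usHam` is smooth (`fun_prop`, finite sums). -/
def T_DUS : Prop := ∀ (β : Type) [Fintype β] [DecidableEq β] (J : (β → ℝ) →ₗ[ℝ] (β → ℝ)) (P Q S W : ℝ → ℝ),
  ContDiff ℝ ∞ P → ContDiff ℝ ∞ Q → ContDiff ℝ ∞ S → ContDiff ℝ ∞ W → ContDiff ℝ ∞ (usHam J P Q S W) ∧
  ∀ z v : Ph β, fderiv ℝ (usHam J P Q S W) z v =
    (deriv P (z.1 none) * v.1 none * ip (zc z.2) (zc z.2) + deriv Q (z.1 none) * v.1 none * z.2 none ^ 2 +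
      deriv S (z.1 none) * v.1 none * kap J z ^ 2) / 2 + deriv W (z.1 none) * v.1 none * z.2 none * kap J z +
    P (z.1 none) * ip (zc z.2) (zc v.2) + Q (z.1 none) * z.2 none * v.2 none +
    W (z.1 none) * v.2 none * kap J z +
    (S (z.1 none) * kap J z + W (z.1 none) * z.2 none) *
      (ip (J (zc v.1)) (zc z.2) + ip (J (zc z.1)) (zc v.2))

/-- `XH H z = (∂_p lift H, -∂_x lift H)`; `T_LFT`, `T_DUS` with `v = (0, e_i)` and `(e_i, 0)`. At `z = Psi s a b p L` (write `C = cos s`, `Σ = sin s`, `o = om`, `o' = om'`,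
`K = k L`; `T_MEM`, `T_ORT`): `κ = K`, `|ζ|² = p² C² + L²/Σ²`, `τ = -pΣ`. The claimed identities were checked numerically to 10 digits; they are
identities between combinations of the vectors `o, o', J o, J o'` (component `some i`) with coefficients rational in `C, Σ, p, L, k` and the values and
derivatives of `P, Q, S, W` at `C`; `C² = 1 - Σ²`. `deriv (usRd ..).w s` etc. by the chain rule. Note `J om' , J om` appear through `ip (J (zc v.1)) (zc z.2) = - ip (zc v.1) (J (zc z.2))`.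
(Model: `dPsi_eq_XH` in `Pool/Agent/MSup/Psi.lean`.) -/
def T_XUS : Prop := T_ORT → T_MEM → T_LFT → T_DUS → ∀ (β : Type) [Fintype β] [DecidableEq β] (R : Fr β) (P Q S W : ℝ → ℝ),
  ContDiff ℝ ∞ P → ContDiff ℝ ∞ Q → ContDiff ℝ ∞ S → ContDiff ℝ ∞ W →
  (∀ s : ℝ, 0 < P (Real.cos s) * Real.cos s ^ 2 + Q (Real.cos s) * Real.sin s ^ 2) →
  Red R (usHam R.J P Q S W) (usRd P Q S W)

/-- `rank_contra` (`MSup/Rank.lean`) with the four vectors `(z.1, -z.2)`, `(0, z.1)`, `XH H z`, `dPsi .. 0 da db 0`, `z = Psi s 0 0 p L`, which are killed by all differentials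
(`fderiv_lift_scale`, `fderiv_lift_shift`, `fderiv_XH`, `contDiffAt_lift`; `T_MEM`), `2 (card + 1) < 2 card - 1 + 4`. Independence of the four vectors: here `om = w`, `om' = v`. If
`c1 (x, -p) + c2 (0, x) + dPsi(ds, da', db', dp) = 0` (`dPsi` is linear in the last four variables, `XH` has `ds = D.w s p + D.h s k L ≠ 0` by `Red.eq`) then the first components give
`c1 cos s = sin s ds` and `(c1 sin s + cos s ds) w + sin s (da' v + db' J w) = 0`; `w, v, J w` are independent since `ip w (J w) = 0`, `ip v (J w) = k`, `|k| < 1`; so `da' = db' = 0`, `c1 = ds = 0`;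
the second components then give `c2 = dp = 0`. -/
def T_INJ : Prop := T_ORT → T_MEM → ∀ (β : Type) [Fintype β] [DecidableEq β] (R : Fr β) (H : Ph β → ℝ) (D : Rd), Red R H D →
  |R.k| < 1 → ∀ s ∈ Ioo 0 Real.pi, ∀ p L : ℝ, D.w s * p + D.h s * (R.k * L) ≠ 0 →
  ∀ F : Fin (2 * (Fintype.card (Option β) - 1) - 1) → Ph β → ℝ, (∀ i, PolyInMomenta (F i)) → (∀ i, IsIntegral H (F i)) →
  LinearIndependent ℝ (fun i => fderiv ℝ (lift (F i)) (R.Psi s 0 0 p L)) →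
  ∀ da db : ℝ, (da ≠ 0 ∨ db ≠ 0) → ∃ i, fderiv ℝ (lift (F i)) (R.Psi s 0 0 p L) (R.dPsi s 0 0 p L 0 da db 0) ≠ 0

/-- One branch of the orbit, `ε = ±1`. Let `σ = D.sg > 0`, `K = k L`, `p = pp ε`, so `w p + h K = ε σ`. The function `t ↦ lift F (Psi t (A t) (B t) (p t) L)` has derivative
`fderiv (lift F) (Psi ..) (dPsi .. 1 A' B' p')` (`T_DER`, `contDiffAt_lift`), and `dPsi (1, A', B', p') = (εσ)⁻¹ dPsi (εσ, u L, c K + h p, q)`, `q = -(w' p² + 2 h' p K + u' L² + c' K²)/2`: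
`A' = ε u L/σ = u L/(εσ)`; `B' = (c K + h p)/(εσ)` because `c K + h p = (c - h²/w) K + h εσ/w`; and `p' = q/(εσ)`: differentiate the identity `w p² + 2 h p K + u L² + c K² = X` (valid on the
interval; `p` is differentiable there). The second vector is `XH H` by `Red.eq`, so the derivative is `0` (`fderiv_XH`, `T_MEM`). Constant on the interval (`is_const_of_deriv_eq_zero` on an open interval); `lift_eq`. -/
def T_BRA : Prop := T_ORT → T_MEM → T_DER → ∀ (β : Type) [Fintype β] [DecidableEq β] (R : Fr β) (H : Ph β → ℝ) (D : Rd), Red R H D →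
  ∀ F : Ph β → ℝ, PolyInMomenta F → IsIntegral H F → ∀ L X ε : ℝ, (ε = 1 ∨ ε = -1) →
  ∀ s1 s2 : ℝ, 0 ≤ s1 → s2 ≤ Real.pi → (∀ s ∈ Ioo s1 s2, D.V R.k L s < X) → ∀ A B : ℝ → ℝ,
  (∀ s ∈ Ioo s1 s2, HasDerivAt A (ε * (D.u s * L / D.sg R.k L X s)) s) →
  (∀ s ∈ Ioo s1 s2, HasDerivAt B (ε * (D.ct s * (R.k * L) / D.sg R.k L X s) + D.h s / D.w s) s) →
  ∀ s ∈ Ioo s1 s2, ∀ t ∈ Ioo s1 s2, F (R.Psi s (A s) (B s) (D.pp R.k L X ε s) L) = F (R.Psi t (A t) (B t) (D.pp R.k L X ε t) L)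

/-- `V < X` inside, `V a = V b = X`, `V' ≠ 0` at both ends: then `c (x-a)(b-x) ≤ X - V x` on `[a,b]` for some `c > 0`, and `g / √(w (X - V))` is integrable on `(a,b)` for `g, w` continuous, `w > 0`. Proof: the quotient
`(X - V x)/((x-a)(b-x))` is continuous and positive on `(a,b)` and has the positive limits `-V'(a)/(b-a)`, `V'(b)/(b-a)` at the ends (they are `≥ 0` because `V < X` inside, and `≠ 0`). Integrability:
bounded by `C ((x-a)(b-x))^(-1/2) ≤ C' ((x-a)^(-1/2) + (b-x)^(-1/2))`, `intervalIntegral.intervalIntegrable_rpow'`; continuous on the open interval. -/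
def T_INT : Prop := ∀ (a b X : ℝ) (V w g : ℝ → ℝ), a < b → ContinuousOn V (Icc a b) → ContinuousOn w (Icc a b) → ContinuousOn g (Icc a b) →
  (∀ s ∈ Icc a b, 0 < w s) → V a = X → V b = X → (∀ s ∈ Ioo a b, V s < X) → (∃ V1 : ℝ, HasDerivAt V V1 a ∧ V1 ≠ 0) →
  (∃ V2 : ℝ, HasDerivAt V V2 b ∧ V2 ≠ 0) →
  (∃ c : ℝ, 0 < c ∧ ∀ s ∈ Icc a b, c * ((s - a) * (b - s)) ≤ X - V s) ∧
  IntervalIntegrable (fun x => g x / √(w x * (X - V x))) volume a b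

/-- The orbit after one period. Put `A(s) = ∫_{s-}^s u L/σ`, `B(s) = ∫_{s-}^s ct K/σ` (continuous on `[s-, s+]` by `T_INT`, derivative in the interior by the fundamental theorem), `Γ(s) = ∫_{s0}^s h/w`.
`f(s) = F (Psi s (x + A s) (y + B s + Γ s) (pp 1 s) L)` and, with `x' = x + 2 A(s+)`, `y' = y + 2 B(s+)`, `g(s) = F (Psi s (x' - A s) (y' - B s + Γ s) (pp (-1) s) L)` and
`f̃(s) = F (Psi s (x' + A s) (y' + B s + Γ s) (pp 1 s) L)` are constant on `(s-, s+)` (`T_BRA`) and continuous on `[s-, s+]` (`F` is continuous on `TS`: `lift F`, `contDiffAt_lift`; `T_MEM`). At `s+` the momenta `pp (±1)` agree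
(`σ = 0`) and `f(s+) = g(s+)`; at `s-` `g(s-) = f̃(s-)`. So `f̃(s0) = f(s0)`, and `x, y` are arbitrary, `Γ(s0) = 0`. -/
def T_PER : Prop := T_BRA → T_INT → T_ORT → T_MEM → T_DER → ∀ (β : Type) [Fintype β] [DecidableEq β] (R : Fr β) (H : Ph β → ℝ) (D : Rd), Red R H D →
  ∀ F : Ph β → ℝ, PolyInMomenta F → IsIntegral H F → ∀ L X s0 s1 s2 : ℝ, Win 0 Real.pi (D.V R.k L) s0 X s1 s2 →
  deriv (D.V R.k L) s1 ≠ 0 → deriv (D.V R.k L) s2 ≠ 0 → ∀ x y : ℝ,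
  F (R.Psi s0 (x + 2 * JJ (D.V R.k L) D.w (fun s => D.u s * L) X s1 s2)
    (y + 2 * JJ (D.V R.k L) D.w (fun s => D.ct s * (R.k * L)) X s1 s2) (D.pp R.k L X 1 s0) L) =
  F (R.Psi s0 x y (D.pp R.k L X 1 s0) L)

/-- Torus lemma. Suppose some `A j / π` is irrational. For every `n ≥ 1` there are `m` with `1 ≤ m ≤ n^r` and integers `l j` with `|m A j - 2 π l j| ≤ 2π/n` for all `j` (pigeonhole for the points `m A / 2π` mod 1; or
`(Fin r → AddCircle (2π))` is compact, so `m ↦ m A` has returns arbitrarily near `0`). The vector `v n = m A - 2 π l` is not `0`, `v n → 0`, `f i (v n) = f i 0`. A subsequence of `v n / ‖v n‖` converges to some `e ≠ 0` and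
`fderiv (f i) 0 e = 0` for all `i`. -/
def T_RAT : Prop := ∀ (r N : ℕ) (f : Fin N → (Fin r → ℝ) → ℝ) (A : Fin r → ℝ), (∀ i, DifferentiableAt ℝ (f i) 0) →
  (∀ i θ j, f i (θ + Pi.single j (2 * Real.pi)) = f i θ) → (∀ i θ, f i (θ + A) = f i θ) →
  (∀ v : Fin r → ℝ, v ≠ 0 → ∃ i, fderiv ℝ (f i) 0 v ≠ 0) → ∀ j, ∃ q : ℚ, A j = q * Real.pi

/-- For fixed `t` the function `p ↦ F (Psi s (t da) (t db) p L)` is a polynomial in `p` of degree at most `d` (`d` from `PolyInMomenta`, the covector is affine in `p`). By Lagrange interpolation at `d + 1` points `p_l`: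
`F (Psi s (t da) (t db) p L) = ∑ l, F (Psi s (t da) (t db) (p_l) L) ℓ_l(p)`; differentiate at `t = 0` (`T_DER` with constant `s`, `p`; `lift`): the left hand side is `∑ l, (derivative for p_l) ℓ_l(p)`. -/
def T_POL : Prop := T_DER → T_ORT → T_MEM → ∀ (β : Type) [Fintype β] [DecidableEq β] (R : Fr β) (s L : ℝ), Real.sin s ≠ 0 → ∀ F : Ph β → ℝ, PolyInMomenta F →
  ∀ da db : ℝ, ∃ q : Polynomial ℝ, ∀ p : ℝ, fderiv ℝ (lift F) (R.Psi s 0 0 p L) (R.dPsi s 0 0 p L 0 da db 0) = q.eval p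

/-- The Gram matrix `G j l = ∑ i, D j i * D l i` has polynomial entries; `det G` at `p` is not `0` iff the vectors `(D j i (p))_i` are independent (`v G v = ∑ i (∑ j, v j D j i)²`). It is not `0` at `p0`, so it is
a nonzero polynomial with finitely many roots. -/
def T_COF : Prop := ∀ (r N : ℕ) (D : Fin r → Fin N → Polynomial ℝ) (p0 : ℝ),
  (∀ v : Fin r → ℝ, v ≠ 0 → ∃ i, ∑ j, v j * (D j i).eval p0 ≠ 0) →
  ∃ E : Set ℝ, E.Finite ∧ ∀ p ∉ E, ∀ v : Fin r → ℝ, v ≠ 0 → ∃ i, ∑ j, v j * (D j i).eval p ≠ 0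

/-- `T_INJ` at `p0`, `T_POL` for `(da, db) = (1, 0), (0, 1)` (`dPsi` is linear in `da, db`), `T_COF` with `r = 2`: the derivative on the torus is injective for all `p` outside a finite set `E'`. Let `E` be the set of the values
`w p² + 2 h p K + u L² + c K²` (at `s0`) for `p ∈ E'`. If `X ∉ E` then `p = pp 1 s0 ∉ E'` (on the level `2H = X`). `T_RAT` with `r = 2`, `f i θ = F i (Psi s0 (θ 0) (θ 1) p L)`, `A = 2 JJ` by `T_PER`; `f i` is differentiable at `0` with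
derivative `fderiv (lift (F i)) (Psi ..) (dPsi .. 0 (v 0) (v 1) 0)` (`f i θ = lift (F i) (Psi ..)`, and `θ ↦ Psi s0 (θ 0) (θ 1) p L` is smooth, its directional derivatives are in `T_DER`); it is `2π`-periodic in both variables. -/
def T_RTL : Prop := T_PER → T_BRA → T_INT → T_RAT → T_POL → T_COF → T_INJ → T_ORT → T_MEM → T_DER →
  ∀ (β : Type) [Fintype β] [DecidableEq β] (R : Fr β) (H : Ph β → ℝ) (D : Rd), Red R H D →
  |R.k| < 1 → ∀ s0 ∈ Ioo 0 Real.pi, ∀ p0 L : ℝ, D.w s0 * p0 + D.h s0 * (R.k * L) ≠ 0 →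
  ∀ F : Fin (2 * (Fintype.card (Option β) - 1) - 1) → Ph β → ℝ, (∀ i, PolyInMomenta (F i)) → (∀ i, IsIntegral H (F i)) →
  LinearIndependent ℝ (fun i => fderiv ℝ (lift (F i)) (R.Psi s0 0 0 p0 L)) →
  ∃ E : Set ℝ, E.Finite ∧ ∀ X ∉ E, ∀ a b : ℝ, Win 0 Real.pi (D.V R.k L) s0 X a b →
    deriv (D.V R.k L) a ≠ 0 → deriv (D.V R.k L) b ≠ 0 →
    (∃ q : ℚ, JJ (D.V R.k L) D.w (fun s => D.u s * L) X a b = q * Real.pi) ∧
    ∃ q : ℚ, JJ (D.V R.k L) D.w (fun s => D.ct s * (R.k * L)) X a b = q * Real.pi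

/-! ## Group R: one degree of freedom -/

/-- Existence: `b = sInf {s ∈ [s0, β) | X ≤ V s}` (nonempty by `tr`, closed by continuity; `V s0 < X`), same for `a`. Monotonicity: if `b' ≤ b` for `X < X'` then `V b' = X' > X` but `V ≤ X` on `[a, b]`. -/
def T_WIN : Prop := ∀ (α β : ℝ) (V V1 w u : ℝ → ℝ), Pot α β V V1 w u → ∀ s0 ∈ Ioo α β,
  (∀ X : ℝ, V s0 < X → ∃ a b, Win α β V s0 X a b) ∧
  (∀ X X' a b a' b' : ℝ, X < X' → Win α β V s0 X a b → Win α β V s0 X' a' b' → a' < a ∧ b < b') ∧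
  (∀ X a b a' b' : ℝ, Win α β V s0 X a b → Win α β V s0 X a' b' → a = a' ∧ b = b')

/-- Near a regular level. Signs: `V < X0` inside. Endpoints: for `X < X0` near `X0`, `V ≤ X0 - η < X` on `[s0, b0 - ε]`, so `b > b0 - ε`; for `X > X0` near `X0`: `V` is strictly increasing on `[b0 - ε, b0 + ε]` (`V1 > 0` there, `V1` is continuous), so `b < b0 + ε`
as soon as `X < V (b0 + ε)`; in the same way `a`. Lower bound: choose `ε, c1` with `V1 ≤ -c1` on `[a0-ε, a0+ε]`, `V1 ≥ c1` on `[b0-ε, b0+ε]`, `V ≤ X0 - 2 η` on `[a0+ε, b0-ε]`. For `|X - X0| < δ ≤ η` with endpoints within `ε`: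
on `[a, a0+ε]` `X - V s ≥ c1 (s - a)` (mean value), on `[b0-ε, b]` `X - V s ≥ c1 (b - s)`, in the middle `X - V s ≥ η`; and `(s-a)(b-s) ≤ (β-α) (s-a)`, `≤ (β-α) (b-s)`, `≤ (β-α)²`. -/
def T_LOW : Prop := T_WIN → ∀ (α β : ℝ) (V V1 w u : ℝ → ℝ), Pot α β V V1 w u → ∀ s0 X0 a0 b0 : ℝ, Win α β V s0 X0 a0 b0 → V1 a0 ≠ 0 → V1 b0 ≠ 0 →
  (V1 a0 < 0 ∧ 0 < V1 b0) ∧
  (∃ c δ : ℝ, 0 < c ∧ 0 < δ ∧ ∀ X a b : ℝ, |X - X0| < δ → Win α β V s0 X a b →
    (∀ s ∈ Icc a b, c * ((s - a) * (b - s)) ≤ X - V s) ∧ V1 a < 0 ∧ 0 < V1 b) ∧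
  (∀ ε : ℝ, 0 < ε → ∃ δ : ℝ, 0 < δ ∧ ∀ X a b : ℝ, |X - X0| < δ → Win α β V s0 X a b → |a - a0| < ε ∧ |b - b0| < ε)

/-- Continuity of the drift integral at a regular level. Sequences `X n → X0` with windows `a n, b n`; `T_LOW`. Substitute `s = a + (b - a) t`: `JJ = ∫_0^1 g(s) (b - a) / √(w(s) (X - V s)) dt`, the integrand is bounded by
`C (b-a) / √(c (b-a)² t (1-t)) = C' / √(t (1-t))` (integrable on `(0,1)`) and converges pointwise: dominated convergence (`intervalIntegral.tendsto_integral_filter_of_dominated_convergence`). (Windows near `X0` stay in a compact subset of `(α, β)`, where `g` is bounded and `w` is bounded below.) -/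
def T_JCT : Prop := T_WIN → T_LOW → ∀ (α β : ℝ) (V V1 w u g : ℝ → ℝ), Pot α β V V1 w u → ContinuousOn g (Ioo α β) →
  ∀ s0 X0 a0 b0 : ℝ, Win α β V s0 X0 a0 b0 → V1 a0 ≠ 0 → V1 b0 ≠ 0 →
  ∀ ε : ℝ, 0 < ε → ∃ δ : ℝ, 0 < δ ∧ ∀ X a b : ℝ, |X - X0| < δ → Win α β V s0 X a b → |JJ V w g X a b - JJ V w g X0 a0 b0| < ε

/-- At an irregular level the drift is infinite from above. Say `V1 b1 = 0` (the other case is the same by reflection, or repeat the proof). `V1` is differentiable at `b1`, so `|V1 s| ≤ C |s - b1|` near `b1` and `X1 - V s ≤ C (b1 - s)²` on `[b1 - r, b1]`, `b1 - r > s0`. For `X = X1 + η'`,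
`0 < η' < η`: `[b1 - r, b1] ⊆ [a, b]` (`T_WIN`), the integrand is nonnegative and `≥ u0 / √(M (η' + C (b1 - s)²)) ≥ u0 / √(M (1 + C) (b1 - s)²)` for `√η' ≤ b1 - s ≤ r` (`M` a bound of `w`), so `JJ ≥ u0 / √(M (1 + C)) · log (r / √η')`, which is `> A0` for small `η'`. -/
def T_IRR : Prop := T_WIN → ∀ (α β : ℝ) (V V1 w u : ℝ → ℝ), Pot α β V V1 w u → ∀ s0 X1 a1 b1 : ℝ, Win α β V s0 X1 a1 b1 → (V1 a1 = 0 ∨ V1 b1 = 0) →
  ∀ A0 : ℝ, ∃ η : ℝ, 0 < η ∧ ∀ X a b : ℝ, X1 < X → X < X1 + η → Win α β V s0 X a b →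
    IntervalIntegrable (fun x => u x / √(w x * (X - V x))) volume a b → A0 < JJ V w u X a b

/-- Intermediate values: if `f x ≠ f y` then `f '' [x,y]` contains an interval, which is uncountable; but it is contained in the countable set `{q π} ∪ f '' E`. -/
def T_CST : Prop := ∀ (X1 : ℝ) (f : ℝ → ℝ) (E : Set ℝ), E.Finite → ContinuousOn f (Ioi X1) → (∀ x ∈ Ioi X1, x ∉ E → ∃ q : ℚ, f x = q * Real.pi) →
  ∃ c, ∀ x ∈ Ioi X1, f x = c

/-- Choose `δ` with `V1 < 0` on `(α, α + δ)` and `V1 > 0` on `(β - δ, β)`, and let `M` be the maximum of `V` on `[α + δ, β - δ]`. For `X > M` the endpoints are outside of `[α + δ, β - δ]`. -/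
def T_BIG : Prop := ∀ (α β : ℝ) (V V1 w u : ℝ → ℝ), Pot α β V V1 w u → ∀ s0 ∈ Ioo α β, ∃ M : ℝ, ∀ X a b : ℝ, M < X → Win α β V s0 X a b → V1 a < 0 ∧ 0 < V1 b

/-- All levels are regular and the drifts are constant. Let `lo X, hi X` be the endpoints (`T_WIN`, choice) and `G` the set of the levels `X1 ≥ V s0` such that all levels in `(X1, ∞)` are regular (nonempty: `T_BIG`); let `X1 = sInf G` (so all levels in `(X1, ∞)` are regular). On `(X1, ∞)` the functions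
`X ↦ JJ V w u X (lo X) (hi X)` and with `g` are continuous (`T_JCT`, `V1` signs from `T_LOW`), so constant (`T_CST`). If `X1 > V s0`: the level `X1` is regular or not. If it is, then by `T_LOW` the levels near `X1` are regular, contradiction to the infimum. If not, `T_IRR` (integrability from `T_INT`) contradicts that
`JJ u` is constant on `(X1, ∞)`. So `X1 = V s0`. -/
def T_REG : Prop := T_WIN → T_LOW → T_JCT → T_IRR → T_CST → T_BIG → T_INT → ∀ (α β : ℝ) (V V1 w u g : ℝ → ℝ), Pot α β V V1 w u → ContinuousOn g (Ioo α β) →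
  ∀ s0 ∈ Ioo α β, ∀ E : Set ℝ, E.Finite →
  (∀ X ∉ E, ∀ a b : ℝ, Win α β V s0 X a b → V1 a ≠ 0 → V1 b ≠ 0 →
    (∃ q : ℚ, JJ V w u X a b = q * Real.pi) ∧ ∃ q : ℚ, JJ V w g X a b = q * Real.pi) →
  (∀ X a b : ℝ, Win α β V s0 X a b → V1 a < 0 ∧ 0 < V1 b) ∧ ∃ c : ℝ, ∀ X a b : ℝ, Win α β V s0 X a b → JJ V w g X a b = c

/-- If all levels are regular then `{V < X}` is an interval. Let `s > s0` (the other side is the same), `V s < X`, suppose `s ≥ b`. Then `m = max of V on [s0, s]` is `≥ V b = X > V s0`. Let `(a', b')` be the window of the level `m` if `m > V s0`: `b'` is the first point `≥ s0` with `V b' = m`, so `b' ≤ s`, and `b' < s` because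
`V s < X ≤ m`. So `b'` is an interior point of `[s0, s]` where `V` has its maximum on `[s0,s]`: `V1 b' = 0`, contradiction. -/
def T_SUB : Prop := T_WIN → ∀ (α β : ℝ) (V V1 w u : ℝ → ℝ), Pot α β V V1 w u → ∀ s0 ∈ Ioo α β, (∀ X a b : ℝ, Win α β V s0 X a b → V1 a < 0 ∧ 0 < V1 b) →
  ∀ X a b : ℝ, Win α β V s0 X a b → ∀ s ∈ Ioo α β, V s < X → s ∈ Ioo a b

/-- Fubini on `(X0, X) × (α, β)` for `g(s) / √(w(s) (x - V s))` on `V s < x`: `∫_{X0}^{X} 1_{V s < x} (x - V s)^(-1/2) dx = 2 √((X - V s)⁺) - 2 √((X0 - V s)⁺)`. Absolutely integrable since `|g| ≤ C` and `∫ .. ≤ 2 √(X - m)` with a lower bound `m` of `V`. -/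
def T_FUB : Prop := ∀ (α β : ℝ) (V V1 w u g : ℝ → ℝ), Pot α β V V1 w u → ContinuousOn g (Ioo α β) → (∃ C, ∀ s ∈ Ioo α β, |g s| ≤ C) →
  ∀ X0 X : ℝ, X0 ≤ X → ∫ x in X0..X, (∫ s in {s | s ∈ Ioo α β ∧ V s < x}, g s / √(w s * (x - V s))) = 2 * (GG α β V w g X - GG α β V w g X0)

/-- `V ≥ m` on `(α, β)` (walls and compactness), `|g| ≤ C`, `w ≥ w0 > 0`: `|GG X| ≤ (β - α) C √(max (X - m) 0) / √w0`. -/
def T_GBD : Prop := ∀ (α β : ℝ) (V V1 w u g : ℝ → ℝ), Pot α β V V1 w u → ContinuousOn g (Ioo α β) → (∃ C, ∀ s ∈ Ioo α β, |g s| ≤ C) →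
  ∃ K m : ℝ, ∀ X : ℝ, |GG α β V w g X| ≤ K * √(max (X - m) 0)

/-- `T_REG`: `JJ g = c`. `T_SUB`: for `x > V s0` the inner integral of `T_FUB` is `JJ V w g x a b = c` (`{V < x} = (a, b)`). So `2 (GG X - GG X0) = c (X - X0)`, `X0 = V s0`, `X ≥ X0`; `T_GBD` gives `c = 0` as `X → ∞`. -/
def T_COR : Prop := T_WIN → T_LOW → T_JCT → T_IRR → T_CST → T_BIG → T_INT → T_REG → T_SUB → T_FUB → T_GBD →
  ∀ (α β : ℝ) (V V1 w u g : ℝ → ℝ), Pot α β V V1 w u → ContinuousOn g (Ioo α β) → (∃ C, ∀ s ∈ Ioo α β, |g s| ≤ C) →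
  ∀ s0 ∈ Ioo α β, ∀ E : Set ℝ, E.Finite →
  (∀ X ∉ E, ∀ a b : ℝ, Win α β V s0 X a b → V1 a ≠ 0 → V1 b ≠ 0 →
    (∃ q : ℚ, JJ V w u X a b = q * Real.pi) ∧ ∃ q : ℚ, JJ V w g X a b = q * Real.pi) →
  ∀ X : ℝ, V s0 ≤ X → GG α β V w g X = GG α β V w g (V s0)

/-! ## Group F: the end of the proof -/

/-- conditions on the reduced functions of a metric on the suspension -/
structure Sus (D : Rd) : Prop where
  sw : ∀ s ∈ Ioo 0 Real.pi, ContDiffAt ℝ 2 D.w s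
  su : ∀ s ∈ Ioo 0 Real.pi, ContDiffAt ℝ 2 D.u s
  sct : ∀ s ∈ Ioo 0 Real.pi, ContDiffAt ℝ 2 D.ct s
  cw : ContinuousOn D.w (Icc 0 Real.pi)
  pw : ∀ s ∈ Icc 0 Real.pi, 0 < D.w s
  pu : ∃ u0 : ℝ, 0 < u0 ∧ ∀ s ∈ Ioo 0 Real.pi, u0 ≤ D.u s
  bct : ∃ C : ℝ, ∀ s ∈ Ioo 0 Real.pi, |D.ct s| ≤ C ∧ |deriv D.ct s| ≤ C
  tl : Tendsto D.u (𝓝[>] 0) atTop
  tr : Tendsto D.u (𝓝[<] Real.pi) atTop
  dl : Tendsto (deriv D.u) (𝓝[>] 0) atBot
  dr : Tendsto (deriv D.u) (𝓝[<] Real.pi) atTop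

/-- `V = L² (u + k² ct)`, `V1 = deriv V`. -/
def T_POT : Prop := ∀ D : Rd, Sus D → ∀ k L : ℝ, |k| ≤ 1 → 0 < L →
  Pot 0 Real.pi (D.V k L) (deriv (D.V k L)) D.w (fun s => D.u s * L)

/-- For the reduced data of `usHam`: `w`, `ct` are smooth functions on the whole line (`0 < w` everywhere), so bounded with bounded derivative on `[0, π]`; `u = P(cos)/sin²` with `P ≥ P0 > 0` on `[-1,1]`; `u' = -P'(cos s)/sin s - 2 P(cos s) cos s/sin³ s`. -/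
def T_SUS : Prop := ∀ P Q S W : ℝ → ℝ, ContDiff ℝ ∞ P → ContDiff ℝ ∞ Q → ContDiff ℝ ∞ S → ContDiff ℝ ∞ W → (∀ t ∈ Icc (-1 : ℝ) 1, 0 < P t) →
  (∀ s : ℝ, 0 < P (Real.cos s) * Real.cos s ^ 2 + Q (Real.cos s) * Real.sin s ^ 2) → Sus (usRd P Q S W)

/-- `T_RTL` and `T_COR` with `V = L² (u + k² ct)`, `g = ct k L`: for `X' ≥ V s0`, `GG X' = k L² Phi (X'/L²) k²` (pull `k L` and `√(L²) = L` out), so `Phi X k² = Phi (u s0 + k² ct s0) k²` for `X ≥ u s0 + k² ct s0` (`k, L ≠ 0`). -/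
def T_ONE : Prop := T_RTL → T_PER → T_BRA → T_INT → T_RAT → T_POL → T_COF → T_INJ → T_ORT → T_MEM → T_DER → T_COR →
  T_WIN → T_LOW → T_JCT → T_IRR → T_CST → T_BIG → T_REG → T_SUB → T_FUB → T_GBD → T_POT →
  ∀ (β : Type) [Fintype β] [DecidableEq β] (R : Fr β) (H : Ph β → ℝ) (D : Rd), Red R H D → Sus D →
  R.k ≠ 0 → |R.k| < 1 → ∀ s0 ∈ Ioo 0 Real.pi, ∀ p0 L : ℝ, 0 < L → D.w s0 * p0 + D.h s0 * (R.k * L) ≠ 0 →
  ∀ F : Fin (2 * (Fintype.card (Option β) - 1) - 1) → Ph β → ℝ, (∀ i, PolyInMomenta (F i)) → (∀ i, IsIntegral H (F i)) →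
  LinearIndependent ℝ (fun i => fderiv ℝ (lift (F i)) (R.Psi s0 0 0 p0 L)) →
  ∀ X : ℝ, D.u s0 + R.k ^ 2 * D.ct s0 ≤ X → Phi D.w D.u D.ct X (R.k ^ 2) = Phi D.w D.u D.ct (D.u s0 + R.k ^ 2 * D.ct s0) (R.k ^ 2)

/-- Dominated convergence: locally `|integrand| ≤ C √(|X| + |y| C) / √w0` because `u > 0`. -/
def T_PHC : Prop := ∀ D : Rd, Sus D → Continuous fun q : ℝ × ℝ => Phi D.w D.u D.ct q.1 q.2

/-- Let `0 ≤ y < 1`, `k = √y`. `u + y ct` has a minimum `m` on `(0, π)`, at `s*`. If `X ≤ m` the integrand vanishes. Let `X > m`. Take good points `(s j, k j) → (s*, k)`, `X j = u (s j) + (k j)² ct (s j) → m`, so `X ≥ X j` for large `j`, and by continuity of `Phi` (`T_PHC`)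
`Phi X y = lim Phi X (k j)² = lim Phi (X j) (k j)² = Phi m y = 0`. -/
def T_LIM : Prop := T_PHC → ∀ D : Rd, Sus D →
  (∀ s1 ∈ Ioo 0 Real.pi, ∀ k1 ∈ Ioo (-1 : ℝ) 1, ∀ ε : ℝ, 0 < ε → ∃ s0 k0 : ℝ, s0 ∈ Ioo 0 Real.pi ∧ |s0 - s1| < ε ∧ |k0 - k1| < ε ∧
    ∀ X : ℝ, D.u s0 + k0 ^ 2 * D.ct s0 ≤ X → Phi D.w D.u D.ct X (k0 ^ 2) = Phi D.w D.u D.ct (D.u s0 + k0 ^ 2 * D.ct s0) (k0 ^ 2)) →
  ∀ y ∈ Ico (0 : ℝ) 1, ∀ X : ℝ, Phi D.w D.u D.ct X y = 0

/-- The difference of the integrands for `y = 0` and `y = 1/4` is `ct (√((X - u)⁺) - √((X - u - ct/4)⁺)) / √w ≥ 0` (same sign). If `ct s1 ≠ 0` take `X = u s1 + 1 + |ct s1|`: at `s1` it is positive; it is continuous, so the integral is positive. -/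
def T_CON : Prop := ∀ D : Rd, Sus D → (∀ X : ℝ, Phi D.w D.u D.ct X 0 = 0) → (∀ X : ℝ, Phi D.w D.u D.ct X (1 / 4) = 0) → ∀ s ∈ Ioo 0 Real.pi, D.ct s = 0

/-- `z = (x, p)`, `x₀ = cos s`, `s ∈ (0, π)`, `w = (zc x)/sin s`, `ζ = zc p = λ w + ζ'`, `ζ' ⊥ w`, `L = sin s |ζ'| > 0`, `v = ζ'/|ζ'|`, `p₀ = -sin s · p`-component: `p := -(z.2 none)/sin s`; `x₀ τ + ⟨z, ζ⟩ = 0` gives `λ = p cos s`. `L² = |z|²|ζ|² - ⟨z,ζ⟩²`. -/
def T_FRM : Prop := ∀ (β : Type) [Fintype β] [DecidableEq β] (J : (β → ℝ) →ₗ[ℝ] (β → ℝ)), (∀ x y, ip (J x) y = -ip x (J y)) → (∀ x, J (J x) = -x) →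
  ∀ z ∈ TS (Option β), 0 < ip (zc z.1) (zc z.1) * ip (zc z.2) (zc z.2) - ip (zc z.1) (zc z.2) ^ 2 →
  ∃ R : Fr β, R.J = J ∧ ∃ s ∈ Ioo 0 Real.pi, ∃ p L : ℝ, 0 < L ∧ z = R.Psi s 0 0 p L ∧ Real.cos s = z.1 none ∧
    L ^ 2 = ip (zc z.1) (zc z.1) * ip (zc z.2) (zc z.2) - ip (zc z.1) (zc z.2) ^ 2 ∧ R.k * L = kap J z ∧ p * Real.sin s = -z.2 none

/-- Take a unit vector `w` and a unit vector `e` orthogonal to `w` and `J w` (dimension at least `3`), `v = k J w + √(1 - k²) e`. -/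
def T_FEX : Prop := ∀ (β : Type) [Fintype β] [DecidableEq β] (J : (β → ℝ) →ₗ[ℝ] (β → ℝ)), (∀ x y, ip (J x) y = -ip x (J y)) → (∀ x, J (J x) = -x) →
  3 ≤ Fintype.card β → ∀ k ∈ Ioo (-1 : ℝ) 1, ∃ R : Fr β, R.J = J ∧ R.k = k

/-- Density. Let `U, F` be from `MaxSuperintegrable`. If `k1 = 0` replace it by a nonzero number within `ε/2`. Take `R*` with `k = k1` (`T_FEX`) and `z* = R*.Psi s1 0 0 p* 1` with `p*` such that `D.w s1 p* + D.h s1 k1 ≠ 0`. The functions `z ↦ z.1 none`, `κ`, `L² = |z|²|ζ|² - ⟨z,ζ⟩²`, `z.2 none` are continuous, so for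
`z ∈ U ∩ TS` near `z*` (`TS ⊆ closure (U ∩ TS)`) the frame of `T_FRM` has `s, k = κ/L, p` near `s1, k1, p*` (arccos is continuous on `(-1,1)`); so `|k| < 1`, `k ≠ 0`, `D.w s p + D.h s k L ≠ 0` (continuity of `D.w, D.h` on `(0,π)`). -/
def T_DEN : Prop := T_FRM → T_FEX → T_ORT → T_MEM → ∀ (β : Type) [Fintype β] [DecidableEq β] (J : (β → ℝ) →ₗ[ℝ] (β → ℝ)) (H : Ph β → ℝ) (D : Rd), (∀ x y, ip (J x) y = -ip x (J y)) → (∀ x, J (J x) = -x) →
  3 ≤ Fintype.card β → (∀ R : Fr β, R.J = J → Red R H D) → MaxSuperintegrable H →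
  ∃ F : Fin (2 * (Fintype.card (Option β) - 1) - 1) → Ph β → ℝ, (∀ i, PolyInMomenta (F i)) ∧ (∀ i, IsIntegral H (F i)) ∧
  ∀ s1 ∈ Ioo 0 Real.pi, ∀ k1 ∈ Ioo (-1 : ℝ) 1, ∀ ε : ℝ, 0 < ε → ∃ R : Fr β, R.J = J ∧ ∃ s0 ∈ Ioo 0 Real.pi, ∃ p0 L : ℝ, 0 < L ∧ |s0 - s1| < ε ∧ |R.k - k1| < ε ∧ R.k ≠ 0 ∧ |R.k| < 1 ∧
    D.w s0 * p0 + D.h s0 * (R.k * L) ≠ 0 ∧ LinearIndependent ℝ (fun i => fderiv ℝ (lift (F i)) (R.Psi s0 0 0 p0 L))

/-- Positivity. For `t ∈ [-1,1]` take `x = (t, √(1-t²) w)`. `P t > 0`: the covector `(0, e)` with a unit vector `e ⊥ w, J w` (dimension `≥ 3`): `κ = 0`, `2H = P t`. For `w(s) > 0`: the covector `(-sin s, cos s w)` at `(cos s, sin s w)` has `κ = 0` and `2H = P cos² + Q sin²`. -/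
def T_PSD : Prop := ∀ (β : Type) [Fintype β] [DecidableEq β] (J : (β → ℝ) →ₗ[ℝ] (β → ℝ)) (P Q S W : ℝ → ℝ), (∀ x y, ip (J x) y = -ip x (J y)) → (∀ x, J (J x) = -x) →
  3 ≤ Fintype.card β → (∀ z ∈ TS (Option β), z.2 ≠ 0 → 0 < usHam J P Q S W z) →
  (∀ t ∈ Icc (-1 : ℝ) 1, 0 < P t) ∧ ∀ s : ℝ, 0 < P (Real.cos s) * Real.cos s ^ 2 + Q (Real.cos s) * Real.sin s ^ 2

end Pool.Agent.USP
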