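import Pool.Agent.USP.Conf
import Pool.Agent.USP.Targets

/-!
# USP: the assembly, all blocks being hypotheses
-/

set_option autoImplicit false

open Set Filter Topology MeasureTheory
open scoped ContDiff

namespace Pool.Agent.USP
open Pool.Agent.MSup

/-- the vanishing of the reduced coefficient, in terms of the coefficients -/
theorem coef_of_ct {P Q S W : ℝ → ℝ} (sP : Continuous P) (sQ : Continuous Q) (sS : Continuous S)
    (sW : Continuous W)
    (hw : ∀ s : ℝ, 0 < P (Real.cos s) * Real.cos s ^ 2 + Q (Real.cos s) * Real.sin s ^ 2)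
    (hc : ∀ s ∈ Ioo 0 Real.pi, (usRd P Q S W).ct s = 0) :
    ∀ t ∈ Icc (-1 : ℝ) 1, S t * (P t * t ^ 2 + Q t * (1 - t ^ 2)) = W t ^ 2 * (1 - t ^ 2) := by
  have key : EqOn (fun t => S t * (P t * t ^ 2 + Q t * (1 - t ^ 2)))
      (fun t => W t ^ 2 * (1 - t ^ 2)) (Ioo (-1 : ℝ) 1) := by
    intro t ht
    have hs0 : 0 < Real.arccos t := Real.arccos_pos.2 ht.2
    have hs1 : Real.arccos t < Real.pi := by
      rcases lt_or_eq_of_le (Real.arccos_le_pi t) with h | h
      · exact h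
      · have := Real.arccos_eq_pi.1 h
        linarith [ht.1]
    have hcos : Real.cos (Real.arccos t) = t := Real.cos_arccos ht.1.le ht.2.le
    have hsin : Real.sin (Real.arccos t) ^ 2 = 1 - t ^ 2 := by
      have := Real.sin_sq_add_cos_sq (Real.arccos t)
      rw [hcos] at this
      linarith
    have h := hc (Real.arccos t) ⟨hs0, hs1⟩
    have hw' := hw (Real.arccos t)
    simp only [Rd.ct, usRd] at h
    rw [hcos, hsin] at hw'
    rw [hcos, hsin, neg_sq, mul_pow, hsin] at h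
    have h2 : S t = W t ^ 2 * (1 - t ^ 2) / (P t * t ^ 2 + Q t * (1 - t ^ 2)) := by linarith
    show S t * (P t * t ^ 2 + Q t * (1 - t ^ 2)) = W t ^ 2 * (1 - t ^ 2)
    rw [h2, div_mul_cancel₀ _ hw'.ne']
  have c1 : Continuous (fun t => S t * (P t * t ^ 2 + Q t * (1 - t ^ 2))) := by fun_prop
  have c2 : Continuous (fun t => W t ^ 2 * (1 - t ^ 2)) := by fun_prop
  have h := key.closure c1 c2
  rw [closure_Ioo (by norm_num)] at h
  exact fun t ht => h ht

/-- the positivity of the radial coefficient, in terms of `t = cos s` -/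
theorem pos_radial {P Q : ℝ → ℝ}
    (hw : ∀ s : ℝ, 0 < P (Real.cos s) * Real.cos s ^ 2 + Q (Real.cos s) * Real.sin s ^ 2) :
    ∀ t ∈ Icc (-1 : ℝ) 1, 0 < P t * t ^ 2 + Q t * (1 - t ^ 2) := by
  intro t ht
  have hcos : Real.cos (Real.arccos t) = t := Real.cos_arccos ht.1 ht.2
  have hsin : Real.sin (Real.arccos t) ^ 2 = 1 - t ^ 2 := by
    have := Real.sin_sq_add_cos_sq (Real.arccos t)
    rw [hcos] at this
    linarith
  have h := hw (Real.arccos t)
  rwa [hcos, hsin] at h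

theorem main_of (ort : T_ORT) (mem : T_MEM) (der : T_DER) (lft : T_LFT) (dus : T_DUS)
    (xus : T_XUS) (inj : T_INJ) (bra : T_BRA) (int : T_INT) (per : T_PER) (rat : T_RAT)
    (pol : T_POL) (cof : T_COF) (rtl : T_RTL) (win : T_WIN) (low : T_LOW) (jct : T_JCT)
    (irr : T_IRR) (cst : T_CST) (big : T_BIG) (reg : T_REG) (sub : T_SUB) (fub : T_FUB)
    (gbd : T_GBD) (cor : T_COR) (pot : T_POT) (sus : T_SUS) (one : T_ONE) (phc : T_PHC)
    (lim : T_LIM) (con : T_CON) (frm : T_FRM) (fex : T_FEX) (den : T_DEN) (psd : T_PSD)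
    (ode : T_ODE) (cfl : T_CFL)
    {β : Type} [Fintype β] [DecidableEq β] (J : (β → ℝ) →ₗ[ℝ] (β → ℝ))
    (skew : ∀ x y, ip (J x) y = -ip x (J y)) (sq : ∀ x, J (J x) = -x)
    (hβ : 3 ≤ Fintype.card β) (P Q S W : ℝ → ℝ)
    (sP : ContDiff ℝ ∞ P) (sQ : ContDiff ℝ ∞ Q) (sS : ContDiff ℝ ∞ S) (sW : ContDiff ℝ ∞ W)
    (pos : ∀ z ∈ TS (Option β), z.2 ≠ 0 → 0 < usHam J P Q S W z)
    (h : MaxSuperintegrable (usHam J P Q S W)) :
    (∀ t ∈ Icc (-1 : ℝ) 1, S t * (P t * t ^ 2 + Q t * (1 - t ^ 2)) = W t ^ 2 * (1 - t ^ 2)) ∧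
      ConfFlat (usHam J P Q S W) := by
  obtain ⟨hP, hw⟩ := psd β J P Q S W skew sq hβ pos
  have red : ∀ R : Fr β, R.J = J → Red R (usHam J P Q S W) (usRd P Q S W) := by
    intro R hR
    rw [← hR]
    exact xus ort mem lft dus β R P Q S W sP sQ sS sW hw
  have sus' := sus P Q S W sP sQ sS sW hP hw
  obtain ⟨F, hF, hI, hden⟩ :=
    den frm fex ort mem β J (usHam J P Q S W) (usRd P Q S W) skew sq hβ red h
  have lim0 := lim phc (usRd P Q S W) sus' (by
    intro s1 hs1 k1 hk1 ε hε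
    obtain ⟨R, hRJ, s0, hs0, p0, L, hL, h1, h2, h3, h4, h5, h6⟩ := hden s1 hs1 k1 hk1 ε hε
    exact ⟨s0, R.k, hs0, h1, h2, one rtl per bra int rat pol cof inj ort mem der cor win low jct irr
      cst big reg sub fub gbd pot β R _ _ (red R hRJ) sus' h3 h4 s0 hs0 p0 L hL h5 F hF hI h6⟩)
  have hc := con (usRd P Q S W) sus' (lim0 0 ⟨le_rfl, one_pos⟩)
    (lim0 (1 / 4) ⟨by norm_num, by norm_num⟩)
  have hid := coef_of_ct sP.continuous sQ.continuous sS.continuous sW.continuous hw hc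
  exact ⟨hid, cfl ode β J P Q S W skew sq sP sQ sS sW hP (pos_radial hw) hid⟩

end Pool.Agent.USP
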