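import Pool.Agent.MSup.Rank

/-!
# Unitary suspensions: metrics on `S^(2m)` invariant under `U(m)` (MP_337148_gt): definitions

The sphere is the unit sphere of `ℝ × ℝ^β`, coordinates indexed by `Option β`, and `ℝ^β` carries a
complex structure `J`.
-/

set_option autoImplicit false

open Set Filter Topology MeasureTheory
open scoped ContDiff

namespace Pool.Agent.USP
open Pool.Agent.MSup

/-- pairs (point, covector) in `ℝ × ℝ^β` -/
abbrev Ph (β : Type) := (Option β → ℝ) × (Option β → ℝ)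

section
variable {β : Type} [Fintype β]

/-- the component in `ℝ^β` -/
def zc (x : Option β → ℝ) : β → ℝ := fun i => x (some i)

/-- the momentum of the rotation `e^{it}` -/
def kap (J : (β → ℝ) →ₗ[ℝ] (β → ℝ)) (z : Ph β) : ℝ := ip (J (zc z.1)) (zc z.2)

/-- `2H = P |ζ|² + Q τ² + S κ² + 2 W τ κ` with coefficients depending on the first coordinate of
the point `(x₀, z)`, for the covector `(τ, ζ)`, `κ = ⟨Jz, ζ⟩` -/
noncomputable def usHam (J : (β → ℝ) →ₗ[ℝ] (β → ℝ)) (P Q S W : ℝ → ℝ) (z : Ph β) : ℝ :=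
  (P (z.1 none) * ip (zc z.2) (zc z.2) + Q (z.1 none) * z.2 none ^ 2 +
    S (z.1 none) * kap J z ^ 2) / 2 + W (z.1 none) * z.2 none * kap J z

/-- a complex structure and an orthonormal pair -/
structure Fr (β : Type) [Fintype β] where
  J : (β → ℝ) →ₗ[ℝ] (β → ℝ)
  skew : ∀ x y, ip (J x) y = -ip x (J y)
  sq : ∀ x, J (J x) = -x
  w : β → ℝ
  v : β → ℝ
  hw : ip w w = 1
  hv : ip v v = 1
  hwv : ip w v = 0

namespace Fr
variable (R : Fr β)

/-- the direction `K / L` -/
noncomputable def k : ℝ := ip (R.J R.w) R.v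

/-- rotation `e^{ib}` -/
noncomputable def rot (b : ℝ) (y : β → ℝ) : β → ℝ := Real.cos b • y + Real.sin b • R.J y

/-- the point of the sphere of `ℝ^β` -/
noncomputable def om (a b : ℝ) : β → ℝ := R.rot b (Real.cos a • R.w + Real.sin a • R.v)

/-- its derivative in `a` -/
noncomputable def om' (a b : ℝ) : β → ℝ := R.rot b (-Real.sin a • R.w + Real.cos a • R.v)

/-- the point -/
noncomputable def X (s a b : ℝ) : Option β → ℝ :=
  fun o => o.elim (Real.cos s) (fun i => Real.sin s * R.om a b i)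

/-- the covector -/
noncomputable def Pm (s a b p L : ℝ) : Option β → ℝ :=
  fun o => o.elim (-(p * Real.sin s))
    (fun i => p * Real.cos s * R.om a b i + L / Real.sin s * R.om' a b i)

noncomputable def Psi (s a b p L : ℝ) : Ph β := (R.X s a b, R.Pm s a b p L)

/-- derivative of `Psi` in the direction `(ds, da, db, dp)`, `L` being fixed -/
noncomputable def dPsi (s a b p L ds da db dp : ℝ) : Ph β :=
  (fun o => o.elim (-(Real.sin s * ds)) (fun i => Real.cos s * ds * R.om a b i +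
      Real.sin s * (da * R.om' a b i + db * R.J (R.om a b) i)),
   fun o => o.elim (-(dp * Real.sin s) - p * Real.cos s * ds)
     (fun i => (dp * Real.cos s - p * Real.sin s * ds - L / Real.sin s * da) * R.om a b i +
      (p * Real.cos s * da - L * Real.cos s / Real.sin s ^ 2 * ds) * R.om' a b i +
      p * Real.cos s * db * R.J (R.om a b) i + L / Real.sin s * db * R.J (R.om' a b) i))

end Fr
end

/-- reduced Hamiltonian `2H = w p² + 2 h p K + u L² + c K²` -/
structure Rd where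
  w : ℝ → ℝ
  u : ℝ → ℝ
  c : ℝ → ℝ
  h : ℝ → ℝ

namespace Rd
variable (D : Rd)

/-- the coefficient of `K²` after completing the square -/
noncomputable def ct (s : ℝ) : ℝ := D.c s - D.h s ^ 2 / D.w s

/-- effective potential, `K = k L` -/
noncomputable def V (k L s : ℝ) : ℝ := L ^ 2 * (D.u s + k ^ 2 * D.ct s)

/-- the absolute value of the velocity of `s` on the level `2H = X` -/
noncomputable def sg (k L X s : ℝ) : ℝ := √(D.w s * (X - D.V k L s))

/-- the momentum `p` on the level `2H = X` -/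
noncomputable def pp (k L X ε s : ℝ) : ℝ := (-(D.h s * (k * L)) + ε * D.sg k L X s) / D.w s

end Rd

/-- `H` reduces to `D` along the frame `R` -/
structure Red {β : Type} [Fintype β] [DecidableEq β] (R : Fr β) (H : Ph β → ℝ) (D : Rd) :
    Prop where
  sw : ∀ s ∈ Ioo 0 Real.pi, ContDiffAt ℝ 2 D.w s
  su : ∀ s ∈ Ioo 0 Real.pi, ContDiffAt ℝ 2 D.u s
  sc : ∀ s ∈ Ioo 0 Real.pi, ContDiffAt ℝ 2 D.c s
  sh : ∀ s ∈ Ioo 0 Real.pi, ContDiffAt ℝ 2 D.h s
  pw : ∀ s ∈ Ioo 0 Real.pi, 0 < D.w s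
  eq : ∀ s ∈ Ioo 0 Real.pi, ∀ a b p L : ℝ, XH H (R.Psi s a b p L) =
    R.dPsi s a b p L (D.w s * p + D.h s * (R.k * L)) (D.u s * L) (D.c s * (R.k * L) + D.h s * p)
      (-(deriv D.w s * p ^ 2 + 2 * deriv D.h s * p * (R.k * L) + deriv D.u s * L ^ 2 +
        deriv D.c s * (R.k * L) ^ 2) / 2)

/-- the reduced data of `usHam` -/
noncomputable def usRd (P Q S W : ℝ → ℝ) : Rd where
  w s := P (Real.cos s) * Real.cos s ^ 2 + Q (Real.cos s) * Real.sin s ^ 2
  u s := P (Real.cos s) / Real.sin s ^ 2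
  c s := S (Real.cos s)
  h s := -(W (Real.cos s) * Real.sin s)

/-! ### one degree of freedom -/

/-- a potential with walls at both ends of `(α, β)` -/
structure Pot (α β : ℝ) (V V1 w u : ℝ → ℝ) : Prop where
  lt : α < β
  dV : ∀ s ∈ Ioo α β, HasDerivAt V (V1 s) s
  dV1 : ∀ s ∈ Ioo α β, DifferentiableAt ℝ V1 s
  cw : ContinuousOn w (Icc α β)
  pw : ∀ s ∈ Icc α β, 0 < w s
  cu : ContinuousOn u (Ioo α β)
  pu : ∃ u0 : ℝ, 0 < u0 ∧ ∀ s ∈ Ioo α β, u0 ≤ u s
  tl : Tendsto V (𝓝[>] α) atTop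
  tr : Tendsto V (𝓝[<] β) atTop
  nl : ∀ᶠ s in 𝓝[>] α, V1 s < 0
  nr : ∀ᶠ s in 𝓝[<] β, 0 < V1 s

/-- `(a, b)` is the component of `V < X` containing `s0` -/
structure Win (α β : ℝ) (V : ℝ → ℝ) (s0 X a b : ℝ) : Prop where
  ha : α < a
  as : a < s0
  sb : s0 < b
  hb : b < β
  Va : V a = X
  Vb : V b = X
  lt : ∀ s ∈ Ioo a b, V s < X

/-- the drift integral over one crossing of the window -/
noncomputable def JJ (V w g : ℝ → ℝ) (X a b : ℝ) : ℝ := ∫ x in a..b, g x / √(w x * (X - V x))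

/-- the Abel transform -/
noncomputable def GG (α β : ℝ) (V w g : ℝ → ℝ) (X : ℝ) : ℝ :=
  ∫ s in α..β, g s * √(max (X - V s) 0) / √(w s)

/-- the Abel transform of the final step -/
noncomputable def Phi (w u c : ℝ → ℝ) (X y : ℝ) : ℝ :=
  ∫ s in (0 : ℝ)..Real.pi, c s * √(max (X - u s - y * c s) 0) / √(w s)

end Pool.Agent.USP
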