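import Pool.Agent.USP.P_ORT

/-!
# USP: every generic covector is a `Psi`
-/

set_option autoImplicit false

open Set Filter Topology MeasureTheory
open scoped ContDiff

namespace Pool.Agent.USP
open Pool.Agent.MSup

namespace FRM_

variable {β : Type} [Fintype β]

theorem sub_r (x y z : β → ℝ) : ip x (y - z) = ip x y - ip x z := by
  simp only [ip, Pi.sub_apply, mul_sub, Finset.sum_sub_distrib]

theorem sub_l (x y z : β → ℝ) : ip (x - y) z = ip x z - ip y z := by
  rw [PSD_.comm, sub_r, PSD_.comm z x, PSD_.comm z y]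

end FRM_

open FRM_ in
/-- every generic covector is a `Psi` -/
theorem p_FRM : T_FRM := by
  intro β _ _ J hJ hJ2 z hz hD
  obtain ⟨hz1, hz2⟩ := hz
  rw [PSD_.opt] at hz1 hz2
  set t : ℝ := z.1 none with ht
  set τ : ℝ := z.2 none with hτ
  set Z : β → ℝ := zc z.1 with hZ
  set ζ : β → ℝ := zc z.2 with hζ
  set D : ℝ := ip Z Z * ip ζ ζ - ip Z ζ ^ 2 with hDd
  have hZ0 : 0 < ip Z Z := by
    rcases (ORT_.self_nonneg Z).lt_or_eq with h | h
    · exact h
    · rw [← h] at hDd
      nlinarith [sq_nonneg (ip Z ζ)]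
  have ht1 : t ^ 2 < 1 := by nlinarith
  have ht2 : -1 < t ∧ t < 1 := abs_lt.1 ((sq_lt_one_iff_abs_lt_one t).1 ht1)
  set s : ℝ := Real.arccos t with hs
  have hcos : Real.cos s = t := Real.cos_arccos ht2.1.le ht2.2.le
  have hs0 : 0 < s := Real.arccos_pos.2 ht2.2
  have hs1 : s < Real.pi := by
    rcases (Real.arccos_le_pi t).lt_or_eq with h | h
    · exact h
    · rw [Real.arccos_eq_pi] at h
      linarith [ht2.1]
  have hsin : 0 < Real.sin s := Real.sin_pos_of_pos_of_lt_pi hs0 hs1
  have hss : Real.sin s ^ 2 = ip Z Z := by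
    have := Real.sin_sq_add_cos_sq s
    rw [hcos] at this
    nlinarith
  set L : ℝ := √D with hL
  have hL0 : 0 < L := Real.sqrt_pos.2 hD
  have hL2 : L ^ 2 = D := Real.sq_sqrt hD.le
  set w : β → ℝ := (Real.sin s)⁻¹ • Z with hw
  set q : ℝ := -(τ * t) / Real.sin s with hq
  set ζ' : β → ℝ := ζ - q • w with hζ'
  set v : β → ℝ := (Real.sin s / L) • ζ' with hv
  have hww : ip w w = 1 := by
    rw [hw, PSD_.smul_l, PSD_.smul_r, ← hss]
    field_simp
  have hwζ : ip w ζ = q := by
    rw [hw, PSD_.smul_l, hq]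
    field_simp
    linarith
  have hwζ' : ip w ζ' = 0 := by
    rw [hζ', sub_r, PSD_.smul_r, hww, hwζ]
    ring
  have hζw : ip ζ w = q := by rw [PSD_.comm, hwζ]
  have hζζ : Real.sin s ^ 2 * ip ζ' ζ' = D := by
    have h0 : ip ζ' ζ' = ip ζ ζ - q ^ 2 := by
      rw [hζ', sub_r, sub_l, sub_l, PSD_.smul_l q, PSD_.smul_r q, PSD_.smul_r q, PSD_.smul_l q,
        hζw, hwζ, hww]
      ring
    rw [h0]
    have h1 : Real.sin s * q = ip Z ζ := by
      rw [hq]
      field_simp
      linarith
    rw [hDd, ← h1, ← hss]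
    ring
  have hvv : ip v v = 1 := by
    rw [hv, PSD_.smul_l, PSD_.smul_r]
    have h1 : Real.sin s / L * (Real.sin s / L * ip ζ' ζ') = Real.sin s ^ 2 * ip ζ' ζ' / L ^ 2 := by
      field_simp
    rw [h1, hζζ, hL2]
    exact div_self hD.ne'
  have hwv : ip w v = 0 := by
    rw [hv, PSD_.smul_r, hwζ', mul_zero]
  have hsv : (L / Real.sin s) • v = ζ' := by
    rw [hv, smul_smul]
    have : L / Real.sin s * (Real.sin s / L) = 1 := by field_simp
    rw [this, one_smul]
  have hsw : Real.sin s • w = Z := by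
    rw [hw, smul_smul, mul_inv_cancel₀ hsin.ne', one_smul]
  let R : Fr β := ⟨J, hJ, hJ2, w, v, hww, hvv, hwv⟩
  have hom : R.om 0 0 = w := by
    show Real.cos 0 • (Real.cos 0 • w + Real.sin 0 • v) +
      Real.sin 0 • J (Real.cos 0 • w + Real.sin 0 • v) = w
    simp
  have hom' : R.om' 0 0 = v := by
    show Real.cos 0 • (-Real.sin 0 • w + Real.cos 0 • v) +
      Real.sin 0 • J (-Real.sin 0 • w + Real.cos 0 • v) = v
    simp
  refine ⟨R, rfl, s, ⟨hs0, hs1⟩, -τ / Real.sin s, L, hL0, ?_, hcos, hL2, ?_, ?_⟩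
  · refine Prod.ext ?_ ?_
    · funext o
      rcases o with _ | i
      · exact hcos.symm
      · show z.1 (some i) = Real.sin s * R.om 0 0 i
        rw [hom]
        exact (congrFun hsw i).symm
    · funext o
      rcases o with _ | i
      · show z.2 none = -(-τ / Real.sin s * Real.sin s)
        rw [div_mul_cancel₀ _ hsin.ne', neg_neg]
      · show z.2 (some i) = -τ / Real.sin s * Real.cos s * R.om 0 0 i +
          L / Real.sin s * R.om' 0 0 i
        rw [hom, hom', hcos]
        have h1 : L / Real.sin s * v i = ζ' i := congrFun hsv i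
        have h2 : ζ' i = ζ i - q * w i := rfl
        have h3 : ζ i = z.2 (some i) := rfl
        rw [h1, h2, h3, hq]
        ring
  · show ip (J w) v * L = ip (J Z) ζ
    have h1 : ip (J w) v * L = Real.sin s * ip (J w) ζ' := by
      rw [hv, PSD_.smul_r]
      field_simp
    have h2 : J Z = Real.sin s • J w := by rw [← hsw, map_smul]
    rw [h1, h2, PSD_.smul_l, hζ', sub_r, PSD_.smul_r, ORT_.J_self hJ]
    ring
  · rw [div_mul_cancel₀ _ hsin.ne']

end Pool.Agent.USP
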